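import Pool.Agent.Lib.H63L.A5

/-!
# H94S, file A: the free ray lemma with heads and tails

Every edge of `F` has one end (the head) in `U` and one end (the tail) with the property `tl`. Two rays of `U` do not
separate two tails (`hin`), and no ray to a tail crosses an edge of `F` between a ray of `U` and the head (`hbe`). Then
some ray of `U` crosses no edge of `F`. The proof is helper63's descent (H63L.A5, A6); the walks always go to the head.
-/

set_option autoImplicit false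

namespace H94S

open H97B H63L

variable {α : Type} [LinearOrder α] {cr : α → α → α → Prop} {nx : α → α → α → α → Prop}
  {be : α → α → α → α → Prop} {lt : α → α → α → α → α → Prop}

/-- One step of the descent. -/
theorem step_heads (h : Fan cr nx be lt) {U : Finset α} (tl : α → Prop) {F : Finset (α × α)}
    (hsw : ∀ a b, (a, b) ∈ F → (b, a) ∈ F)
    (hFU : ∀ a b, (a, b) ∈ F → a ≠ b ∧ ((tl a ∧ b ∈ U) ∨ (a ∈ U ∧ tl b)))
    (hdis : ∀ x, tl x → x ∉ U)
    (hpl : ∀ a b c d, (a, b) ∈ F → (c, d) ∈ F → ¬ SameE a b c d → nx a b c d)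
    (hin : ∀ k k' r s, tl k → tl k' → r ∈ U → s ∈ U → r ≠ s → ¬ In k r s k')
    (hbe : ∀ k k' l r, tl k → tl k' → l ∈ U → r ∈ U → cr k l r → cr k l k' → ¬ be k l r k')
    (hall : ∀ z ∈ U, ∃ a b, (a, b) ∈ F ∧ cr a b z) {a b r s : α} (hs : State cr be lt U F a b r s)
    (hta : tl a) :
    ∃ a' b' r' s', State cr be lt U F a' b' r' s' ∧ tl a' ∧
      (∀ y, In a' r' s' y → In a r s y) ∧ ∃ t ∈ U, In a r s t ∧ ¬ In a' r' s' t := by
  classical
  have hbU : b ∈ U := by
    rcases (hFU a b hs.mem).2 with h1 | h1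
    · exact h1.2
    · exact absurd h1.1 (hdis a hta)
  obtain ⟨b1, b2, hb1, hb2, hb3, hb4⟩ := hs.blk
  obtain ⟨c0, d0, hc1, hc2, hc3⟩ := first_edge h hpl (r := s) ⟨b1, b2, hb1, hb2⟩
  have hsw' : ∀ {x y z w : α}, SameE x y z w → SameE y x z w := by
    rintro x y z w (⟨h1, h2⟩ | ⟨h1, h2⟩)
    · exact Or.inr ⟨h2, h1⟩
    · exact Or.inl ⟨h2, h1⟩
  have hsy' : ∀ {x y z w : α}, SameE x y z w → SameE z w x y := by
    rintro x y z w (⟨h1, h2⟩ | ⟨h1, h2⟩)
    · exact Or.inl ⟨h1.symm, h2.symm⟩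
    · exact Or.inr ⟨h2.symm, h1.symm⟩
  have has : a ≠ s := by
    rcases hs.sab with h1 | h1
    · rw [h1]
      exact (hFU a b hs.mem).1
    · exact (h.cne h1.1).2.1.symm
  have har : a ≠ r := (h.cne hs.rab).2.1.symm
  -- the end of an edge of `F` is not a ray between `r` and `s`
  have hnob : ∀ c d, (c, d) ∈ F → NoB cr be a b r s c := by
    intro c d hcd
    rcases (hFU c d hcd).2 with h1 | h1
    · intro _ _ h4 h5
      exact absurd h5 (hbe a c b r hta h1.1 hbU hs.rU hs.rab h4)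
    · exact hs.nob c h1.1
  -- the configuration of a first edge
  have mkc : ∀ c d, (c, d) ∈ F → cr c d s →
      (∀ c' d', (c', d') ∈ F → cr c' d' s → ¬ SameE c d c' d' → ¬ lt s c' d' c d) →
      Cfg cr nx be lt a b r s c d := by
    intro c d hcd hcs hf
    have diff : ¬ SameE a b c d := by
      intro hsame
      by_cases hsb : s = b
      · have h1 := h.cne hcs
        rcases hsame with ⟨h2, h3⟩ | ⟨h2, h3⟩
        · exact h1.2.2 (hsb.trans h3)
        · exact h1.2.1 (hsb.trans h3)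
      · have hab : cr a b s := by
          rcases hs.sab with h1 | h1
          · exact absurd h1 hsb
          · exact h1.1
        have hl := hb4 hsb
        rcases hsame with ⟨h2, h3⟩ | ⟨h2, h3⟩
        · subst h2
          subst h3
          exact hf b1 b2 hb1 hb2 hb3 hl
        · subst h2
          subst h3
          have hl2 := h.lts2 hab hb2 (hpl _ _ _ _ hs.mem hb1 hb3) hb3 hl
          exact hf b1 b2 hb1 hb2 (fun h5 => hb3 (hsw' h5)) hl2
    have hnx : nx a b c d := hpl _ _ _ _ hs.mem hcd diff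
    refine ⟨(hFU a b hs.mem).1, (hFU c d hcd).1, hs.rab, hs.rs, hs.sab, hcs, hnx, diff, ?_, ?_,
      hnob c d hcd, hnob d c (hsw c d hcd)⟩
    · intro hsb
      have hab : cr a b s := by
        rcases hs.sab with h1 | h1
        · exact absurd h1 hsb
        · exact h1.1
      rcases h.ltt hab hcs hnx diff with h1 | h1
      · exact absurd h1 (hf a b hs.mem hab fun h5 => diff (hsy' h5))
      · exact h1
    · intro hcr
      exact hs.free c d hcd hcr diff
  -- the first property for the reversed edge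
  have frev : ∀ c d, (c, d) ∈ F → cr c d s →
      (∀ c' d', (c', d') ∈ F → cr c' d' s → ¬ SameE c d c' d' → ¬ lt s c' d' c d) →
      (∀ c' d', (c', d') ∈ F → cr c' d' s → ¬ SameE d c c' d' → ¬ lt s c' d' d c) := by
    intro c d hcd hcs hf c' d' h1 h2 h3 h4
    have h5 := h.lts2 (h.crs hcs) h2 (hpl _ _ _ _ (hsw c d hcd) h1 h3) h3 h4
    exact hf c' d' h1 h2 (fun h6 => h3 (hsw' h6)) h5
  -- the main step
  have key : ∀ c d, (c, d) ∈ F → cr c d s →
      (∀ c' d', (c', d') ∈ F → cr c' d' s → ¬ SameE c d c' d' → ¬ lt s c' d' c d) →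
      In a r s c → ¬ In a r s d →
      ∃ a' b' r' s', State cr be lt U F a' b' r' s' ∧ tl a' ∧
        (∀ y, In a' r' s' y → In a r s y) ∧ ∃ t ∈ U, In a r s t ∧ ¬ In a' r' s' t := by
    intro c d hcd hcs hf hic hid
    have hcfg := mkc c d hcd hcs hf
    have hcU : c ∈ U ∧ tl d := by
      rcases (hFU c d hcd).2 with h1 | h1
      · exact absurd hic (hin a c r s hta h1.1 hs.rU hs.sU hs.rs)
      · exact h1
    obtain ⟨r', t, hst, hr', ht⟩ := state_of_first (U := U) h (hsw c d hcd) (h.crs hcs) hs.sU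
      hcU.1 (frev c d hcd hcs hf) (hall c hcU.1)
    have h1 : r' = s ∨ In a r s r' := by
      rcases hr' with h2 | ⟨h2, h3, h4⟩
      · exact Or.inl h2
      · exact Or.inr (h.fact2 hcfg hic hid h3 h2 h4 (hs.nob r' hst.rU))
    have h2 : In a r s t := by
      rcases ht with h3 | ⟨h3, h4, h5⟩
      · rw [h3]
        exact hic
      · exact h.fact2 hcfg hic hid h4 h3 h5 (hs.nob t hst.sU)
    refine ⟨d, c, r', t, hst, hcU.2, fun y hy => ?_, t, hst.sU, h2, fun h3 => h3.2.2.1 rfl⟩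
    exact arc_sub hs.rs has har hid (h.cne hcs).2.2.symm h1 h2 hst.rs hy
  rcases h.fact1 (mkc c0 d0 hc1 hc2 hc3) with ⟨h1, h2⟩ | ⟨h1, h2⟩
  · exact key c0 d0 hc1 hc2 hc3 h1 h2
  · exact key d0 c0 (hsw c0 d0 hc1) (h.crs hc2) (frev c0 d0 hc1 hc2 hc3) h1 h2

/-- THE FREE RAY LEMMA WITH HEADS AND TAILS. -/
theorem free_ray_heads (h : Fan cr nx be lt) {U : Finset α} (hU : U.Nonempty) (tl : α → Prop)
    {F : Finset (α × α)} (hsw : ∀ a b, (a, b) ∈ F → (b, a) ∈ F)
    (hFU : ∀ a b, (a, b) ∈ F → a ≠ b ∧ ((tl a ∧ b ∈ U) ∨ (a ∈ U ∧ tl b)))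
    (hdis : ∀ x, tl x → x ∉ U)
    (hpl : ∀ a b c d, (a, b) ∈ F → (c, d) ∈ F → ¬ SameE a b c d → nx a b c d)
    (hin : ∀ k k' r s, tl k → tl k' → r ∈ U → s ∈ U → r ≠ s → ¬ In k r s k')
    (hbe : ∀ k k' l r, tl k → tl k' → l ∈ U → r ∈ U → cr k l r → cr k l k' → ¬ be k l r k') :
    ∃ z ∈ U, ∀ a b, (a, b) ∈ F → ¬ cr a b z := by
  classical
  by_contra hcon
  push Not at hcon
  have hall : ∀ z ∈ U, ∃ a b, (a, b) ∈ F ∧ cr a b z := hcon
  obtain ⟨z, hz⟩ := hU
  have hstate : ∃ a b r s, State cr be lt U F a b r s ∧ tl a := by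
    obtain ⟨a, b, hab, hcr, hfree⟩ := first_edge h hpl (hall z hz)
    have hfree' : ∀ c d, (c, d) ∈ F → cr c d z → ¬ SameE b a c d → ¬ lt z c d b a := by
      intro c d hcd hc hne hl
      have hpb : nx b a c d := hpl _ _ _ _ (hsw a b hab) hcd hne
      have h5 := h.lts2 (h.crs hcr) hc hpb hne hl
      refine hfree c d hcd hc ?_ h5
      rintro (⟨h6, h7⟩ | ⟨h6, h7⟩)
      · exact hne (Or.inr ⟨h7, h6⟩)
      · exact hne (Or.inl ⟨h7, h6⟩)
    rcases (hFU a b hab).2 with ⟨h1, h2⟩ | ⟨h1, h2⟩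
    · obtain ⟨r', s, hs, -, -⟩ := state_of_first h hab hcr hz h2 hfree (hall b h2)
      exact ⟨a, b, r', s, hs, h1⟩
    · obtain ⟨r', s, hs, -, -⟩ := state_of_first h (hsw a b hab) (h.crs hcr) hz h1 hfree' (hall a h1)
      exact ⟨b, a, r', s, hs, h2⟩
  obtain ⟨a, b, r, s, hs, hta⟩ := hstate
  have hno : ∀ (n : ℕ) (a b r s : α), State cr be lt U F a b r s → tl a →
      (U.filter fun y => In a r s y).card = n → False := by
    intro n
    induction n using Nat.strong_induction_on with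
    | _ n ih =>
      intro a b r s hs hta hn
      obtain ⟨a', b', r', s', hs', hta', hsub, t, htU, ht1, ht2⟩ :=
        step_heads h tl hsw hFU hdis hpl hin hbe hall hs hta
      refine ih _ ?_ a' b' r' s' hs' hta' rfl
      rw [← hn]
      refine Finset.card_lt_card ?_
      rw [Finset.ssubset_iff_of_subset]
      · exact ⟨t, Finset.mem_filter.2 ⟨htU, ht1⟩, fun h => ht2 (Finset.mem_filter.1 h).2⟩
      · intro y hy
        obtain ⟨hy1, hy2⟩ := Finset.mem_filter.1 hy
        exact Finset.mem_filter.2 ⟨hy1, hsub y hy2⟩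
  exact hno _ a b r s hs hta rfl

end H94S
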