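import Mathlib

/-!
# H94S, A0: the algebraic data used by the group construction
-/

set_option autoImplicit false
namespace Pool.Agent.H94S

/-- A ring of characteristic `p` with an ideal `X` (an additive subgroup closed under multiplication by elements of the
ring) such that `X = X x X` for a nonzero `x ∈ X` and every `d`-tuple of elements of `X` generates a nilpotent ring. -/
structure Seed (p d : ℕ) where
  R : Type
  [iR : Ring R]
  [iC : CharP R p]
  X : AddSubgroup R
  left : ∀ a y, y ∈ X → a * y ∈ X
  right : ∀ a y, y ∈ X → y * a ∈ X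
  x : R
  hx : x ∈ X
  x0 : x ≠ 0
  gen : ∀ y ∈ X, y ∈ AddSubgroup.closure {z | ∃ a ∈ X, ∃ b ∈ X, z = a * x * b}
  nil : ∀ t : Fin d → R, (∀ i, t i ∈ X) → ∃ N, ∀ l : List (Fin d), l.length = N →
    (l.map t).prod = 0

attribute [instance] Seed.iR Seed.iC

end Pool.Agent.H94S
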