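import Pool.Agent.Lib.H94S.N3
import Pool.Agent.Lib.H94S.A0

/-!
# H94S, A1: the ideal J
-/

set_option autoImplicit false
namespace Pool.Agent.H94S

variable {F : Type} [Field F]

/-- The ideal `J` of a sequence of stages.

PROOF. `zero_mem`, `add_mem` (maximum of the two bounds), `smul_mem`: `rep (c * t * b) = rep c * rep (t * b)`. -/
noncomputable def Jid {r : ℕ} {n : ℕ → ℕ} (St : ∀ D, Stage F r (n D) D) : Ideal (T F r) where
  carrier := {t | ∀ b : T F r, ∃ D₀, ∀ D, D₀ ≤ D → ∀ y, (St D).rep (t * b) ((St D).ι y) = 0}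
  zero_mem' := by
    intro b
    exact ⟨0, fun D _ y => by simp⟩
  add_mem' := by
    intro s t hs ht b
    obtain ⟨D1, h1⟩ := hs b
    obtain ⟨D2, h2⟩ := ht b
    refine ⟨max D1 D2, fun D hD y => ?_⟩
    rw [add_mul, map_add, LinearMap.add_apply, h1 D (le_trans (le_max_left _ _) hD),
      h2 D (le_trans (le_max_right _ _) hD), add_zero]
  smul_mem' := by
    intro c t ht b
    obtain ⟨D1, h1⟩ := ht b
    refine ⟨D1, fun D hD y => ?_⟩
    rw [smul_eq_mul, mul_assoc, map_mul, Module.End.mul_apply, h1 D hD, map_zero]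

instance {r : ℕ} {n : ℕ → ℕ} (St : ∀ D, Stage F r (n D) D) : (Jid St).IsTwoSided := ⟨by
  intro t c ht b
  obtain ⟨D1, h1⟩ := ht (c * b)
  refine ⟨D1, fun D hD y => ?_⟩
  rw [mul_assoc]
  exact h1 D hD y⟩

end Pool.Agent.H94S
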