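import Pool.Agent.Lib.H94S.A1

/-!
# H94S, A1a: rho is in J
-/

set_option autoImplicit false
namespace Pool.Agent.H94S

variable {F : Type} [Field F]

/-- PROOF. `FreeAlgebra.induction` (`grade0`: `m = 0`; `grade1`: `m = 1`, `Stage.s6'`, `Stage.rep_gen`; product: `m + m'`
(note `1 ≤ a + m'`); sum: `max m m'`, with `Stage.e_e`: a vector fixed by `e_i` is fixed by `e_j`, `j ≥ i`). -/
theorem deg {r : ℕ} (b : T F r) : ∃ m : ℕ, ∀ (n k : ℕ) (St : Stage F r n k) (a : ℕ) (v : St.V), 1 ≤ a →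
    St.e a v = v → St.e (a + m) (St.rep b v) = St.rep b v := by
  induction b using FreeAlgebra.induction with
  | grade0 c =>
    refine ⟨0, fun n k St a v _ hv => ?_⟩
    rw [AlgHom.commutes, Module.algebraMap_end_apply, map_smul, add_zero, hv]
  | grade1 g =>
    refine ⟨1, fun n k St a v ha hv => ?_⟩
    have h1 : St.rep (FreeAlgebra.ι F g) = St.act g := St.rep_gen g
    rw [h1]
    exact St.s6' ha hv
  | mul x y hx hy =>
    obtain ⟨mx, hx⟩ := hx
    obtain ⟨my, hy⟩ := hy
    refine ⟨my + mx, fun n k St a v ha hv => ?_⟩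
    have h1 := hy n k St a v ha hv
    have h2 := hx n k St (a + my) (St.rep y v) (by omega) h1
    rw [map_mul, Module.End.mul_apply, ← add_assoc]
    exact h2
  | add x y hx hy =>
    obtain ⟨mx, hx⟩ := hx
    obtain ⟨my, hy⟩ := hy
    refine ⟨max mx my, fun n k St a v ha hv => ?_⟩
    have h1 := hx n k St a v ha hv
    have h2 := hy n k St a v ha hv
    have h3 : St.e (a + max mx my) (St.rep x v) = St.rep x v := by
      rw [← h1]
      exact St.e_e (by omega) _
    have h4 : St.e (a + max mx my) (St.rep y v) = St.rep y v := by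
      rw [← h2]
      exact St.e_e (by omega) _
    rw [map_add, LinearMap.add_apply, map_add, h3, h4]

/-- PROOF. For `b` take `m` from `deg`; `D₀ = 1 + m`: `e_1 (ι y) = ι y` (`s7`), so `e_(1+m) (b ι y) = b ι y`, hence
`e_D (b ι y) = b ι y` for `D ≥ 1 + m` (`Stage.e_e`) and `St.s5` gives `rho (e_D v) = 0`. -/
theorem rho_mem {r : ℕ} {n : ℕ → ℕ} (St : ∀ D, Stage F r (n D) D) : rho F r ∈ Jid St := by
  intro b
  obtain ⟨m, hm⟩ := deg b
  refine ⟨1 + m, fun D hD y => ?_⟩
  have h1 := hm (n D) D (St D) 1 ((St D).ι y) le_rfl ((St D).s7 y)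
  have h2 : (St D).e D ((St D).rep b ((St D).ι y)) = (St D).rep b ((St D).ι y) := by
    rw [← h1]
    exact (St D).e_e hD _
  rw [map_mul, Module.End.mul_apply, ← h2]
  exact (St D).s5 _

end Pool.Agent.H94S
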