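import Pool.Agent.Lib.H94S.A1

/-!
# H94S, A1b: x is not in J
-/

set_option autoImplicit false
namespace Pool.Agent.H94S

variable {F : Type} [Field F]

/-- PROOF. `b = 1`: `rep x (ι y) = κ y` (`s3`, `rep_gen`), `π (κ y) = y` (`s1`); take `y ≠ 0` (`0 < n D`). -/
theorem x_not_mem {r : ℕ} {n : ℕ → ℕ} (hn : ∀ D, 0 < n D) (St : ∀ D, Stage F r (n D) D) :
    gen F (Gen.x : Gen r) ∉ Jid St := by
  intro h
  obtain ⟨D₀, h1⟩ := h 1
  have h2 := h1 D₀ le_rfl (fun _ => 1)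
  rw [mul_one, (St D₀).rep_gen, (St D₀).s3] at h2
  have h3 := (St D₀).s1 (fun _ => (1 : F))
  rw [h2, map_zero] at h3
  exact zero_ne_one (congrFun h3 ⟨0, hn D₀⟩)

/-- PROOF. `rep (prod * b) = rep prod * rep b = 0` (`map_list_prod`, `List.map_map`). -/
theorem prod_mem {r d : ℕ} {n : ℕ → ℕ} (St : ∀ D, Stage F r (n D) D) (t : Fin d → T F r)
    (l : List (Fin d)) (h : ∀ D, (l.map fun i => (St D).rep (t i)).prod = 0) :
    (l.map t).prod ∈ Jid St := by
  intro b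
  refine ⟨0, fun D _ y => ?_⟩
  have h1 : (St D).rep (l.map t).prod = 0 := by
    rw [map_list_prod, List.map_map]
    exact h D
  rw [map_mul, h1, zero_mul, LinearMap.zero_apply]

end Pool.Agent.H94S
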