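import Mathlib

/-!
# H94S, N5: the schedule of barriers
-/

set_option autoImplicit false
namespace Pool.Agent.H94S

theorem n5_exists (j h : ℕ) : ∃ c, h ≤ c ∧ c < h + 2 ^ (j + 1) ∧ padicValNat 2 (c + 1) = j := by
  -- let t = h / 2^(j+1)
  have hpos : 0 < 2 ^ (j + 1) := by positivity
  have hpos' : 0 < 2 ^ j := by positivity
  have hp : 2 ^ (j + 1) = 2 * 2 ^ j := by ring
  have hval : ∀ t : ℕ, padicValNat 2 (2 ^ j * (2 * t + 1)) = j := by
    intro t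
    rw [padicValNat.mul (by positivity) (by positivity), padicValNat.prime_pow]
    rw [padicValNat.eq_zero_of_not_dvd (by omega), add_zero]
  obtain ⟨q, s, hs, hq⟩ : ∃ q s, s < 2 ^ (j + 1) ∧ h = 2 ^ (j + 1) * q + s :=
    ⟨h / 2 ^ (j + 1), h % 2 ^ (j + 1), Nat.mod_lt _ hpos, (Nat.div_add_mod h _).symm⟩
  by_cases hs2 : s < 2 ^ j
  · refine ⟨2 ^ j * (2 * q + 1) - 1, ?_, ?_, ?_⟩
    · have : 2 ^ j * (2 * q + 1) = 2 ^ (j + 1) * q + 2 ^ j := by rw [hp]; ring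
      omega
    · have : 2 ^ j * (2 * q + 1) = 2 ^ (j + 1) * q + 2 ^ j := by rw [hp]; ring
      omega
    · have h1 : 0 < 2 ^ j * (2 * q + 1) := by positivity
      rw [Nat.sub_add_cancel h1, hval]
  · refine ⟨2 ^ j * (2 * (q + 1) + 1) - 1, ?_, ?_, ?_⟩
    · have : 2 ^ j * (2 * (q + 1) + 1) = 2 ^ (j + 1) * q + 2 ^ (j + 1) + 2 ^ j := by
        rw [hp]; ring
      omega
    · have : 2 ^ j * (2 * (q + 1) + 1) = 2 ^ (j + 1) * q + 2 ^ (j + 1) + 2 ^ j := by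
        rw [hp]; ring
      omega
    · have h1 : 0 < 2 ^ j * (2 * (q + 1) + 1) := by positivity
      rw [Nat.sub_add_cancel h1, hval]

/-- The ruler sequence.

PROOF. `sched c = padicValNat 2 (c + 1)`, `M j = 2 ^ (j + 1)`. For all `j`, `h` there is `c ∈ [h, h + 2^(j+1))` with
`padicValNat 2 (c+1) = j`: the number `c + 1 ∈ [h + 1, h + 2^(j+1)]` with `c + 1 ≡ 2^j mod 2^(j+1)`, i.e.
`c + 1 = 2^j (2 t + 1)`. Let `c₀` be the least `c ≥ h` with `sched c = j` (`Nat.find`), `nb j h = c₀ - h + 1`. If `nb j h ≥ 2`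
then `c₀ ≥ h + 1`, so `c₀` is also the least `c ≥ h + 1`. -/
theorem exists_sched : ∃ (sched : ℕ → ℕ) (nb : ℕ → ℕ → ℕ) (M : ℕ → ℕ),
    (∀ j h, 1 ≤ nb j h) ∧ (∀ j h, nb j h ≤ M j) ∧ (∀ j h, 2 ≤ nb j h → nb j (h + 1) + 1 = nb j h) ∧
    ∀ j h, sched (h + nb j h - 1) = j := by
  classical
  have hex : ∀ j h, ∃ c, h ≤ c ∧ padicValNat 2 (c + 1) = j := by
    intro j h
    obtain ⟨c, h1, _, h2⟩ := n5_exists j h
    exact ⟨c, h1, h2⟩
  refine ⟨fun c => padicValNat 2 (c + 1), fun j h => Nat.find (hex j h) - h + 1,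
    fun j => 2 ^ (j + 1), fun j h => Nat.le_add_left 1 _, fun j h => ?_, fun j h hnb => ?_, fun j h => ?_⟩
  · obtain ⟨c, h1, h2, h3⟩ := n5_exists j h
    have h4 : Nat.find (hex j h) ≤ c := Nat.find_min' _ ⟨h1, h3⟩
    change Nat.find (hex j h) - h + 1 ≤ 2 ^ (j + 1)
    omega
  · have h1 := Nat.find_spec (hex j h)
    have h2 := Nat.find_spec (hex j (h + 1))
    have h3 : Nat.find (hex j h) ≤ Nat.find (hex j (h + 1)) :=
      Nat.find_min' _ ⟨by omega, h2.2⟩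
    have h4 : Nat.find (hex j (h + 1)) ≤ Nat.find (hex j h) := by
      refine Nat.find_min' _ ⟨?_, h1.2⟩
      change 2 ≤ Nat.find (hex j h) - h + 1 at hnb
      omega
    change Nat.find (hex j (h + 1)) - (h + 1) + 1 + 1 = Nat.find (hex j h) - h + 1
    change 2 ≤ Nat.find (hex j h) - h + 1 at hnb
    omega
  · have h1 := Nat.find_spec (hex j h)
    change padicValNat 2 (h + (Nat.find (hex j h) - h + 1) - 1 + 1) = j
    rw [show h + (Nat.find (hex j h) - h + 1) - 1 + 1 = Nat.find (hex j h) + 1 by omega]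
    exact h1.2

end Pool.Agent.H94S
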