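import Pool.Agent.Lib.H94S.N6a
import Pool.Agent.Lib.H94S.N5

/-!
# H94S, N6b: the sequence of modules
-/

set_option autoImplicit false
namespace Pool.Agent.H94S

variable {F : Type} [Field F]

theorem n6b_countable [Finite F] (r : ℕ) : Countable (T F r) := by
  have h := FreeAlgebra.cardinalMk_le_max (R := F) (X := Gen r)
  have h1 : Cardinal.mk F ≤ Cardinal.aleph0 := (Cardinal.lt_aleph0_of_finite F).le
  have h2 : Cardinal.mk (Gen r) ≤ Cardinal.aleph0 := (Cardinal.lt_aleph0_of_finite (Gen r)).le
  rw [← Cardinal.mk_le_aleph0_iff]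
  exact h.trans (sup_le (sup_le h1 h2) le_rfl)

/-- PROOF. The set of `d`-tuples of elements of augmentation `0` is countable (`FreeAlgebra.cardinalMk_le_max` or a
countability argument; finite products and subtypes of countable types) and nonempty (`0`), so there is a surjection `tup` from
`ℕ` onto it (`exists_surjective_nat`). `exists_sched`, `tower` with `h = 0`, `k = D` (`choose`). For a given tuple `t = tup j`
take `N = 4 * (2 ^ M j - 1)`: for `D`, a list `l` of length `N` and `v`, write `v = e_J v + (v - e_J v)`, `J = nb j 0 ≤ M j`;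
the product kills the first term by `Inv.up` (`2 (2^J - 1) ≤ N`), the second by `Inv.dn`. -/
theorem modules [Finite F] {d : ℕ} (hd : 0 < d) :
    ∃ (n : ℕ → ℕ) (St : ∀ D, Stage F (1000 * d) (n D) D), (∀ D, 0 < n D) ∧
      ∀ t : Fin d → T F (1000 * d), (∀ i, aug F (1000 * d) (t i) = 0) → ∃ N, ∀ D,
        ∀ l : List (Fin d), l.length = N → (l.map fun i => (St D).rep (t i)).prod = 0 := by
  classical
  have := n6b_countable (F := F) (1000 * d)
  have : Nonempty {t : Fin d → T F (1000 * d) // ∀ i, aug F (1000 * d) (t i) = 0} :=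
    ⟨⟨fun _ => 0, fun _ => map_zero _⟩⟩
  obtain ⟨tup, htup⟩ := exists_surjective_nat
    {t : Fin d → T F (1000 * d) // ∀ i, aug F (1000 * d) (t i) = 0}
  obtain ⟨sched, nb, M, h1, h2, h3, h4⟩ := exists_sched
  have key := fun D => tower hd (fun j => (tup j).1) (fun j t => (tup j).2 t) h1 h2 h3 h4 D 0
  choose n hn St hfin hb hInv using key
  refine ⟨n, St, hn, ?_⟩
  intro t ht
  obtain ⟨j, hj⟩ := htup ⟨t, ht⟩
  refine ⟨4 * (2 ^ M j - 1), ?_⟩
  intro D l hl
  have hI := hInv D j
  have hjt : (tup j).1 = t := by rw [hj]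
  simp only [hjt] at hI
  refine LinearMap.ext fun v => ?_
  have hsplit : v = (St D).e (nb j 0) v + (v - (St D).e (nb j 0) v) := by abel
  have hidem : (St D).e (nb j 0) ((St D).e (nb j 0) v) = (St D).e (nb j 0) v := by
    have := congrArg (fun f => f v) ((St D).ee (nb j 0) (nb j 0))
    simpa using this
  rw [hsplit, map_add]
  have hpow : 2 ^ nb j 0 ≤ 2 ^ M j := Nat.pow_le_pow_right (by norm_num) (h2 j 0)
  rw [hI.up l (by rw [hl]; omega) _ hidem, hI.dn l (by rw [hl]) _ (by rw [map_sub, hidem, sub_self])]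
  simp

end Pool.Agent.H94S
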