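import Pool.Agent.Lib.H94S.A1a
import Pool.Agent.Lib.H94S.A1b
import Pool.Agent.Lib.H94S.N6b

/-!
# H94S, A1c: the seed
-/

set_option autoImplicit false
namespace Pool.Agent.H94S

theorem seed_of {p d r : ℕ} [Fact p.Prime] {A : Type} [Ring A] [Algebra (ZMod p) A]
    (ε : A →+* ZMod p) (J : Ideal A) [J.IsTwoSided] (P W : Fin r → A) (Q x : A) (hx : ε x = 0)
    (hJ : x - ∑ j, P j * x * Q * x * W j ∈ J) (hxJ : x ∉ J)
    (hnil : ∀ t : Fin d → A, (∀ i, ε (t i) = 0) → ∃ N, ∀ l : List (Fin d), l.length = N →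
      (l.map t).prod ∈ J) : Nonempty (Seed p d) := by
  let mk := Ideal.Quotient.mk J
  have hmk : ∀ a, mk a = 0 ↔ a ∈ J := fun a => Ideal.Quotient.eq_zero_iff_mem
  have hx0 : mk x ≠ 0 := fun h => hxJ ((hmk x).1 h)
  have : Nontrivial (A ⧸ J) := ⟨⟨mk x, 0, hx0⟩⟩
  have hC : CharP (A ⧸ J) p :=
    charP_of_injective_algebraMap (algebraMap (ZMod p) (A ⧸ J)).injective p
  let X : AddSubgroup (A ⧸ J) := AddSubgroup.closure {z | ∃ a b, z = a * mk x * b}
  have hXm : ∀ a b, a * mk x * b ∈ X := fun a b => AddSubgroup.subset_closure ⟨a, b, rfl⟩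
  have hrel : mk x = ∑ j, mk (P j) * mk x * mk Q * mk x * mk (W j) := by
    have h := (hmk _).2 hJ
    rw [map_sub, sub_eq_zero] at h
    refine h.trans ?_
    rw [map_sum]
    exact Finset.sum_congr rfl fun j _ => by rw [map_mul, map_mul, map_mul, map_mul]
  refine ⟨⟨A ⧸ J, X, ?_, ?_, mk x, ?_, hx0, ?_, ?_⟩⟩
  · intro a y hy
    induction hy using AddSubgroup.closure_induction with
    | mem z hz =>
      obtain ⟨u, v, rfl⟩ := hz
      have : a * (u * mk x * v) = (a * u) * mk x * v := by noncomm_ring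
      rw [this]
      exact hXm _ _
    | zero => rw [mul_zero]; exact X.zero_mem
    | add y z _ _ h1 h2 => rw [mul_add]; exact X.add_mem h1 h2
    | neg y _ h1 => rw [mul_neg]; exact X.neg_mem h1
  · intro a y hy
    induction hy using AddSubgroup.closure_induction with
    | mem z hz =>
      obtain ⟨u, v, rfl⟩ := hz
      have : (u * mk x * v) * a = u * mk x * (v * a) := by noncomm_ring
      rw [this]
      exact hXm _ _
    | zero => rw [zero_mul]; exact X.zero_mem
    | add y z _ _ h1 h2 => rw [add_mul]; exact X.add_mem h1 h2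
    | neg y _ h1 => rw [neg_mul]; exact X.neg_mem h1
  · have := hXm 1 1
    rwa [one_mul, mul_one] at this
  · intro y hy
    induction hy using AddSubgroup.closure_induction with
    | mem z hz =>
      obtain ⟨u, v, rfl⟩ := hz
      have h2 : u * mk x * v = ∑ j, ∑ i, (u * mk (P j) * mk (P i) * mk x * mk Q) * mk x *
          (mk (W i) * mk Q * mk x * (mk (W j) * v)) := by
        conv_lhs => rw [hrel]
        rw [Finset.mul_sum, Finset.sum_mul]
        refine Finset.sum_congr rfl fun j _ => ?_
        have : u * (mk (P j) * mk x * mk Q * mk x * mk (W j)) * v =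
            u * mk (P j) * (∑ i, mk (P i) * mk x * mk Q * mk x * mk (W i)) *
              (mk Q * mk x * (mk (W j) * v)) := by
          rw [← hrel]
          noncomm_ring
        rw [this, Finset.mul_sum, Finset.sum_mul]
        refine Finset.sum_congr rfl fun i _ => ?_
        noncomm_ring
      rw [h2]
      refine AddSubgroup.sum_mem _ fun j _ => AddSubgroup.sum_mem _ fun i _ => ?_
      exact AddSubgroup.subset_closure ⟨_, hXm _ _, _, hXm _ _, rfl⟩
    | zero => exact AddSubgroup.zero_mem _
    | add y z _ _ h1 h2 => exact AddSubgroup.add_mem _ h1 h2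
    | neg y _ h1 => exact AddSubgroup.neg_mem _ h1
  · intro t ht
    have hlift : ∀ y ∈ X, ∃ a, ε a = 0 ∧ mk a = y := by
      intro y hy
      induction hy using AddSubgroup.closure_induction with
      | mem z hz =>
        obtain ⟨u, v, rfl⟩ := hz
        obtain ⟨u, rfl⟩ := Ideal.Quotient.mk_surjective u
        obtain ⟨v, rfl⟩ := Ideal.Quotient.mk_surjective v
        exact ⟨u * x * v, by rw [map_mul, map_mul, hx, mul_zero, zero_mul], by
          rw [map_mul, map_mul]⟩
      | zero => exact ⟨0, map_zero _, map_zero _⟩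
      | add y z _ _ h1 h2 =>
        obtain ⟨a, ha, rfl⟩ := h1
        obtain ⟨b, hb, rfl⟩ := h2
        exact ⟨a + b, by rw [map_add, ha, hb, add_zero], map_add _ _ _⟩
      | neg y _ h1 =>
        obtain ⟨a, ha, rfl⟩ := h1
        exact ⟨-a, by rw [map_neg, ha, neg_zero], map_neg _ _⟩
    choose t' h1 h2 using fun i => hlift (t i) (ht i)
    obtain ⟨N, hN⟩ := hnil t' h1
    refine ⟨N, fun l hl => ?_⟩
    have h3 : t = mk ∘ t' := funext fun i => (h2 i).symm
    rw [h3, ← List.map_map, ← map_list_prod]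
    exact (hmk _).2 (hN l hl)

/-- Theorem A.

PROOF. `F = ZMod p`, `r = 1000 d`, `modules`, `R = T ⧸ Jid St` (`Ideal.Quotient.ring`, algebra over `ZMod p`; `CharP`:
`charP_of_injective_algebraMap` as `R` is nontrivial because `x ≠ 0` in `R`), `x` = class of `gen x`,
`X = AddSubgroup.closure {z | ∃ a b, z = a * x * b}` (`left`, `right`: closure induction).
`gen`: the classes satisfy `x = ∑ p_j x q x w_j` (`rho_mem`), hence (substituting it for the first `x`)
`x = ∑_j ∑_i (p_j p_i x q) x (w_i q x w_j)`, so `a x b = ∑ (a p_j p_i x q) x (w_i q x w_j b)`, with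
`a p_j p_i x q = (a p_j p_i) x q ∈ X`, `w_i q x w_j b = (w_i q) x (w_j b) ∈ X`; closure induction.
`nil`: every element of `X` is the class of an element of augmentation `0` (closure induction: `a x b` lifts to
`a' * gen x * b'`, `aug (gen x) = 0`; `Ideal.Quotient.mk_surjective`), choose lifts `t'` of the tuple, `modules` gives `N`,
`prod_mem`, and the class of `(l.map t').prod` is `(l.map t).prod`. -/
theorem exists_seed (p d : ℕ) [Fact p.Prime] (hd : 0 < d) : Nonempty (Seed p d) := by
  obtain ⟨n, St, hn, hnil⟩ := modules (F := ZMod p) hd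
  refine seed_of (aug (ZMod p) (1000 * d)).toRingHom (Jid St)
    (fun j => gen (ZMod p) (Gen.p j)) (fun j => gen (ZMod p) (Gen.w j)) (gen (ZMod p) Gen.q)
    (gen (ZMod p) Gen.x) ?_ (rho_mem St) (x_not_mem hn St) ?_
  · simp [aug, gen]
  · intro t ht
    obtain ⟨N, hN⟩ := hnil t ht
    exact ⟨N, fun l hl => prod_mem St t l fun D => hN D l hl⟩

end Pool.Agent.H94S
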