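import Pool.Agent.Lib.H94S.A0

/-!
# H94S, B1: elementary matrices (definitions)
-/

set_option autoImplicit false
namespace Pool.Agent.H94S

variable {p d : ℕ}

/-- The group of invertible 3 x 3 matrices. -/
abbrev Seed.GL (S : Seed p d) : Type := (Matrix (Fin 3) (Fin 3) S.R)ˣ

/-- The elementary matrix `1 + a E_ij`.

PROOF of the two identities: `single i j a * single i j a' = 0` for `i ≠ j` (`Matrix.single_mul_single_of_ne`). -/
def Seed.el (S : Seed p d) (i j : Fin 3) (h : i ≠ j) (a : S.R) : S.GL where
  val := 1 + Matrix.single i j a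
  inv := 1 - Matrix.single i j a
  val_inv := by
    have : Matrix.single i j a * Matrix.single i j a = 0 :=
      Matrix.single_mul_single_of_ne a i j i h.symm a
    rw [mul_sub, mul_one, add_mul, this, one_mul]
    abel
  inv_val := by
    have : Matrix.single i j a * Matrix.single i j a = 0 :=
      Matrix.single_mul_single_of_ne a i j i h.symm a
    rw [mul_add, mul_one, sub_mul, this, one_mul]
    abel

/-- The elementary group over the ideal `X`. -/
def Seed.E (S : Seed p d) : Subgroup S.GL :=
  Subgroup.closure {g | ∃ (i j : Fin 3) (h : i ≠ j) (a : S.R), a ∈ S.X ∧ g = S.el i j h a}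

end Pool.Agent.H94S
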