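import Pool.Agent.Lib.H94S.B1

/-!
# H94S, B1a: relations of elementary matrices
-/

set_option autoImplicit false
namespace Pool.Agent.H94S

variable {p d : ℕ}

/-- PROOF. `Units.ext`, `(1 + A)(1 + B) = 1 + (A + B)` as `A * B = 0`; `Matrix.single_add`. -/
theorem el_add (S : Seed p d) {i j : Fin 3} (h : i ≠ j) (a b : S.R) :
    S.el i j h (a + b) = S.el i j h a * S.el i j h b := by
  apply Units.ext
  show 1 + Matrix.single i j (a + b) = (1 + Matrix.single i j a) * (1 + Matrix.single i j b)
  have h1 : Matrix.single i j a * Matrix.single i j b = 0 :=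
    Matrix.single_mul_single_of_ne a i j i h.symm b
  rw [mul_add, mul_one, add_mul, h1, one_mul, add_zero, Matrix.single_add, add_assoc]

/-- PROOF. `Units.ext` with `A = single i k a`, `B = single k j b`: `A*A = B*B = B*A = 0` and `A*B = single i j (a*b)`
(`Matrix.single_mul_single_same`), so `(1+A)(1+B)(1-A)(1-B) = 1 + AB`. -/
theorem el_comm (S : Seed p d) {i j k : Fin 3} (hij : i ≠ j) (hik : i ≠ k) (hkj : k ≠ j) (a b : S.R) :
    S.el i k hik a * S.el k j hkj b * (S.el i k hik a)⁻¹ * (S.el k j hkj b)⁻¹ =
      S.el i j hij (a * b) := by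
  apply Units.ext
  show (1 + Matrix.single i k a) * (1 + Matrix.single k j b) * (1 - Matrix.single i k a) *
    (1 - Matrix.single k j b) = 1 + Matrix.single i j (a * b)
  have h1 : Matrix.single i k a * Matrix.single i k a = 0 :=
    Matrix.single_mul_single_of_ne a i k i hik.symm a
  have h2 : Matrix.single k j b * Matrix.single k j b = 0 :=
    Matrix.single_mul_single_of_ne b k j k hkj.symm b
  have h3 : Matrix.single k j b * Matrix.single i k a = 0 :=
    Matrix.single_mul_single_of_ne b k j i hij.symm a
  have h4 : Matrix.single i k a * Matrix.single k j b = Matrix.single i j (a * b) :=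
    Matrix.single_mul_single_same a i k j b
  rw [← h4]
  generalize Matrix.single i k a = A at *
  generalize Matrix.single k j b = B at *
  have e1 : (1 + A) * (1 + B) * (1 - A) = 1 + B + A * B := by
    have : (1 + A) * (1 + B) * (1 - A) = 1 + B + A * B - (A * A + B * A + A * (B * A)) := by
      noncomm_ring
    rw [this, h1, h3]
    simp
  have e2 : (1 + B + A * B) * (1 - B) = 1 + A * B - (B * B + A * (B * B)) := by
    noncomm_ring
  rw [e1, e2, h2]
  simp

theorem el_zero (S : Seed p d) {i j : Fin 3} (h : i ≠ j) : S.el i j h 0 = 1 := by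
  apply Units.ext
  show 1 + Matrix.single i j 0 = 1
  rw [Matrix.single_zero, add_zero]

/-- If a subgroup contains `el i j z` for all `z = a * x * b`, `a, b ∈ X`, it contains `el i j y` for all `y ∈ X`.

PROOF. `S.gen`, `AddSubgroup.closure_induction`, `el_add` (zero: `el i j 0 = 1`; negative: `el i j (-a) = (el i j a)⁻¹` from
`el_add`). -/
theorem el_of_gen (S : Seed p d) (N : Subgroup S.GL) {i j : Fin 3} (h : i ≠ j)
    (hN : ∀ a ∈ S.X, ∀ b ∈ S.X, S.el i j h (a * S.x * b) ∈ N) : ∀ y ∈ S.X, S.el i j h y ∈ N := by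
  intro y hy
  have h1 := S.gen y hy
  clear hy
  induction h1 using AddSubgroup.closure_induction with
  | mem z hz =>
    obtain ⟨a, ha, b, hb, rfl⟩ := hz
    exact hN a ha b hb
  | zero =>
    rw [el_zero]
    exact N.one_mem
  | add u v _ _ hu hv =>
    rw [el_add]
    exact N.mul_mem hu hv
  | neg u _ hu =>
    have h2 : S.el i j h (-u) = (S.el i j h u)⁻¹ := by
      rw [eq_inv_iff_mul_eq_one, ← el_add, neg_add_cancel, el_zero]
    rw [h2]
    exact N.inv_mem hu

end Pool.Agent.H94S
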