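import Pool.Agent.Lib.H94S.B1a

/-!
# H94S, B1b: E is perfect
-/

set_option autoImplicit false
namespace Pool.Agent.H94S

variable {p d : ℕ}

/-- The group `E` is perfect, in the form: a subgroup containing all commutators of elements of `E` contains `E`.

PROOF. `Subgroup.closure_le`; for `i ≠ j` let `k` be the third index (`∃ k, i ≠ k ∧ k ≠ j`, by `decide`/`omega`);
`el_of_gen` with `el i j (a x b) = [el i k (a x), el k j b]` (`el_comm`; `a * x ∈ X` by `S.left`). -/
theorem E_le_of_comm (S : Seed p d) (N : Subgroup S.GL)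
    (hN : ∀ g ∈ S.E, ∀ h ∈ S.E, g * h * g⁻¹ * h⁻¹ ∈ N) : S.E ≤ N := by
  unfold Seed.E
  rw [Subgroup.closure_le]
  rintro g ⟨i, j, h, a, ha, rfl⟩
  have hk : ∀ i j : Fin 3, ∃ k, i ≠ k ∧ k ≠ j := by decide
  obtain ⟨k, hik, hkj⟩ := hk i j
  refine el_of_gen S N h (fun u hu v hv => ?_) a ha
  rw [← el_comm S h hik hkj]
  refine hN _ (Subgroup.subset_closure ⟨i, k, hik, u * S.x, S.left u S.x S.hx, rfl⟩) _
    (Subgroup.subset_closure ⟨k, j, hkj, v, hv, rfl⟩)

end Pool.Agent.H94S
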