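import Pool.Agent.Lib.H94S.B1a

/-!
# H94S, B1c: the normal closure of e_12(x)
-/

set_option autoImplicit false
namespace Pool.Agent.H94S

variable {p d : ℕ}

theorem b1c_mem (S : Seed p d) {i j : Fin 3} (h : i ≠ j) {a : S.R} (ha : a ∈ S.X) : S.el i j h a ∈ S.E :=
  Subgroup.subset_closure ⟨i, j, h, a, ha, rfl⟩

/-- left multiplication: from `e_ij(a x)` in `N` for ... to `e_kj` -/
theorem b1c_left (S : Seed p d) (N : Subgroup S.GL) (hN : ∀ g ∈ S.E, ∀ n ∈ N, g * n * g⁻¹ ∈ N)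
    {i j k : Fin 3} (hij : i ≠ j) (hki : k ≠ i) (hkj : k ≠ j)
    (h : ∀ b ∈ S.X, S.el i j hij (S.x * b) ∈ N) : ∀ y ∈ S.X, S.el k j hkj y ∈ N := by
  refine el_of_gen S N hkj fun a ha b hb => ?_
  have h1 := h b hb
  have h2 := el_comm S hkj hki hij a (S.x * b)
  rw [← mul_assoc] at h2
  rw [← h2]
  exact N.mul_mem (hN _ (b1c_mem S hki ha) _ h1) (N.inv_mem h1)

/-- right multiplication -/
theorem b1c_right (S : Seed p d) (N : Subgroup S.GL) (hN : ∀ g ∈ S.E, ∀ n ∈ N, g * n * g⁻¹ ∈ N)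
    {i j k : Fin 3} (hij : i ≠ j) (hjk : j ≠ k) (hik : i ≠ k)
    (h : ∀ a ∈ S.X, S.el i j hij (a * S.x) ∈ N) : ∀ y ∈ S.X, S.el i k hik y ∈ N := by
  refine el_of_gen S N hik fun a ha b hb => ?_
  have h1 := h a ha
  have h2 := el_comm S hik hij hjk (a * S.x) b
  rw [← h2]
  have h3 := hN _ (b1c_mem S hjk hb) _ (N.inv_mem h1)
  have e : S.el i j hij (a * S.x) * S.el j k hjk b * (S.el i j hij (a * S.x))⁻¹ * (S.el j k hjk b)⁻¹ =
      S.el i j hij (a * S.x) * (S.el j k hjk b * (S.el i j hij (a * S.x))⁻¹ * (S.el j k hjk b)⁻¹) := by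
    group
  rw [e]
  exact N.mul_mem h1 h3

/-- A subgroup normalised by `E` and containing `e_12(x)` contains `E`.

PROOF. For `g ∈ E`, `n ∈ N` both `[g, n] = (g n g⁻¹) n⁻¹` and `[n, g] = n (g n⁻¹ g⁻¹)` are in `N`. Indices 0,1,2 for 1,2,3.
`e_02(x b) = [e_01 x, e_12 b] ∈ N`, `e_12(a x b) = [e_10 a, e_02 (x b)] ∈ N`, so `e_12(y) ∈ N` for all `y ∈ X`
(`el_of_gen`). If `e_ij(y) ∈ N` for all `y ∈ X` and `k` is the third index then `e_ik(a y) = [e_ij(a)…]`: precisely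
`e_kj(a y) = [e_ki(a), e_ij(y)] ∈ N` and `e_ik(y b) = [e_ij(y), e_jk(b)] ∈ N` for `a, b ∈ X`, so (taking `y = x b`, resp.
`y = a x`) `e_kj(y), e_ik(y) ∈ N` for all `y ∈ X` by `el_of_gen`. From `(1,2)` one gets `(0,2)`, `(1,0)`; from `(0,2)`: `(1,2)`,
`(0,1)`; from `(1,0)`: `(2,0)`; from `(0,1)`: `(2,1)`. -/
theorem E_le_of_normal (S : Seed p d) (N : Subgroup S.GL)
    (hN : ∀ g ∈ S.E, ∀ n ∈ N, g * n * g⁻¹ ∈ N)
    (h : S.el 0 1 (by decide) S.x ∈ N) : S.E ≤ N := by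
  have h02 : ∀ b ∈ S.X, S.el 0 2 (by decide) (S.x * b) ∈ N := by
    intro b hb
    have h2 := el_comm S (i := 0) (j := 2) (k := 1) (by decide) (by decide) (by decide) S.x b
    rw [← h2]
    have h3 := hN _ (b1c_mem S (i := 1) (j := 2) (by decide) hb) _ (N.inv_mem h)
    have e : S.el 0 1 (by decide) S.x * S.el 1 2 (by decide) b * (S.el 0 1 (by decide) S.x)⁻¹ * (S.el 1 2 (by decide) b)⁻¹ =
        S.el 0 1 (by decide) S.x * (S.el 1 2 (by decide) b * (S.el 0 1 (by decide) S.x)⁻¹ * (S.el 1 2 (by decide) b)⁻¹) := by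
      group
    rw [e]
    exact N.mul_mem h h3
  have hxl : ∀ b ∈ S.X, S.x * b ∈ S.X := fun b _ => S.right b S.x S.hx
  have hxr : ∀ a ∈ S.X, a * S.x ∈ S.X := fun a _ => S.left a S.x S.hx
  have f12 := b1c_left S N hN (i := 0) (j := 2) (k := 1) (by decide) (by decide) (by decide) h02
  have f02 := b1c_left S N hN (i := 1) (j := 2) (k := 0) (by decide) (by decide) (by decide) fun b hb => f12 _ (hxl b hb)
  have f10 := b1c_right S N hN (i := 1) (j := 2) (k := 0) (by decide) (by decide) (by decide) fun b hb => f12 _ (hxr b hb)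
  have f01 := b1c_right S N hN (i := 0) (j := 2) (k := 1) (by decide) (by decide) (by decide) fun b hb => f02 _ (hxr b hb)
  have f20 := b1c_left S N hN (i := 1) (j := 0) (k := 2) (by decide) (by decide) (by decide) fun b hb => f10 _ (hxl b hb)
  have f21 := b1c_left S N hN (i := 0) (j := 1) (k := 2) (by decide) (by decide) (by decide) fun b hb => f01 _ (hxl b hb)
  rw [Seed.E, Subgroup.closure_le]
  rintro g ⟨i, j, hij, a, ha, rfl⟩
  fin_cases i <;> fin_cases j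
  · exact absurd rfl hij
  · exact f01 a ha
  · exact f02 a ha
  · exact f10 a ha
  · exact absurd rfl hij
  · exact f12 a ha
  · exact f20 a ha
  · exact f21 a ha
  · exact absurd rfl hij

end Pool.Agent.H94S
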