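import Pool.Agent.Lib.H94S.B1

/-!
# H94S, B1d: entries
-/

set_option autoImplicit false
namespace Pool.Agent.H94S

variable {p d : ℕ}

/-- PROOF. `Units.ext_iff`, entry `(0,1)` of `1 + single 0 1 x` is `x ≠ 0`. -/
theorem el_ne_one (S : Seed p d) : S.el 0 1 (by decide) S.x ≠ 1 := by
  intro h
  have h1 := congrArg (fun g : S.GL => (g : Matrix (Fin 3) (Fin 3) S.R) 0 1) h
  simp only [Seed.el, Matrix.add_apply, Units.val_one, Matrix.single_apply_same] at h1
  rw [Matrix.one_apply_ne (by decide), zero_add] at h1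
  exact S.x0 h1

/-- PROOF. Closure induction with the statement for `g` and `g⁻¹`: `gh - 1 = (g - 1)(h - 1) + (g - 1) + (h - 1)`; generators:
`single i j a`, inverse `-single i j a`. -/
theorem E_entries (S : Seed p d) {g : S.GL} (hg : g ∈ S.E) (i j : Fin 3) :
    ((g : Matrix (Fin 3) (Fin 3) S.R) - 1) i j ∈ S.X := by
  have key : ∀ g ∈ S.E, ∀ i j, ((g : Matrix (Fin 3) (Fin 3) S.R) - 1) i j ∈ S.X ∧
      (((g⁻¹ : S.GL) : Matrix (Fin 3) (Fin 3) S.R) - 1) i j ∈ S.X := by
    have hmul : ∀ A B : Matrix (Fin 3) (Fin 3) S.R, (∀ i j, (A - 1) i j ∈ S.X) → (∀ i j, (B - 1) i j ∈ S.X) →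
        ∀ i j, (A * B - 1) i j ∈ S.X := by
      intro A B hA hB i j
      have e : A * B - 1 = (A - 1) * (B - 1) + (A - 1) + (B - 1) := by
        rw [sub_mul, mul_sub, mul_sub, mul_one, one_mul, one_mul]
        abel
      rw [e, Matrix.add_apply, Matrix.add_apply, Matrix.mul_apply]
      exact S.X.add_mem (S.X.add_mem (S.X.sum_mem fun k _ => S.left _ _ (hB k j)) (hA i j)) (hB i j)
    intro g hg
    induction hg using Subgroup.closure_induction with
    | mem g hg =>
      obtain ⟨i', j', h, a, ha, rfl⟩ := hg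
      intro i j
      have e1 : ((S.el i' j' h a : S.GL) : Matrix (Fin 3) (Fin 3) S.R) - 1 = Matrix.single i' j' a := by
        show 1 + Matrix.single i' j' a - 1 = _
        abel
      have e2 : (((S.el i' j' h a)⁻¹ : S.GL) : Matrix (Fin 3) (Fin 3) S.R) - 1 = -Matrix.single i' j' a := by
        show 1 - Matrix.single i' j' a - 1 = _
        abel
      rw [e1, e2, Matrix.neg_apply, Matrix.single_apply]
      split_ifs
      · exact ⟨ha, S.X.neg_mem ha⟩
      · exact ⟨S.X.zero_mem, by rw [neg_zero]; exact S.X.zero_mem⟩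
    | one =>
      intro i j
      rw [inv_one, Units.val_one, sub_self]
      exact ⟨S.X.zero_mem, S.X.zero_mem⟩
    | mul g h _ _ ihg ihh =>
      intro i j
      rw [mul_inv_rev, Units.val_mul, Units.val_mul]
      exact ⟨hmul _ _ (fun i j => (ihg i j).1) (fun i j => (ihh i j).1) i j,
        hmul _ _ (fun i j => (ihh i j).2) (fun i j => (ihg i j).2) i j⟩
    | inv g _ ih =>
      intro i j
      rw [inv_inv]
      exact ⟨(ih i j).2, (ih i j).1⟩
  exact (key g hg i j).1

end Pool.Agent.H94S
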