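import Mathlib

/-!
# H94S, B2a: products of matrices
-/

set_option autoImplicit false
namespace Pool.Agent.H94S

/-- A product of `N` matrices whose entries are among `t_i` has entries that are sums of `N`-fold products of the `t_i`.

PROOF. Induction on the list of matrices: for a list `L` of matrices over a ring such that every entry of every member is one of
the `t i` (`c : List (Matrix)` and for each the index function), every entry of the product is in
`AddSubgroup.closure {(l.map t).prod | l.length = L.length}` (for the empty list `1` and `0`). If all products of
length `N` vanish, the product of `N` matrices is `0`. -/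
theorem matrix_prod_eq_zero {R : Type} [Ring R] {d N : ℕ} (t : Fin d → R)
    (ht : ∀ l : List (Fin d), l.length = N → (l.map t).prod = 0)
    (L : List (Matrix (Fin 3) (Fin 3) R)) (hL : L.length = N)
    (h : ∀ m ∈ L, ∀ i j, ∃ s, m i j = t s) : L.prod = 0 := by
  have key : ∀ L : List (Matrix (Fin 3) (Fin 3) R), (∀ m ∈ L, ∀ i j, ∃ s, m i j = t s) →
      ∀ i j, L.prod i j ∈ AddSubgroup.closure {z | ∃ l : List (Fin d), l.length = L.length ∧ z = (l.map t).prod} := by
    intro L
    induction L with
    | nil =>
      intro _ i j
      rw [List.prod_nil, Matrix.one_apply]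
      split_ifs
      · exact AddSubgroup.subset_closure ⟨[], rfl, rfl⟩
      · exact AddSubgroup.zero_mem _
    | cons m L ih =>
      intro hm i j
      rw [List.prod_cons, Matrix.mul_apply]
      refine AddSubgroup.sum_mem _ fun k _ => ?_
      obtain ⟨s, hs⟩ := hm m List.mem_cons_self i k
      rw [hs]
      have h1 := ih (fun m' hm' => hm m' (List.mem_cons_of_mem _ hm')) k j
      generalize L.prod k j = z at h1
      induction h1 using AddSubgroup.closure_induction with
      | mem z hz =>
        obtain ⟨l, hl, rfl⟩ := hz
        refine AddSubgroup.subset_closure ⟨s :: l, ?_, ?_⟩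
        · rw [List.length_cons, List.length_cons, hl]
        · rw [List.map_cons, List.prod_cons]
      | zero =>
        rw [mul_zero]
        exact AddSubgroup.zero_mem _
      | add x y _ _ hx hy =>
        rw [mul_add]
        exact AddSubgroup.add_mem _ hx hy
      | neg x _ hx =>
        rw [mul_neg]
        exact AddSubgroup.neg_mem _ hx
  ext i j
  have h1 := key L h i j
  have h2 : AddSubgroup.closure {z | ∃ l : List (Fin d), l.length = L.length ∧ z = (l.map t).prod} ≤ ⊥ := by
    rw [AddSubgroup.closure_le]
    rintro z ⟨l, hl, rfl⟩
    exact ht l (hl.trans hL)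
  exact h2 h1

end Pool.Agent.H94S
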