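import Mathlib

/-!
# H94S, B2b: nilpotent rings are finite
-/

set_option autoImplicit false
namespace Pool.Agent.H94S

theorem b2b_finite {R : Type} [Ring R] {p : ℕ} [CharP R p] (hp : 0 < p) {P : Set R} (hP : P.Finite) :
    ((AddSubgroup.closure P : AddSubgroup R) : Set R).Finite := by
  induction P, hP using Set.Finite.induction_on with
  | empty => 
    rw [AddSubgroup.closure_empty]
    exact Set.finite_singleton 0
  | @insert a s _ _ ih =>
    rw [Set.insert_eq, AddSubgroup.closure_union]
    have h1 : ((AddSubgroup.closure {a} : AddSubgroup R) : Set R).Finite := by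
      apply (Set.finite_range (fun k : Fin p => (k : ℕ) • a)).subset
      intro x hx
      obtain ⟨k, rfl⟩ := AddSubgroup.mem_closure_singleton.1 hx
      have hp' : (0 : ℤ) < p := by exact_mod_cast hp
      have h2 : 0 ≤ k % p := Int.emod_nonneg _ hp'.ne'
      have h3 : k % p < p := Int.emod_lt_of_pos _ hp'
      refine ⟨⟨(k % p).toNat, by omega⟩, ?_⟩
      show (k % p).toNat • a = k • a
      rw [← natCast_zsmul, Int.toNat_of_nonneg h2]
      conv_rhs => rw [← Int.emod_add_mul_ediv k p, add_smul, mul_comm, mul_smul]
      have h4 : ((p : ℤ) • a) = 0 := by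
        rw [natCast_zsmul, nsmul_eq_mul, CharP.cast_eq_zero, zero_mul]
      rw [h4, smul_zero, add_zero]
    apply (Set.Finite.image2 (fun x y : R => x + y) h1 ih).subset
    intro x hx
    obtain ⟨y, hy, z, hz, rfl⟩ := AddSubgroup.mem_sup.1 hx
    exact ⟨y, hy, z, hz, rfl⟩

/-- A nilpotent ring generated by `d` elements of prime characteristic is finite.

PROOF. Let `P = {(l.map t).prod | 1 ≤ l.length, l.length ≤ N} ` (finite: lists of bounded length over `Fin d`) and
`Y = AddSubgroup.closure P`. `Y` is finite: it is the span over `ZMod p` of a finite set (`R` is a `ZMod p`-module,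
`ZMod.algebra R p`; or: every element is `∑_{z ∈ P} c_z • z` with `0 ≤ c_z < p`). Products: `P * P ⊆ P ∪ {0}`, as products of
length `≥ N` vanish (write the word as a product of a word of length `N` and a rest). -/
theorem exists_finite_ring {R : Type} [Ring R] {p d N : ℕ} [CharP R p] (hp : 0 < p) (t : Fin d → R)
    (ht : ∀ l : List (Fin d), l.length = N → (l.map t).prod = 0) :
    ∃ Y : AddSubgroup R, (Y : Set R).Finite ∧ (∀ i, t i ∈ Y) ∧ ∀ a ∈ Y, ∀ b ∈ Y, a * b ∈ Y := by
  let P : Set R := (fun l : List (Fin d) => (l.map t).prod) '' {l | 1 ≤ l.length ∧ l.length ≤ N + 1}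
  have hP : P.Finite := by
    apply Set.Finite.image
    apply (List.finite_length_le (Fin d) (N + 1)).subset
    intro l hl
    exact hl.2
  have hlong : ∀ l : List (Fin d), N ≤ l.length → (l.map t).prod = 0 := by
    intro l hl
    rw [← List.take_append_drop N l, List.map_append, List.prod_append, ht (l.take N) (by
      rw [List.length_take]; omega), zero_mul]
  refine ⟨AddSubgroup.closure P, b2b_finite hp hP, fun i => ?_, ?_⟩
  · apply AddSubgroup.subset_closure
    exact ⟨[i], ⟨by simp, by simp⟩, by simp⟩
  · intro a ha b hb
    induction ha using AddSubgroup.closure_induction with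
    | mem x hx =>
      induction hb using AddSubgroup.closure_induction with
      | mem y hy =>
        obtain ⟨l, hl, rfl⟩ := hx
        obtain ⟨l', hl', rfl⟩ := hy
        have h1 : (l.map t).prod * (l'.map t).prod = ((l ++ l').map t).prod := by
          rw [List.map_append, List.prod_append]
        show (l.map t).prod * (l'.map t).prod ∈ _
        rw [h1]
        rcases le_or_gt N (l ++ l').length with h2 | h2
        · rw [hlong _ h2]
          exact zero_mem _
        · apply AddSubgroup.subset_closure
          refine ⟨l ++ l', ⟨?_, by omega⟩, rfl⟩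
          rw [List.length_append]
          have := hl.1
          omega
      | zero => rw [mul_zero]; exact zero_mem _
      | add y z _ _ h1 h2 => rw [mul_add]; exact add_mem h1 h2
      | neg y _ h1 => rw [mul_neg]; exact neg_mem h1
    | zero => rw [zero_mul]; exact zero_mem _
    | add y z _ _ h1 h2 => rw [add_mul]; exact add_mem h1 h2
    | neg y _ h1 => rw [neg_mul]; exact neg_mem h1

end Pool.Agent.H94S
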