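import Pool.Agent.Lib.H94S.B1d
import Pool.Agent.Lib.H94S.B2a

/-!
# H94S, B2c: E is a p-group
-/

set_option autoImplicit false
namespace Pool.Agent.H94S

variable {p d : ℕ}

/-- PROOF. `m = g - 1` has its 9 entries in `X`; index them by `Fin 9 ≤ Fin d` (`d ≥ 9`; pad with `0`: a function
`t : Fin d → R` with `t (3 i + j) = m i j`, else `0`), `S.nil`, `matrix_prod_eq_zero` for `List.replicate N m`: `m ^ N = 0`,
so `m ^ (p ^ N) = 0` (`N ≤ p ^ N`, `Nat.lt_pow_self`), `g ^ (p ^ N) = (1 + m) ^ (p ^ N) = 1 + m ^ (p ^ N)`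
(`add_pow_char_pow_of_commute` or `Commute`; the matrix ring has characteristic `p`) `= 1`. -/
theorem E_pow (S : Seed p d) (hd : 9 ≤ d) (hp : p.Prime) {g : S.GL} (hg : g ∈ S.E) :
    ∃ N, g ^ p ^ N = 1 := by
  obtain ⟨m, hm⟩ : ∃ m : Matrix (Fin 3) (Fin 3) S.R, m = (g : Matrix (Fin 3) (Fin 3) S.R) - 1 := ⟨_, rfl⟩
  obtain ⟨t, ht⟩ : ∃ t : Fin d → S.R, t = fun s : Fin d => if h : (s : ℕ) < 9 then
    m ⟨(s : ℕ) / 3, by omega⟩ ⟨(s : ℕ) % 3, by omega⟩ else 0 := ⟨_, rfl⟩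
  have htX : ∀ s, t s ∈ S.X := by
    intro s
    rw [ht]
    dsimp only
    split_ifs with h
    · rw [hm]
      exact E_entries S hg _ _
    · exact S.X.zero_mem
  obtain ⟨N, hN⟩ := S.nil t htX
  have hm0 : m ^ N = 0 := by
    rw [← List.prod_replicate]
    refine matrix_prod_eq_zero t hN _ (by simp) ?_
    intro m' hm' i j
    rw [List.eq_of_mem_replicate hm']
    refine ⟨⟨3 * (i : ℕ) + j, by omega⟩, ?_⟩
    rw [ht]
    dsimp only
    rw [dif_pos (by omega)]
    congr 1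
    · ext
      simp only
      omega
    · ext
      simp only
      omega
  refine ⟨N, ?_⟩
  have hf : Fact p.Prime := ⟨hp⟩
  have hpN : N ≤ p ^ N := (Nat.lt_pow_self hp.one_lt).le
  have hm1 : m ^ (p ^ N) = 0 := by
    obtain ⟨c, hc⟩ := Nat.exists_eq_add_of_le hpN
    rw [hc, pow_add, hm0, zero_mul]
  apply Units.ext
  rw [Units.val_pow_eq_pow_val, Units.val_one]
  have e : (g : Matrix (Fin 3) (Fin 3) S.R) = 1 + m := by
    rw [hm]
    abel
  have hch : CharP (Matrix (Fin 3) (Fin 3) S.R) p := inferInstance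
  rw [e, add_pow_char_pow_of_commute p N (Commute.one_left m), hm1, one_pow, add_zero]

end Pool.Agent.H94S
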