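import Pool.Agent.Lib.H94S.B2c
import Pool.Agent.Lib.H94S.B2b

/-!
# H94S, B2d: generated subgroups are finite
-/

set_option autoImplicit false
namespace Pool.Agent.H94S

variable {p d : ℕ}

/-- PROOF. Let `m_a = g_a - 1`, `a < k`; index the `9 k ≤ d` entries by `Fin d` (`t (9 a + 3 i + j) = m_a i j`, else `0`), `S.nil`,
`exists_finite_ring`: `Y`. The set `Z = {g : GL | ∀ i j, (g - 1) i j ∈ Y}` is finite (`Units.ext`: `g ↦ (g - 1)` is injective
into the matrices with entries in the finite set `Y`, `Set.Finite.pi`), closed under products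
(`gh - 1 = (g-1)(h-1) + (g-1) + (h-1)`), contains `1` and all `g_a`. Every `g_a` has finite order (`E_pow`), so the subgroup
generated by the `g_a` is the submonoid generated by them (`Subgroup.closure_toSubmonoid_of_finite`, or directly:
`g_a⁻¹ = g_a ^ (p^N - 1) ∈ Z` and `Subgroup.closure_induction`: all products of the `g_a^{±1}` are in `Z`: prove
`∀ h ∈ closure, h ∈ Z ∧ h⁻¹ ∈ Z`). -/
theorem E_finite (S : Seed p d) {k : ℕ} (hd : 9 ≤ d) (hk : 9 * k ≤ d) (hp : p.Prime) (g : Fin k → S.GL)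
    (hg : ∀ a, g a ∈ S.E) : ((Subgroup.closure (Set.range g) : Subgroup S.GL) : Set S.GL).Finite := by
  obtain ⟨m, hm⟩ : ∃ m : Fin k → Matrix (Fin 3) (Fin 3) S.R,
    m = fun a => (g a : Matrix (Fin 3) (Fin 3) S.R) - 1 := ⟨_, rfl⟩
  obtain ⟨t, ht⟩ : ∃ t : Fin d → S.R, t = fun s : Fin d => if h : (s : ℕ) < 9 * k then
    m ⟨(s : ℕ) / 9, by omega⟩ ⟨(s : ℕ) % 9 / 3, by omega⟩ ⟨(s : ℕ) % 3, by omega⟩ else 0 := ⟨_, rfl⟩
  have htX : ∀ s, t s ∈ S.X := by
    intro s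
    rw [ht]
    dsimp only
    split_ifs with h
    · rw [hm]
      exact E_entries S (hg _) _ _
    · exact S.X.zero_mem
  obtain ⟨N, hN⟩ := S.nil t htX
  obtain ⟨Y, hYf, htY, hYm⟩ := exists_finite_ring hp.pos t hN
  have hmY : ∀ a i j, m a i j ∈ Y := by
    intro a i j
    have hlt : 9 * (a : ℕ) + (3 * (i : ℕ) + j) < 9 * k := by
      have h1 := a.2
      have h2 := i.2
      have h3 := j.2
      omega
    have e : m a i j = t ⟨9 * (a : ℕ) + (3 * (i : ℕ) + j), by omega⟩ := by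
      rw [ht]
      dsimp only
      rw [dif_pos hlt]
      have h2 := i.2
      have h3 := j.2
      have e1 : a = ⟨(9 * (a : ℕ) + (3 * (i : ℕ) + j)) / 9, by omega⟩ := Fin.ext (by simp only; omega)
      have e2 : i = ⟨(9 * (a : ℕ) + (3 * (i : ℕ) + j)) % 9 / 3, by omega⟩ := Fin.ext (by simp only; omega)
      have e3 : j = ⟨(9 * (a : ℕ) + (3 * (i : ℕ) + j)) % 3, by omega⟩ := Fin.ext (by simp only; omega)
      rw [← e1, ← e2, ← e3]
    rw [e]
    exact htY _
  obtain ⟨Z, hZ⟩ : ∃ Z : Set S.GL, Z = {h : S.GL | ∀ i j, ((h : Matrix (Fin 3) (Fin 3) S.R) - 1) i j ∈ Y} := ⟨_, rfl⟩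
  have hZf : Z.Finite := by
    have h1 : (Set.pi Set.univ fun _ : Fin 3 => Set.pi Set.univ fun _ : Fin 3 => (Y : Set S.R)).Finite :=
      Set.Finite.pi fun _ => Set.Finite.pi fun _ => hYf
    refine Set.Finite.of_finite_image (f := fun h : S.GL => (((h : Matrix (Fin 3) (Fin 3) S.R) - 1 : Matrix (Fin 3) (Fin 3) S.R) : Fin 3 → Fin 3 → S.R)) (h1.subset ?_) ?_
    · rintro _ ⟨h, hh, rfl⟩ i _ j _
      rw [hZ] at hh
      exact hh i j
    · intro a _ b _ hab
      apply Units.ext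
      have h2 : (a : Matrix (Fin 3) (Fin 3) S.R) - 1 = (b : Matrix (Fin 3) (Fin 3) S.R) - 1 := hab
      exact sub_left_injective h2
  have hZm : ∀ a ∈ Z, ∀ b ∈ Z, a * b ∈ Z := by
    intro a ha b hb
    rw [hZ] at ha hb ⊢
    intro i j
    have e : ((a * b : S.GL) : Matrix (Fin 3) (Fin 3) S.R) - 1 =
        ((a : Matrix (Fin 3) (Fin 3) S.R) - 1) * ((b : Matrix (Fin 3) (Fin 3) S.R) - 1) +
        ((a : Matrix (Fin 3) (Fin 3) S.R) - 1) + ((b : Matrix (Fin 3) (Fin 3) S.R) - 1) := by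
      rw [Units.val_mul]
      noncomm_ring
    rw [e, Matrix.add_apply, Matrix.add_apply, Matrix.mul_apply]
    exact Y.add_mem (Y.add_mem (Y.sum_mem fun l _ => hYm _ (ha i l) _ (hb l j)) (ha i j)) (hb i j)
  have hZ1 : (1 : S.GL) ∈ Z := by
    rw [hZ]
    intro i j
    rw [Units.val_one, sub_self]
    exact Y.zero_mem
  have hZg : ∀ a, g a ∈ Z := by
    intro a
    rw [hZ]
    intro i j
    have := hmY a i j
    rwa [hm] at this
  have hZp : ∀ h ∈ Z, ∀ n : ℕ, h ^ n ∈ Z := by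
    intro h hh n
    induction n with
    | zero => rw [pow_zero]; exact hZ1
    | succ n ih => rw [pow_succ]; exact hZm _ ih _ hh
  have hZi : ∀ a, (g a)⁻¹ ∈ Z := by
    intro a
    obtain ⟨M, hM⟩ := E_pow S hd hp (hg a)
    have e : (g a)⁻¹ = (g a) ^ (p ^ M - 1) := by
      rw [inv_eq_iff_mul_eq_one, ← pow_succ', Nat.sub_add_cancel (Nat.one_le_pow _ _ hp.pos), hM]
    rw [e]
    exact hZp _ (hZg a) _
  refine hZf.subset fun h hh => ?_
  have key : ∀ h ∈ Subgroup.closure (Set.range g), h ∈ Z ∧ h⁻¹ ∈ Z := by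
    intro h hh
    induction hh using Subgroup.closure_induction with
    | mem x hx =>
      obtain ⟨a, rfl⟩ := hx
      exact ⟨hZg a, hZi a⟩
    | one => exact ⟨hZ1, by rw [inv_one]; exact hZ1⟩
    | mul x y _ _ hx hy => exact ⟨hZm _ hx.1 _ hy.1, by rw [mul_inv_rev]; exact hZm _ hy.2 _ hx.2⟩
    | inv x _ hx => exact ⟨hx.2, by rw [inv_inv]; exact hx.1⟩
  exact (key h hh).1

end Pool.Agent.H94S
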