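import Mathlib

/-!
# H94S, B3a: a simple quotient
-/

set_option autoImplicit false
namespace Pool.Agent.H94S

/-- PROOF. Zorn (`zorn_le_nonempty₀` or `zorn_le₀`) on `{K : Subgroup E | K.Normal ∧ e ∉ K}`, which contains `⊥` (`e ≠ 1`): the
union of a nonempty chain (`sSup`, `Subgroup.mem_sSup_of_directedOn`) is normal and does not contain `e`. Let `K` be
maximal. `E ⧸ K` is nontrivial (`e ∉ K`). If `M` is a normal subgroup of `E ⧸ K`, `M' = M.comap (mk' K)` is normal and contains `K`;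
if `e ∉ M'` then `M' = K` by maximality and `M = ⊥`; if `e ∈ M'` then `M' = ⊤` by `h` and `M = ⊤`. -/
theorem exists_simple_quotient {E : Type} [Group E] (e : E) (he : e ≠ 1)
    (h : ∀ N : Subgroup E, N.Normal → e ∈ N → N = ⊤) :
    ∃ (K : Subgroup E) (_ : K.Normal), IsSimpleGroup (E ⧸ K) := by
  obtain ⟨K, hK⟩ : ∃ K : Subgroup E, Maximal (fun K => K ∈ {K : Subgroup E | K.Normal ∧ e ∉ K}) K := by
    refine zorn_le₀ _ fun c hc hch => ?_
    rcases c.eq_empty_or_nonempty with rfl | hne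
    · exact ⟨⊥, ⟨inferInstance, by simpa using he⟩, by simp⟩
    · refine ⟨sSup c, ⟨⟨?_⟩, ?_⟩, fun z hz => le_sSup hz⟩
      · intro n hn g
        rw [Subgroup.mem_sSup_of_directedOn hne hch.directedOn] at hn ⊢
        obtain ⟨s, hs, hns⟩ := hn
        exact ⟨s, hs, (hc hs).1.conj_mem n hns g⟩
      · intro hmem
        rw [Subgroup.mem_sSup_of_directedOn hne hch.directedOn] at hmem
        obtain ⟨s, hs, hes⟩ := hmem
        exact (hc hs).2 hes
  obtain ⟨⟨hKn, hKe⟩, hmax⟩ := hK
  refine ⟨K, hKn, ?_⟩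
  have hnt : Nontrivial (E ⧸ K) := by
    refine ⟨⟨QuotientGroup.mk' K e, 1, ?_⟩⟩
    intro h1
    exact hKe ((QuotientGroup.eq_one_iff e).1 h1)
  refine { exists_pair_ne := hnt.exists_pair_ne, eq_bot_or_eq_top_of_normal := ?_ }
  intro M hM
  have hle : K ≤ M.comap (QuotientGroup.mk' K) := by
    intro k hk
    rw [Subgroup.mem_comap]
    have h1 : QuotientGroup.mk' K k = 1 := (QuotientGroup.eq_one_iff k).2 hk
    rw [h1]
    exact M.one_mem
  have hMn : (M.comap (QuotientGroup.mk' K)).Normal := hM.comap _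
  by_cases heM : e ∈ M.comap (QuotientGroup.mk' K)
  · right
    have h1 := h _ hMn heM
    rw [eq_top_iff]
    intro x _
    obtain ⟨y, rfl⟩ := QuotientGroup.mk'_surjective K x
    have h2 : y ∈ M.comap (QuotientGroup.mk' K) := by
      rw [h1]
      exact Subgroup.mem_top y
    exact h2
  · left
    have h1 := hmax ⟨hMn, heM⟩ hle
    rw [eq_bot_iff]
    intro x hx
    obtain ⟨y, rfl⟩ := QuotientGroup.mk'_surjective K x
    have h2 : y ∈ K := h1 hx
    exact (QuotientGroup.eq_one_iff y).2 h2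

end Pool.Agent.H94S
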