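import Mathlib

/-!
# H94S, B3b: a perfect simple p-group is infinite
-/

set_option autoImplicit false
namespace Pool.Agent.H94S

/-- PROOF. If `G` is finite, `IsPGroup.center_nontrivial` and simplicity give `center G = ⊤`, so `G` is commutative, all
commutators are `1`, so by `hperf` with `N = ⊥`: `⊥ = ⊤`, contradiction with nontriviality. -/
theorem infinite_of_perfect {p : ℕ} [Fact p.Prime] {G : Type} [Group G] [IsSimpleGroup G]
    (hp : IsPGroup p G) (hperf : ∀ N : Subgroup G, (∀ g h : G, g * h * g⁻¹ * h⁻¹ ∈ N) → N = ⊤) : Infinite G := by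
  by_contra hinf
  rw [not_infinite_iff_finite] at hinf
  have h1 : Nontrivial (Subgroup.center G) := hp.center_nontrivial
  have h2 : Subgroup.center G = ⊤ := by
    rcases (inferInstance : (Subgroup.center G).Normal).eq_bot_or_eq_top with h | h
    · rw [h] at h1
      exact absurd h1 (not_nontrivial _)
    · exact h
  have h3 := hperf ⊥ (by
    intro g h
    have hg : g ∈ Subgroup.center G := by
      rw [h2]
      exact Subgroup.mem_top g
    rw [Subgroup.mem_bot, ← Subgroup.mem_center_iff.1 hg h, mul_assoc, mul_assoc, mul_inv_cancel_left, mul_inv_cancel])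
  exact bot_ne_top h3

end Pool.Agent.H94S
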