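import Mathlib

/-!
# H94S, D0: generators, free algebra, stages (definitions)
-/

set_option autoImplicit false
namespace Pool.Agent.H94S

/-- The generators `p_j, q, w_j, x`. -/
inductive Gen (r : ℕ) : Type
  | p (j : Fin r) : Gen r
  | q : Gen r
  | w (j : Fin r) : Gen r
  | x : Gen r
  deriving DecidableEq, Fintype

/-- The free unital algebra on the generators. -/
abbrev T (F : Type) [Field F] (r : ℕ) : Type := FreeAlgebra F (Gen r)

/-- The generator as an element of the free algebra. -/
abbrev gen (F : Type) [Field F] {r : ℕ} (g : Gen r) : T F r := FreeAlgebra.ι F g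

/-- The augmentation. -/
noncomputable def aug (F : Type) [Field F] (r : ℕ) : T F r →ₐ[F] F := FreeAlgebra.lift F (fun _ => 0)

/-- The relator `x - ∑ p_j x q x w_j`. -/
noncomputable def rho (F : Type) [Field F] (r : ℕ) : T F r :=
  gen F Gen.x - ∑ j : Fin r, gen F (Gen.p j) * gen F Gen.x * gen F Gen.q * gen F Gen.x *
    gen F (Gen.w j)

/-- A stage of width `n` and height `k`. -/
structure Stage (F : Type) [Field F] (r n k : ℕ) where
  /-- the space -/
  V : Type
  [iA : AddCommGroup V]
  [iM : Module F V]
  [iF : Module.Finite F V]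
  /-- the generators -/
  act : Gen r → Module.End F V
  /-- the maps -/
  ι : (Fin n → F) →ₗ[F] V
  κ : (Fin n → F) →ₗ[F] V
  π : V →ₗ[F] (Fin n → F)
  /-- the projections onto relative depth less than `i` -/
  e : ℕ → Module.End F V
  ee : ∀ i j, e i * e j = e (min i j)
  e0 : e 0 = 0
  e1 : e (k + 1) = 1
  s1 : ∀ y, π (κ y) = y
  s2 : ∀ g y, act g (κ y) = 0
  s3 : ∀ y, act Gen.x (ι y) = κ y
  s4 : ∀ g v, π (act Gen.x (act g v)) = 0
  s5 : ∀ v, FreeAlgebra.lift F act (rho F r) (e k v) = 0
  s6 : ∀ g a v, 1 ≤ a → e (a + 1) (act g (e a v)) = act g (e a v)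
  s7 : ∀ y, e 1 (ι y) = ι y
  s8 : ∀ y, e 1 (κ y) = κ y

attribute [instance] Stage.iA Stage.iM Stage.iF

variable {F : Type} [Field F] {r n k : ℕ}

/-- The action of the free algebra on a stage. -/
noncomputable def Stage.rep (St : Stage F r n k) : T F r →ₐ[F] Module.End F St.V :=
  FreeAlgebra.lift F St.act

theorem Stage.rep_gen (St : Stage F r n k) (g : Gen r) : St.rep (gen F g) = St.act g := by
  simp [Stage.rep, gen]

/-- `dim (1 - e_i) V`. -/
noncomputable def Stage.b (St : Stage F r n k) (i : ℕ) : ℕ :=
  Module.finrank F (LinearMap.range (1 - St.e i))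

/-- The space of the next stage. -/
abbrev Nx (F : Type) (n' : ℕ) (V : Type) : Type := (Fin n' → F) × (Fin n' → F) × V × V

/-- The action of the generators on the next stage. -/
def nextAct (St : Stage F r n k) (n' : ℕ) (Q : (Fin n → F) →ₗ[F] (Fin n → F))
    (P : (Fin r → Fin n → F) →ₗ[F] (Fin n' → F)) (W : (Fin n' → F) →ₗ[F] (Fin r → Fin n → F)) :
    Gen r → Module.End F (Nx F n' St.V)
  | Gen.p j =>
    { toFun := fun v => (P (Pi.single j (St.π v.2.2.1)), 0, St.act (Gen.p j) v.2.2.1,
        St.act (Gen.p j) v.2.2.2)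
      map_add' := by
        intro u v
        simp [Pi.single_add]
      map_smul' := by
        intro c v
        simp [Pi.single_smul] }
  | Gen.q =>
    { toFun := fun v => (0, 0, St.act Gen.q v.2.2.1 + St.ι (Q (St.π v.2.2.2)),
        St.act Gen.q v.2.2.2)
      map_add' := by
        intro u v
        simp only [Prod.fst_add, Prod.snd_add, map_add, Prod.mk_add_mk, add_zero, Prod.mk.injEq,
          true_and, and_true]
        abel
      map_smul' := by
        intro c v
        simp }
  | Gen.w j =>
    { toFun := fun v => (0, 0, St.act (Gen.w j) v.2.2.1,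
        St.act (Gen.w j) v.2.2.2 + St.ι (W v.2.1 j))
      map_add' := by
        intro u v
        simp only [Prod.fst_add, Prod.snd_add, map_add, Prod.mk_add_mk, add_zero, Prod.mk.injEq,
          true_and, Pi.add_apply]
        abel
      map_smul' := by
        intro c v
        simp }
  | Gen.x =>
    { toFun := fun v => (v.2.1, 0, St.act Gen.x v.2.2.1, St.act Gen.x v.2.2.2)
      map_add' := by
        intro u v
        simp
      map_smul' := by
        intro c v
        simp }

/-- The action of the free algebra on the next stage. -/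
noncomputable def nextRep (St : Stage F r n k) (n' : ℕ) (Q : (Fin n → F) →ₗ[F] (Fin n → F))
    (P : (Fin r → Fin n → F) →ₗ[F] (Fin n' → F)) (W : (Fin n' → F) →ₗ[F] (Fin r → Fin n → F)) :
    T F r →ₐ[F] Module.End F (Nx F n' St.V) := FreeAlgebra.lift F (nextAct St n' Q P W)

/-- The projections of the next stage. -/
def nextE (St : Stage F r n k) (n' : ℕ) : ℕ → Module.End F (Nx F n' St.V)
  | 0 => 0
  | i + 1 => LinearMap.prodMap 1 (LinearMap.prodMap 1 (LinearMap.prodMap (St.e i) (St.e i)))

end Pool.Agent.H94S
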