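import Pool.Agent.Lib.H94S.Main

/-!
# H94S: binary finite simple p-groups, the form used by the frozen statements
-/

set_option autoImplicit false
namespace Pool.Agent.H94S

/-- An infinite simple `p`-group in which any two elements generate a finite subgroup.

PROOF. `main p hp 2`, `Set.range ![a, b] = {a, b}` (`Matrix.range_cons`, or `Set.ext` with `Fin.exists_fin_two`). -/
theorem binary (p : ℕ) (hp : p.Prime) :
    ∃ (G : Type) (_ : Group G), IsSimpleGroup G ∧ Infinite G ∧ IsPGroup p G ∧
      ∀ a b : G, ((Subgroup.closure ({a, b} : Set G) : Subgroup G) : Set G).Finite := by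
  obtain ⟨G, iG, h1, h2, h3, h4⟩ := main p hp 2
  refine ⟨G, iG, h1, h2, h3, fun a b => ?_⟩
  have := h4 ![a, b]
  have hr : Set.range ![a, b] = {a, b} := by
    ext z
    simp only [Set.mem_range, Fin.exists_fin_two, Matrix.cons_val_zero, Matrix.cons_val_one,
      Set.mem_insert_iff, Set.mem_singleton_iff]
    exact ⟨fun h => h.imp Eq.symm Eq.symm, fun h => h.imp Eq.symm Eq.symm⟩
  rwa [hr] at this

end Pool.Agent.H94S
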