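import Pool.Agent.Lib.H94S.A
import Pool.Agent.Lib.H63L.FN

/-!
# H94S, file GV: the good vertex of an S-ordered table

`(S)`: two separated edges `ab`, `cd` (`a < b < c < d`) do not cross. If `F` is a plane set of edges `kl` with `k < a`
and `l` in `U`, all elements of `U` are larger than `a` and `U` is not empty, then some edge `az`, `z` in `U`, crosses no
edge of `F`.
-/

set_option autoImplicit false

namespace H94S

open H53P H63L

variable {V : Type} [LinearOrder V]

/-- An edge inside `{≤ m}` and an edge inside `{≥ m}` do not cross. -/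
theorem sep_false (T : Table V) (hS : ∀ a b c d : V, a < b → b < c → c < d → T.X a b c d = false)
    {m x y z w : V} (hx : x ≤ m) (hy : y ≤ m) (hz : m ≤ z) (hw : m ≤ w) : T.X x y z w = false := by
  cases h : T.X x y z w with
  | false => rfl
  | true =>
    exfalso
    obtain ⟨h1, h2, h3, h4, h5, h6⟩ := T.ne _ _ _ _ h
    have xz : x < z := lt_of_le_of_ne (hx.trans hz) h3
    have xw : x < w := lt_of_le_of_ne (hx.trans hw) h4
    have yz : y < z := lt_of_le_of_ne (hy.trans hz) h5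
    have yw : y < w := lt_of_le_of_ne (hy.trans hw) h6
    rcases lt_or_gt_of_ne h1 with h7 | h7 <;> rcases lt_or_gt_of_ne h2 with h8 | h8
    · have h9 := hS x y z w h7 yz h8
      rw [h] at h9
      cases h9
    · have h9 := hS x y w z h7 yw h8
      rw [T.symm2, T.symm1, T.symm2] at h9
      rw [h] at h9
      cases h9
    · have h9 := hS y x z w h7 xz h8
      rw [T.symm1] at h9
      rw [h] at h9
      cases h9
    · have h9 := hS y x w z h7 xw h8
      rw [T.symm1, T.symm2, T.symm1, T.symm2] at h9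
      rw [h] at h9
      cases h9

theorem sep_false' (T : Table V) (hS : ∀ a b c d : V, a < b → b < c → c < d → T.X a b c d = false)
    {m x y z w : V} (hx : x ≤ m) (hy : y ≤ m) (hz : m ≤ z) (hw : m ≤ w) : T.X z w x y = false := by
  rw [T.symm2]
  exact sep_false T hS hx hy hz hw

/-- Rays to larger points do not separate smaller points. -/
theorem alt_false (T : Table V) (hS : ∀ a b c d : V, a < b → b < c → c < d → T.X a b c d = false)
    {p r s k k' : V} (hr : p < r) (hs : p < s) (hk : k < p) (hk' : k' < p) :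
    T.alt p r s k k' = false := by
  unfold Table.alt altX
  rw [sep_false' T hS hk.le hk'.le le_rfl hr.le, sep_false' T hS hk.le hk'.le le_rfl hs.le,
    sep_false' T hS le_rfl hk.le hr.le hs.le, sep_false' T hS le_rfl hk'.le hr.le hs.le,
    sep_false' T hS hk.le hk'.le hr.le hs.le]
  rfl

theorem alt_false' (T : Table V) (hS : ∀ a b c d : V, a < b → b < c → c < d → T.X a b c d = false)
    {p r s k k' : V} (hr : p < r) (hs : p < s) (hk : k < p) (hk' : k' < p) :
    T.alt p k k' r s = false := by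
  unfold Table.alt altX
  rw [sep_false T hS le_rfl hk.le hr.le hs.le, sep_false T hS le_rfl hk'.le hr.le hs.le,
    sep_false T hS hk.le hk'.le le_rfl hr.le, sep_false T hS hk.le hk'.le le_rfl hs.le,
    sep_false T hS hk.le hk'.le hr.le hs.le]
  rfl

/-- THE GOOD VERTEX. -/
theorem good_vertex (T : Table V) (hS : ∀ a b c d : V, a < b → b < c → c < d → T.X a b c d = false)
    {a : V} {U : Finset V} (hU : U.Nonempty) (hUa : ∀ u ∈ U, a < u) {F : Finset (V × V)}
    (hF : ∀ e ∈ F, e.1 < a ∧ e.2 ∈ U) (hpl : ∀ e ∈ F, ∀ f ∈ F, T.X e.1 e.2 f.1 f.2 = false) :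
    ∃ z ∈ U, ∀ e ∈ F, T.X a z e.1 e.2 = false := by
  classical
  obtain ⟨q, hq⟩ := hU
  obtain ⟨ρ, hρ, -⟩ := T.ord_exists (hUa q hq).ne
  letI := alOrd hρ
  obtain ⟨U', hU'e⟩ : ∃ U' : Finset (Al a), U' = U.subtype (fun x => x ≠ a) := ⟨_, rfl⟩
  have mU : ∀ x : Al a, x ∈ U' ↔ x.1 ∈ U := by
    intro x
    rw [hU'e, Finset.mem_subtype]
  have hU' : U'.Nonempty := ⟨⟨q, (hUa q hq).ne'⟩, (mU _).2 hq⟩
  obtain ⟨A, hAe⟩ : ∃ A : Finset (Al a), A = (F.image Prod.fst).subtype (fun x => x ≠ a) := ⟨_, rfl⟩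
  obtain ⟨F', hF'e⟩ : ∃ F' : Finset (Al a × Al a), F' = ((A ∪ U') ×ˢ (A ∪ U')).filter
      (fun e => (e.1.1, e.2.1) ∈ F ∨ (e.2.1, e.1.1) ∈ F) := ⟨_, rfl⟩
  have mF : ∀ x y : Al a, (x, y) ∈ F' ↔ ((x.1, y.1) ∈ F ∨ (y.1, x.1) ∈ F) := by
    intro x y
    rw [hF'e, Finset.mem_filter, Finset.mem_product]
    constructor
    · exact fun h => h.2
    · intro h
      have key : ∀ x y : Al a, (x.1, y.1) ∈ F → x ∈ A ∧ y ∈ U' := by
        intro x y h
        refine ⟨?_, (mU y).2 (hF _ h).2⟩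
        rw [hAe, Finset.mem_subtype]
        exact Finset.mem_image_of_mem Prod.fst h
      refine ⟨?_, h⟩
      rcases h with h | h
      · exact ⟨Finset.mem_union_left _ (key x y h).1, Finset.mem_union_right _ (key x y h).2⟩
      · exact ⟨Finset.mem_union_right _ (key y x h).2, Finset.mem_union_left _ (key y x h).1⟩
  have g1 : ∀ x y, (x, y) ∈ F' → (y, x) ∈ F' := by
    intro x y h
    rw [mF] at h ⊢
    exact h.symm
  have g2 : ∀ x y, (x, y) ∈ F' → x ≠ y ∧ ((x.1 < a ∧ y ∈ U') ∨ (x ∈ U' ∧ y.1 < a)) := by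
    intro x y h
    rw [mF] at h
    rcases h with h | h
    · have h1 := hF _ h
      have h2 : x.1 < y.1 := h1.1.trans (hUa _ h1.2)
      exact ⟨fun e => h2.ne (congrArg Subtype.val e), Or.inl ⟨h1.1, (mU y).2 h1.2⟩⟩
    · have h1 := hF _ h
      have h2 : y.1 < x.1 := h1.1.trans (hUa _ h1.2)
      exact ⟨fun e => h2.ne' (congrArg Subtype.val e), Or.inr ⟨(mU x).2 h1.2, h1.1⟩⟩
  have g3 : ∀ x y z w, (x, y) ∈ F' → (z, w) ∈ F' → ¬ SameE x y z w → fnx T a x y z w := by
    intro x y z w h1 h2 _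
    rw [mF] at h1 h2
    unfold fnx
    rcases h1 with h1 | h1 <;> rcases h2 with h2 | h2
    · exact hpl _ h1 _ h2
    · rw [T.symm2, T.symm1, T.symm2]
      exact hpl _ h1 _ h2
    · rw [T.symm1]
      exact hpl _ h1 _ h2
    · rw [T.symm1, T.symm2, T.symm1, T.symm2]
      exact hpl _ h1 _ h2
  have hbig : ∀ x : Al a, x ∈ U' → a < x.1 := fun x hx => hUa _ ((mU x).1 hx)
  obtain ⟨z, hz, hfree⟩ := free_ray_heads (al_fan hρ) hU' (fun x => x.1 < a) g1 g2
    (fun x hx hx' => lt_asymm hx (hbig x hx')) g3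
    (by
      intro k k' r s hk hk' hr hs hrs hin
      have hk1 : k.1 < a := hk
      have hk2 : k'.1 < a := hk'
      have kr : k ≠ r := fun e => lt_asymm hk1 (e ▸ hbig r hr)
      have ks : k ≠ s := fun e => lt_asymm hk1 (e ▸ hbig s hs)
      rw [in_fin hρ hrs kr ks] at hin
      have h1 := hin.2.2.2
      rw [alt_false T hS (hbig r hr) (hbig s hs) hk2 hk1] at h1
      cases h1)
    (by
      intro k k' l r hk hk' hl hr _ _ h3
      have hk1 : k.1 < a := hk
      have hk2 : k'.1 < a := hk'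
      unfold fbe Table.bfo at h3
      rw [alt_false' T hS (hbig r hr) (hbig l hl) hk1 hk2,
        sep_false' T hS hk1.le hk2.le le_rfl (hbig r hr).le] at h3
      simp at h3)
  refine ⟨z.1, (mU z).1 hz, ?_⟩
  intro e he
  have h1 := hF e he
  have h2 := hfree ⟨e.1, h1.1.ne⟩ ⟨e.2, (hUa _ h1.2).ne'⟩ ((mF _ _).2 (Or.inl he))
  exact ncr h2

end H94S
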