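import Mathlib

/-!
# H94S, L1a: a large space of matrices contains a matrix of large rank
-/

set_option autoImplicit false
namespace Pool.Agent.H94S

/-- A linear map of rank at most `m` factors through `F ^ m`.

PROOF. `V = range Q` has `finrank ≤ m`, so there is an injective linear map `j : range Q → (Fin m → F)`
(`LinearMap.exists_injective...`/ `Module.finrank` comparison, e.g. `Submodule.inclusion` of a
basis; or `(LinearMap.exists_leftInverse_of_injective)`), and a left inverse `j'`. Take `A = j ∘ Q.rangeRestrict`,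
`B = (range Q).subtype ∘ j'`. -/
theorem factor_of_rank_le {F : Type} [Field F] {n m : ℕ} (Q : (Fin n → F) →ₗ[F] (Fin n → F))
    (h : Module.finrank F (LinearMap.range Q) ≤ m) :
    ∃ (A : (Fin n → F) →ₗ[F] (Fin m → F)) (B : (Fin m → F) →ₗ[F] (Fin n → F)), B ∘ₗ A = Q := by
  classical
  let b := Module.finBasis F (LinearMap.range Q)
  have hs : Function.Surjective (LinearMap.funLeft F F (Fin.castLE h)) :=
    LinearMap.funLeft_surjective_of_injective F F _ (Fin.castLE_injective h)
  obtain ⟨g, hg⟩ := (LinearMap.funLeft F F (Fin.castLE h)).exists_rightInverse_of_surjective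
    (LinearMap.range_eq_top.2 hs)
  refine ⟨g ∘ₗ b.equivFun.toLinearMap ∘ₗ Q.rangeRestrict,
    (LinearMap.range Q).subtype ∘ₗ b.equivFun.symm.toLinearMap ∘ₗ LinearMap.funLeft F F (Fin.castLE h), ?_⟩
  refine LinearMap.ext fun x => ?_
  have h1 : LinearMap.funLeft F F (Fin.castLE h) (g (b.equivFun (Q.rangeRestrict x))) =
      b.equivFun (Q.rangeRestrict x) := LinearMap.congr_fun hg _
  show ((b.equivFun.symm (LinearMap.funLeft F F (Fin.castLE h)
    (g (b.equivFun (Q.rangeRestrict x)))) : LinearMap.range Q) : Fin n → F) = Q x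
  rw [h1, LinearEquiv.symm_apply_apply]
  rfl

/-- PROOF. Suppose every `Q ∈ S` has `4 * rank Q ≤ n`. Let `m = n / 4`; every `Q ∈ S` is `B ∘ A` with
`A : F^n → F^m`, `B : F^m → F^n` (`factor_of_rank_le`), so `Nat.card S ≤ Nat.card (F^n → F^m) * Nat.card (F^m → F^n)`,
that is `q ^ finrank S ≤ q ^ (n * m) * q ^ (m * n)` with `q = Nat.card F ≥ 2` (`Module.natCard_eq_pow_finrank`,
`Module.finrank_linearMap`), so `finrank S ≤ 2 * n * m`, `2 * finrank S ≤ n * (4 * m) ≤ n * n`: contradiction. -/
theorem exists_rank {F : Type} [Field F] [Finite F] {n : ℕ}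
    (S : Submodule F ((Fin n → F) →ₗ[F] (Fin n → F)))
    (h : n * n < 2 * Module.finrank F S) :
    ∃ Q ∈ S, n < 4 * Module.finrank F (LinearMap.range Q) := by
  classical
  by_contra hcon
  push_neg at hcon
  have hr : ∀ Q : S, Module.finrank F (LinearMap.range (Q : (Fin n → F) →ₗ[F] (Fin n → F))) ≤ n / 4 := by
    intro Q
    have := hcon Q Q.2
    omega
  choose A B hAB using fun Q : S => factor_of_rank_le (Q : (Fin n → F) →ₗ[F] (Fin n → F)) (hr Q)
  have : Finite ((Fin n → F) →ₗ[F] (Fin (n / 4) → F)) := Module.finite_of_finite F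
  have : Finite ((Fin (n / 4) → F) →ₗ[F] (Fin n → F)) := Module.finite_of_finite F
  have hinj : Function.Injective (fun Q : S => (A Q, B Q)) := by
    intro Q Q' h1
    have hA : A Q = A Q' := congrArg Prod.fst h1
    have hB : B Q = B Q' := congrArg Prod.snd h1
    apply Subtype.ext
    rw [← hAB Q, ← hAB Q', hA, hB]
  have h1 := Nat.card_le_card_of_injective _ hinj
  rw [Nat.card_prod, Module.natCard_eq_pow_finrank (K := F) (V := S),
    Module.natCard_eq_pow_finrank (K := F) (V := (Fin n → F) →ₗ[F] (Fin (n / 4) → F)),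
    Module.natCard_eq_pow_finrank (K := F) (V := (Fin (n / 4) → F) →ₗ[F] (Fin n → F)),
    Module.finrank_linearMap, Module.finrank_linearMap, Module.finrank_fin_fun,
    Module.finrank_fin_fun, ← pow_add] at h1
  have hq : 1 < Nat.card F := Finite.one_lt_card
  have h2 := (Nat.pow_le_pow_iff_right hq).1 h1
  have h3 : 4 * (n / 4) ≤ n := Nat.mul_div_le n 4
  have h4 : n * (4 * (n / 4)) ≤ n * n := Nat.mul_le_mul_left n h3
  have h5 : n * (n / 4) + n / 4 * n = 2 * (n * (n / 4)) := by ring
  have h6 : n * (4 * (n / 4)) = 4 * (n * (n / 4)) := by ring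
  omega

end Pool.Agent.H94S
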