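import Pool.Agent.Lib.H94S.L1a

/-!
# H94S, L1b: choice of Q, abstract form
-/

set_option autoImplicit false
namespace Pool.Agent.H94S

/-- PROOF. `S = ker (LinearMap.pi f)`; rank-nullity: `finrank S = n * n - finrank (range (pi f))` and
`finrank (range (pi f)) ≤ finrank (∀ j, Y j) = ∑ finrank (Y j)` (`Module.finrank_pi_fintype`). `exists_rank`. -/
theorem exists_Q {F : Type} [Field F] [Finite F] {n : ℕ} {J : Type} [Fintype J] (Y : J → Type)
    [∀ j, AddCommGroup (Y j)] [∀ j, Module F (Y j)] [∀ j, Module.Finite F (Y j)]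
    (f : ∀ j, ((Fin n → F) →ₗ[F] (Fin n → F)) →ₗ[F] Y j)
    (h : 2 * ∑ j, Module.finrank F (Y j) < n * n) :
    ∃ Q : (Fin n → F) →ₗ[F] (Fin n → F), (∀ j, f j Q = 0) ∧
      n < 4 * Module.finrank F (LinearMap.range Q) := by
  classical
  let g : ((Fin n → F) →ₗ[F] (Fin n → F)) →ₗ[F] (∀ j, Y j) := LinearMap.pi f
  have h1 := LinearMap.finrank_range_add_finrank_ker g
  have h2 : Module.finrank F (LinearMap.range g) ≤ ∑ j, Module.finrank F (Y j) := by
    rw [← Module.finrank_pi_fintype]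
    exact Submodule.finrank_le _
  have h3 : Module.finrank F ((Fin n → F) →ₗ[F] (Fin n → F)) = n * n := by
    rw [Module.finrank_linearMap, Module.finrank_fin_fun]
  obtain ⟨Q, hQ, hr⟩ := exists_rank (LinearMap.ker g) (by omega)
  exact ⟨Q, fun j => congrFun (LinearMap.mem_ker.1 hQ) j, hr⟩

end Pool.Agent.H94S
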