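import Mathlib

/-!
# H94S, L2a: the maps P and W
-/

set_option autoImplicit false
namespace Pool.Agent.H94S

/-- PROOF. The map `y ↦ (j ↦ y j)` from `Fin r → range Q` to `range G` (`G` = the map below) is injective; its source has
`finrank = r * finrank (range Q)`. -/
theorem finrank_range_pi {F : Type} [Field F] {n r : ℕ} (Q : (Fin n → F) →ₗ[F] (Fin n → F)) :
    r * Module.finrank F (LinearMap.range Q) ≤ Module.finrank F (LinearMap.range
      (LinearMap.pi (fun j : Fin r => Q ∘ₗ LinearMap.proj j) :
        (Fin r → Fin n → F) →ₗ[F] (Fin r → Fin n → F))) := by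
  let G : (Fin r → Fin n → F) →ₗ[F] (Fin r → Fin n → F) :=
    LinearMap.pi (fun j : Fin r => Q ∘ₗ LinearMap.proj j)
  have hG : ∀ (x : Fin r → Fin n → F) (j : Fin r), G x j = Q (x j) := fun x j => rfl
  let i : (Fin r → LinearMap.range Q) →ₗ[F] (Fin r → Fin n → F) :=
    { toFun := fun y j => (y j : Fin n → F)
      map_add' := fun _ _ => rfl
      map_smul' := fun _ _ => rfl }
  have hi : ∀ y, i y ∈ LinearMap.range G := by
    intro y
    have h1 : ∀ j, ∃ z, Q z = (y j : Fin n → F) := fun j => (y j).2
    choose z hz using h1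
    exact ⟨z, funext fun j => (hG z j).trans (hz j)⟩
  let k : (Fin r → LinearMap.range Q) →ₗ[F] LinearMap.range G := i.codRestrict _ hi
  have hk : Function.Injective k := by
    intro a b hab
    funext j
    apply Subtype.ext
    have h1 : i a = i b := congrArg Subtype.val hab
    exact congrFun h1 j
  have h2 := LinearMap.finrank_le_finrank_of_injective hk
  rw [Module.finrank_pi_fintype, Finset.sum_const, Finset.card_univ, Fintype.card_fin, smul_eq_mul] at h2
  exact h2

/-- PROOF. Let `f : X3 → E ⧸ X2`, `f = mkQ ∘ G ∘ subtype`. CLAIM `n' ≤ finrank (range f)`: rank-nullity for `G` and for `f`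
(`LinearMap.finrank_range_add_finrank_ker`): `ker f = {y ∈ X3 | G y ∈ X2}`, so `finrank (ker f) ≤ finrank (ker G) + finrank X2`
(restrict `G` to `ker f`: its kernel is inside `ker G`, its range inside `X2`), so
`finrank (range f) = finrank X3 - finrank (ker f) ≥ finrank X3 - finrank (ker G) - finrank X2 =
finrank X3 - (finrank E - finrank (range G)) - finrank X2 ≥ n'`. Hence there is an injective `i : (Fin n' → F) → range f`.
Let `σ` be a linear section of `f.rangeRestrict` (`LinearMap.exists_rightInverse_of_surjective`), `W = subtype ∘ σ ∘ i`, and let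
`L : E ⧸ X2 → (Fin n' → F)` be a left inverse of the injective map `(range f).subtype ∘ i`
(`LinearMap.exists_leftInverse_of_injective`), `P = L ∘ mkQ`. -/
theorem exists_PW {F : Type} [Field F] {E : Type} [AddCommGroup E] [Module F E] [Module.Finite F E]
    (G : E →ₗ[F] E) (X2 X3 : Submodule F E) (n' : ℕ)
    (h : n' + Module.finrank F X2 + Module.finrank F E ≤
      Module.finrank F (LinearMap.range G) + Module.finrank F X3) :
    ∃ (P : E →ₗ[F] (Fin n' → F)) (W : (Fin n' → F) →ₗ[F] E),
      (∀ b, P (G (W b)) = b) ∧ (∀ y ∈ X2, P y = 0) ∧ ∀ b, W b ∈ X3 := by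
  let f : X3 →ₗ[F] E ⧸ X2 := X2.mkQ ∘ₗ G ∘ₗ X3.subtype
  have hf : n' ≤ Module.finrank F (LinearMap.range f) := by
    have h1 := LinearMap.finrank_range_add_finrank_ker f
    have h2 := LinearMap.finrank_range_add_finrank_ker G
    -- the kernel of f
    have h3 : Module.finrank F (LinearMap.ker f) ≤ Module.finrank F (LinearMap.ker G) + Module.finrank F X2 := by
      let g : LinearMap.ker f →ₗ[F] X2 := (G ∘ₗ X3.subtype ∘ₗ (LinearMap.ker f).subtype).codRestrict X2 (by
        intro y
        have h4 : X2.mkQ (G (y : X3)) = 0 := y.2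
        exact (Submodule.Quotient.mk_eq_zero X2).1 h4)
      have h5 := LinearMap.finrank_range_add_finrank_ker g
      have h6 : Module.finrank F (LinearMap.range g) ≤ Module.finrank F X2 := Submodule.finrank_le _
      have h7 : Module.finrank F (LinearMap.ker g) ≤ Module.finrank F (LinearMap.ker G) := by
        let u : LinearMap.ker g →ₗ[F] LinearMap.ker G :=
          (X3.subtype ∘ₗ (LinearMap.ker f).subtype ∘ₗ (LinearMap.ker g).subtype).codRestrict _ (by
            intro y
            have h8 : g y = 0 := y.2
            exact congrArg Subtype.val h8)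
        apply LinearMap.finrank_le_finrank_of_injective (f := u)
        intro a b hab
        apply Subtype.ext
        apply Subtype.ext
        apply Subtype.ext
        exact congrArg (fun z : LinearMap.ker G => (z : E)) hab
      omega
    omega
  obtain ⟨i, hi⟩ : ∃ i : (Fin n' → F) →ₗ[F] LinearMap.range f, Function.Injective i := by
    obtain ⟨v, hv⟩ := exists_linearIndependent_of_le_finrank hf
    exact ⟨Fintype.linearCombination F v, linearIndependent_iff_injective_fintypeLinearCombination.1 hv⟩
  obtain ⟨σ, hσ⟩ := f.rangeRestrict.exists_rightInverse_of_surjective f.range_rangeRestrict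
  obtain ⟨L, hL⟩ := ((LinearMap.range f).subtype ∘ₗ i).exists_leftInverse_of_injective (by
    rw [LinearMap.ker_eq_bot]
    exact (Submodule.injective_subtype _).comp hi)
  refine ⟨L ∘ₗ X2.mkQ, X3.subtype ∘ₗ σ ∘ₗ i, ?_, ?_, ?_⟩
  · intro b
    have h1 : f (σ (i b)) = (i b : E ⧸ X2) := by
      have h2 := LinearMap.congr_fun hσ (i b)
      exact congrArg Subtype.val h2
    show L (f (σ (i b))) = b
    rw [h1]
    exact LinearMap.congr_fun hL b
  · intro y hy
    show L (X2.mkQ y) = 0
    rw [Submodule.mkQ_apply, (Submodule.Quotient.mk_eq_zero X2).2 hy, map_zero]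
  · intro b
    exact (σ (i b)).2

end Pool.Agent.H94S
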