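import Pool.Agent.Lib.H94S.L2a

/-!
# H94S, L2b: the maps P and W, families
-/

set_option autoImplicit false
namespace Pool.Agent.H94S

/-- The same with families of conditions.

PROOF. `X2 = ⨆ j, range (f j)` (`finrank ≤ ∑ finrank (range (f j)) ≤ ∑ finrank (Y j)`; or: `X2 = range` of the linear map
`(∀ j, Y j) → E`, `y ↦ ∑ j, f j (y j)`, so `finrank X2 ≤ ∑ finrank (Y j)`), `X3 = ker (LinearMap.pi g)`,
`finrank X3 + finrank (range (pi g)) = finrank E`, `finrank (range (pi g)) ≤ ∑ finrank (Z j)`; `exists_PW`. -/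
theorem exists_PW' {F : Type} [Field F] {E : Type} [AddCommGroup E] [Module F E]
    [Module.Finite F E] (G : E →ₗ[F] E) {J : Type} [Fintype J] (Y Z : J → Type)
    [∀ j, AddCommGroup (Y j)] [∀ j, Module F (Y j)] [∀ j, Module.Finite F (Y j)]
    [∀ j, AddCommGroup (Z j)] [∀ j, Module F (Z j)] [∀ j, Module.Finite F (Z j)]
    (f : ∀ j, Y j →ₗ[F] E) (g : ∀ j, E →ₗ[F] Z j) (n' : ℕ)
    (h : n' + ∑ j, Module.finrank F (Y j) + ∑ j, Module.finrank F (Z j) ≤
      Module.finrank F (LinearMap.range G)) :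
    ∃ (P : E →ₗ[F] (Fin n' → F)) (W : (Fin n' → F) →ₗ[F] E),
      (∀ b, P (G (W b)) = b) ∧ (∀ j y, P (f j y) = 0) ∧ ∀ j b, g j (W b) = 0 := by
  classical
  let f' : (∀ j, Y j) →ₗ[F] E := ∑ j, f j ∘ₗ LinearMap.proj j
  have h1 : Module.finrank F (LinearMap.range f') ≤ ∑ j, Module.finrank F (Y j) := by
    rw [← Module.finrank_pi_fintype]
    exact LinearMap.finrank_range_le f'
  have h2 := LinearMap.finrank_range_add_finrank_ker (LinearMap.pi g)
  have h3 : Module.finrank F (LinearMap.range (LinearMap.pi g)) ≤ ∑ j, Module.finrank F (Z j) := by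
    rw [← Module.finrank_pi_fintype]
    exact Submodule.finrank_le _
  obtain ⟨P, W, hPW, hP, hW⟩ := exists_PW G (LinearMap.range f') (LinearMap.ker (LinearMap.pi g)) n'
    (by omega)
  refine ⟨P, W, hPW, fun j y => hP _ ⟨Pi.single j y, ?_⟩, fun j b => ?_⟩
  · simp only [f', LinearMap.sum_apply, LinearMap.comp_apply, LinearMap.proj_apply]
    rw [Finset.sum_eq_single j]
    · rw [Pi.single_eq_same]
    · intro i _ hi
      rw [Pi.single_eq_of_ne hi, map_zero]
    · intro hj
      exact absurd (Finset.mem_univ _) hj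
  · have h4 := hW b
    rw [LinearMap.mem_ker] at h4
    exact congrFun h4 j

end Pool.Agent.H94S
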