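import Pool.Agent.Lib.H94S.A1c
import Pool.Agent.Lib.H94S.B1b
import Pool.Agent.Lib.H94S.B1c
import Pool.Agent.Lib.H94S.B2d
import Pool.Agent.Lib.H94S.B3a
import Pool.Agent.Lib.H94S.B3b

/-!
# H94S: the main theorem
-/

set_option autoImplicit false
namespace Pool.Agent.H94S

/-- Abstract assembly. -/
theorem assemble {p k : ℕ} [Fact p.Prime] {M : Type} [Group M] (E : Subgroup M) (e : M) (he : e ∈ E)
    (he1 : e ≠ 1)
    (hnorm : ∀ N : Subgroup M, (∀ g ∈ E, ∀ n ∈ N, g * n * g⁻¹ ∈ N) → e ∈ N → E ≤ N)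
    (hperf : ∀ N : Subgroup M, (∀ g ∈ E, ∀ h ∈ E, g * h * g⁻¹ * h⁻¹ ∈ N) → E ≤ N)
    (hpow : ∀ g ∈ E, ∃ N, g ^ p ^ N = 1)
    (hfin : ∀ g : Fin k → M, (∀ a, g a ∈ E) →
      ((Subgroup.closure (Set.range g) : Subgroup M) : Set M).Finite) :
    ∃ (G : Type) (_ : Group G), IsSimpleGroup G ∧ Infinite G ∧ IsPGroup p G ∧
      ∀ g : Fin k → G, ((Subgroup.closure (Set.range g) : Subgroup G) : Set G).Finite := by
  have hmax : ∀ N : Subgroup E, (∀ g ∈ E, g ∈ N.map E.subtype) → N = ⊤ := by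
    intro N hN
    rw [eq_top_iff]
    rintro ⟨g, hg⟩ -
    obtain ⟨h, hh, hhg⟩ := hN g hg
    have : h = ⟨g, hg⟩ := Subtype.ext hhg
    exact this ▸ hh
  obtain ⟨K, hK, hs⟩ := exists_simple_quotient (E := E) ⟨e, he⟩
    (fun h => he1 (congrArg Subtype.val h)) (by
      intro N hN hx
      refine hmax N fun g hg => ?_
      refine hnorm (N.map E.subtype) ?_ ⟨_, hx, rfl⟩ hg
      rintro g hg _ ⟨n, hn, rfl⟩
      exact ⟨⟨g, hg⟩ * n * ⟨g, hg⟩⁻¹, hN.conj_mem n hn ⟨g, hg⟩, rfl⟩)
  have hpG : IsPGroup p (E ⧸ K) := by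
    intro g
    obtain ⟨g, rfl⟩ := QuotientGroup.mk_surjective g
    obtain ⟨N, hN⟩ := hpow g g.2
    refine ⟨N, ?_⟩
    have : g ^ p ^ N = 1 := Subtype.ext hN
    rw [← QuotientGroup.mk_pow, this, QuotientGroup.mk_one]
  refine ⟨E ⧸ K, inferInstance, hs, ?_, hpG, ?_⟩
  · refine infinite_of_perfect hpG fun N hN => ?_
    have h1 : N.comap (QuotientGroup.mk' K) = ⊤ := by
      refine hmax _ fun g hg => ?_
      refine hperf _ ?_ hg
      intro g hg h hh
      refine ⟨⟨g, hg⟩ * ⟨h, hh⟩ * ⟨g, hg⟩⁻¹ * ⟨h, hh⟩⁻¹, ?_, rfl⟩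
      exact hN (QuotientGroup.mk' K ⟨g, hg⟩) (QuotientGroup.mk' K ⟨h, hh⟩)
    rw [eq_top_iff]
    intro g _
    obtain ⟨g, rfl⟩ := QuotientGroup.mk_surjective g
    have : g ∈ N.comap (QuotientGroup.mk' K) := h1 ▸ Subgroup.mem_top g
    exact this
  · intro g
    choose g' hg' using fun a => QuotientGroup.mk_surjective (g a)
    have hfin := hfin (fun a => (g' a : M)) (fun a => (g' a).2)
    have h1 : (Subgroup.closure (Set.range g') : Subgroup E).map E.subtype =
        Subgroup.closure (Set.range fun a => (g' a : M)) := by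
      rw [MonoidHom.map_closure]
      congr 1
      rw [← Set.range_comp]
      rfl
    have h2 : ((Subgroup.closure (Set.range g') : Subgroup E) : Set E).Finite := by
      refine Set.Finite.of_finite_image (f := E.subtype) ?_ (Subtype.val_injective.injOn)
      rw [← Subgroup.coe_map, h1]
      exact hfin
    have h3 : (Subgroup.closure (Set.range g') : Subgroup E).map (QuotientGroup.mk' K) =
        Subgroup.closure (Set.range g) := by
      rw [MonoidHom.map_closure]
      congr 1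
      rw [← Set.range_comp]
      congr 1
      funext a
      exact hg' a
    rw [← h3, Subgroup.coe_map]
    exact h2.image _

/-- Infinite simple `p`-groups all of whose `k`-generated subgroups are finite. -/
theorem main (p : ℕ) (hp : p.Prime) (k : ℕ) :
    ∃ (G : Type) (_ : Group G), IsSimpleGroup G ∧ Infinite G ∧ IsPGroup p G ∧
      ∀ g : Fin k → G, ((Subgroup.closure (Set.range g) : Subgroup G) : Set G).Finite := by
  have : Fact p.Prime := ⟨hp⟩
  obtain ⟨S⟩ := exists_seed p (9 * (k + 1)) (by omega)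
  exact assemble S.E (S.el 0 1 (by decide) S.x)
    (Subgroup.subset_closure ⟨0, 1, by decide, S.x, S.hx, rfl⟩) (el_ne_one S)
    (E_le_of_normal S) (E_le_of_comm S) (fun g hg => E_pow S (by omega) hp hg)
    (fun g hg => E_finite S (by omega) (by omega) hp g hg)

end Pool.Agent.H94S
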