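import Pool.Agent.Lib.H94S.D0

/-!
# H94S, N1: the next stage is a stage; the base stage
-/

set_option autoImplicit false
namespace Pool.Agent.H94S

variable {F : Type} [Field F] {r n k : ℕ}

theorem Stage.rho_apply (St : Stage F r n k) (v : St.V) :
    FreeAlgebra.lift F St.act (rho F r) v = St.act Gen.x v - ∑ j : Fin r,
      St.act (Gen.p j) (St.act Gen.x (St.act Gen.q (St.act Gen.x (St.act (Gen.w j) v)))) := by
  simp [rho, gen, LinearMap.sub_apply, Module.End.mul_apply]

theorem lift_rho_apply {V : Type} [AddCommGroup V] [Module F V] (act : Gen r → Module.End F V)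
    (v : V) :
    FreeAlgebra.lift F act (rho F r) v = act Gen.x v - ∑ j : Fin r,
      act (Gen.p j) (act Gen.x (act Gen.q (act Gen.x (act (Gen.w j) v)))) := by
  simp [rho, gen, LinearMap.sub_apply, Module.End.mul_apply]

theorem next_p (St : Stage F r n k) (n' : ℕ) (Q : (Fin n → F) →ₗ[F] (Fin n → F))
    (P : (Fin r → Fin n → F) →ₗ[F] (Fin n' → F)) (W : (Fin n' → F) →ₗ[F] (Fin r → Fin n → F))
    (j : Fin r) (a b : Fin n' → F) (l m : St.V) :
    nextAct St n' Q P W (Gen.p j) (a, b, l, m) =
      (P (Pi.single j (St.π l)), 0, St.act (Gen.p j) l, St.act (Gen.p j) m) := rfl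

theorem next_q (St : Stage F r n k) (n' : ℕ) (Q : (Fin n → F) →ₗ[F] (Fin n → F))
    (P : (Fin r → Fin n → F) →ₗ[F] (Fin n' → F)) (W : (Fin n' → F) →ₗ[F] (Fin r → Fin n → F))
    (a b : Fin n' → F) (l m : St.V) :
    nextAct St n' Q P W Gen.q (a, b, l, m) =
      (0, 0, St.act Gen.q l + St.ι (Q (St.π m)), St.act Gen.q m) := rfl

theorem next_w (St : Stage F r n k) (n' : ℕ) (Q : (Fin n → F) →ₗ[F] (Fin n → F))
    (P : (Fin r → Fin n → F) →ₗ[F] (Fin n' → F)) (W : (Fin n' → F) →ₗ[F] (Fin r → Fin n → F))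
    (j : Fin r) (a b : Fin n' → F) (l m : St.V) :
    nextAct St n' Q P W (Gen.w j) (a, b, l, m) =
      (0, 0, St.act (Gen.w j) l, St.act (Gen.w j) m + St.ι (W b j)) := rfl

theorem next_x (St : Stage F r n k) (n' : ℕ) (Q : (Fin n → F) →ₗ[F] (Fin n → F))
    (P : (Fin r → Fin n → F) →ₗ[F] (Fin n' → F)) (W : (Fin n' → F) →ₗ[F] (Fin r → Fin n → F))
    (a b : Fin n' → F) (l m : St.V) :
    nextAct St n' Q P W Gen.x (a, b, l, m) = (b, 0, St.act Gen.x l, St.act Gen.x m) := rfl

theorem nextE_succ (St : Stage F r n k) (n' i : ℕ) (a b : Fin n' → F) (l m : St.V) :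
    nextE St n' (i + 1) (a, b, l, m) = (a, b, St.e i l, St.e i m) := rfl

/-- Both projections of a stage fix the vectors below. -/
theorem Stage.s6' (St : Stage F r n k) {g : Gen r} {a : ℕ} {v : St.V} (ha : 1 ≤ a)
    (hv : St.e a v = v) : St.e (a + 1) (St.act g v) = St.act g v := by
  have := St.s6 g a v ha
  rwa [hv] at this

/-- The next stage. -/
noncomputable def nextStage (St : Stage F r n k) (n' : ℕ) (Q : (Fin n → F) →ₗ[F] (Fin n → F))
    (P : (Fin r → Fin n → F) →ₗ[F] (Fin n' → F)) (W : (Fin n' → F) →ₗ[F] (Fin r → Fin n → F))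
    (h : ∀ b, P (fun j => Q (W b j)) = b) : Stage F r n' (k + 1) where
  V := Nx F n' St.V
  act := nextAct St n' Q P W
  ι := LinearMap.inr F (Fin n' → F) ((Fin n' → F) × St.V × St.V) ∘ₗ
    LinearMap.inl F (Fin n' → F) (St.V × St.V)
  κ := LinearMap.inl F (Fin n' → F) ((Fin n' → F) × St.V × St.V)
  π := LinearMap.fst F (Fin n' → F) ((Fin n' → F) × St.V × St.V)
  e := nextE St n'
  ee := by
    intro i j
    rcases i with _ | i <;> rcases j with _ | j
    · simp [nextE]
    · simp [nextE]
    · simp [nextE]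
    · have hm : min (i + 1) (j + 1) = min i j + 1 := by omega
      rw [hm]
      refine LinearMap.ext fun v => ?_
      have := fun u : St.V => LinearMap.congr_fun (St.ee i j) u
      simp only [Module.End.mul_apply] at this
      simp [nextE, Module.End.mul_apply, this]
  e0 := rfl
  e1 := by
    refine LinearMap.ext fun v => ?_
    simp [nextE, St.e1]
  s1 := fun y => rfl
  s2 := by
    intro g y
    cases g <;> simp [nextAct]
  s3 := by
    intro y
    simp [nextAct]
  s4 := by
    intro g v
    cases g <;> simp [nextAct]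
  s5 := by
    rintro ⟨a, b, l, m⟩
    have hl := St.s5 l
    have hm := St.s5 m
    rw [lift_rho_apply] at hl hm
    rw [lift_rho_apply, nextE_succ]
    simp only [next_w, next_x, next_q, next_p, map_add, St.s1, St.s2, St.s3, St.s4, zero_add,
      add_zero]
    rw [Prod.ext_iff, Prod.ext_iff, Prod.ext_iff]
    simp only [Prod.fst_sub, Prod.snd_sub, Prod.fst_sum, Prod.snd_sum, Prod.fst_zero,
      Prod.snd_zero, Finset.sum_const_zero, sub_zero]
    refine ⟨?_, trivial, hl, hm⟩
    rw [← map_sum, sub_eq_zero]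
    conv_lhs => rw [← h b]
    congr 1
    exact (Finset.univ_sum_single _).symm
  s6 := by
    rintro g a ⟨va, vb, vl, vr⟩ ha
    obtain ⟨a, rfl⟩ : ∃ b, a = b + 1 := ⟨a - 1, by omega⟩
    rw [nextE_succ]
    have key : ∀ (g : Gen r) (v : St.V), St.e (a + 1) (St.act g (St.e a v)) =
        St.act g (St.e a v) := by
      intro g v
      rcases Nat.eq_zero_or_pos a with rfl | h0
      · simp [St.e0]
      · exact St.s6 g a v h0
    have hι : ∀ y, St.e (a + 1) (St.ι y) = St.ι y := by
      intro y
      have := LinearMap.congr_fun (St.ee (a + 1) 1) (St.ι y)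
      rwa [Module.End.mul_apply, St.s7, show min (a + 1) 1 = 1 by omega, St.s7] at this
    cases g with
    | p j => rw [next_p, nextE_succ, key, key]
    | q => rw [next_q, nextE_succ, key, map_add, key, hι]
    | w j => rw [next_w, nextE_succ, key, map_add, key, hι]
    | x => rw [next_x, nextE_succ, key, key]
  s7 := by
    intro y
    simp [nextE]
  s8 := by
    intro y
    simp [nextE]

/-- The base stage. -/
noncomputable def baseStage (F : Type) [Field F] (r : ℕ) : Stage F r 1 0 where
  V := (Fin 1 → F) × (Fin 1 → F)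
  act := fun g => match g with
    | Gen.x => LinearMap.inl F (Fin 1 → F) (Fin 1 → F) ∘ₗ LinearMap.snd F (Fin 1 → F) (Fin 1 → F)
    | _ => 0
  ι := LinearMap.inr F (Fin 1 → F) (Fin 1 → F)
  κ := LinearMap.inl F (Fin 1 → F) (Fin 1 → F)
  π := LinearMap.fst F (Fin 1 → F) (Fin 1 → F)
  e := fun i => if i = 0 then 0 else 1
  ee := by
    intro i j
    by_cases hi : i = 0
    · simp [hi]
    · by_cases hj : j = 0
      · simp [hj]
      · have : min i j ≠ 0 := by omega
        simp [hi, hj, this]
  e0 := by simp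
  e1 := by simp
  s1 := fun y => rfl
  s2 := by
    intro g y
    cases g <;> simp
  s3 := by
    intro y
    simp
  s4 := by
    intro g v
    cases g <;> simp
  s5 := by
    intro v
    simp
  s6 := by
    intro g a v ha
    have : a ≠ 0 := by omega
    simp [this]
  s7 := by
    intro y
    simp
  s8 := by
    intro y
    simp

end Pool.Agent.H94S
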