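import Pool.Agent.Lib.H94S.N1

/-!
# H94S, N2: the structure lemma
-/

set_option autoImplicit false
namespace Pool.Agent.H94S

variable {F : Type} [Field F] {r n k : ℕ}

/-- The structure of the action of `u` on the next stage: block upper triangular, the coupling of
the two copies of `V` is linear in `Q`, the coupling with the top space factors through `P`, `W`. -/
theorem structure_lemma (St : Stage F r n k) (u : T F r) :
    ∃ D : ((Fin n → F) →ₗ[F] (Fin n → F)) →ₗ[F] Module.End F St.V,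
    ∀ Q : (Fin n → F) →ₗ[F] (Fin n → F),
    ∃ (β : St.V × St.V →ₗ[F] (Fin r → Fin n → F)) (δ : (Fin r → Fin n → F) →ₗ[F] St.V × St.V),
    ∀ (n' : ℕ) (P : (Fin r → Fin n → F) →ₗ[F] (Fin n' → F))
      (W : (Fin n' → F) →ₗ[F] (Fin r → Fin n → F)),
    ∃ α : (Fin n' → F) →ₗ[F] (Fin n' → F), ∀ (a b : Fin n' → F) (l m : St.V),
      nextRep St n' Q P W u (a, b, l, m) =
        (aug F r u • a + α b + P (β (l, m)), aug F r u • b,
          St.rep u l + D Q m + (δ (W b)).1, St.rep u m + (δ (W b)).2) := by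
  induction u using FreeAlgebra.induction with
  | grade0 c =>
    refine ⟨0, fun Q => ⟨0, 0, fun n' P W => ⟨0, fun a b l m => ?_⟩⟩⟩
    simp [Algebra.algebraMap_eq_smul_one, Prod.smul_mk]
  | grade1 g =>
    cases g with
    | p j =>
      refine ⟨0, fun Q => ⟨LinearMap.single F _ j ∘ₗ St.π ∘ₗ LinearMap.fst F _ _, 0,
        fun n' P W => ⟨0, fun a b l m => ?_⟩⟩⟩
      simp [nextRep, aug, Stage.rep, next_p]
    | q =>
      refine ⟨?_, fun Q => ⟨0, 0, fun n' P W => ⟨0, fun a b l m => ?_⟩⟩⟩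
      · exact (LinearMap.compRight F St.ι).comp (LinearMap.lcomp F (Fin n → F) St.π)
      · simp [nextRep, aug, Stage.rep, next_q]
    | w j =>
      refine ⟨0, fun Q => ⟨0, LinearMap.inr F _ _ ∘ₗ St.ι ∘ₗ LinearMap.proj j,
        fun n' P W => ⟨0, fun a b l m => ?_⟩⟩⟩
      simp [nextRep, aug, Stage.rep, next_w]
    | x =>
      refine ⟨0, fun Q => ⟨0, 0, fun n' P W => ⟨1, fun a b l m => ?_⟩⟩⟩
      simp [nextRep, aug, Stage.rep, next_x]
  | mul u v hu hv =>
    obtain ⟨Du, hu⟩ := hu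
    obtain ⟨Dv, hv⟩ := hv
    refine ⟨(LinearMap.mulLeft F (St.rep u)).comp Dv + (LinearMap.mulRight F (St.rep v)).comp Du,
      fun Q => ?_⟩
    obtain ⟨βu, δu, hu⟩ := hu Q
    obtain ⟨βv, δv, hv⟩ := hv Q
    refine ⟨aug F r u • βv + βu ∘ₗ (LinearMap.prod
        ((St.rep v) ∘ₗ LinearMap.fst F _ _ + (Dv Q) ∘ₗ LinearMap.snd F _ _)
        ((St.rep v) ∘ₗ LinearMap.snd F _ _)),
      (LinearMap.prod
        ((St.rep u) ∘ₗ LinearMap.fst F _ _ + (Du Q) ∘ₗ LinearMap.snd F _ _)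
        ((St.rep u) ∘ₗ LinearMap.snd F _ _)) ∘ₗ δv + aug F r v • δu, fun n' P W => ?_⟩
    obtain ⟨αu, hu⟩ := hu n' P W
    obtain ⟨αv, hv⟩ := hv n' P W
    refine ⟨aug F r u • αv + aug F r v • αu + P ∘ₗ βu ∘ₗ δv ∘ₗ W, fun a b l m => ?_⟩
    rw [map_mul, Module.End.mul_apply, hv, hu]
    have hβ : βu (St.rep v l + Dv Q m + (δv (W b)).1, St.rep v m + (δv (W b)).2) =
        βu (St.rep v l + Dv Q m, St.rep v m) + βu (δv (W b)) := by
      rw [← map_add]
      rfl
    rw [Prod.ext_iff, Prod.ext_iff, Prod.ext_iff]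
    refine ⟨?_, ?_, ?_, ?_⟩
    · simp only [hβ, map_add, map_smul, map_mul, LinearMap.add_apply, LinearMap.smul_apply,
        LinearMap.comp_apply, LinearMap.prod_apply, Function.prod, LinearMap.fst_apply,
        LinearMap.snd_apply, smul_add, mul_smul]
      abel
    · simp [mul_smul]
    · simp
      abel
    · simp
      abel
  | add u v hu hv =>
    obtain ⟨Du, hu⟩ := hu
    obtain ⟨Dv, hv⟩ := hv
    refine ⟨Du + Dv, fun Q => ?_⟩
    obtain ⟨βu, δu, hu⟩ := hu Q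
    obtain ⟨βv, δv, hv⟩ := hv Q
    refine ⟨βu + βv, δu + δv, fun n' P W => ?_⟩
    obtain ⟨αu, hu⟩ := hu n' P W
    obtain ⟨αv, hv⟩ := hv n' P W
    refine ⟨αu + αv, fun a b l m => ?_⟩
    rw [map_add, LinearMap.add_apply, hu, hv]
    rw [Prod.ext_iff, Prod.ext_iff, Prod.ext_iff]
    refine ⟨?_, ?_, ?_, ?_⟩
    · simp [add_smul]
      abel
    · simp [add_smul]
    · simp
      abel
    · simp
      abel

end Pool.Agent.H94S
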