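import Pool.Agent.Lib.H94S.N2

/-!
# H94S, N3: the kill conditions (definition)
-/

set_option autoImplicit false
namespace Pool.Agent.H94S

variable {F : Type} [Field F] {r n k : ℕ}

/-- The kill conditions at a node, for one element `u` and one barrier at relative depth `i` of the old stage. -/
def Blk (St : Stage F r n k) (n' : ℕ) (Q : (Fin n → F) →ₗ[F] (Fin n → F))
    (P : (Fin r → Fin n → F) →ₗ[F] (Fin n' → F)) (W : (Fin n' → F) →ₗ[F] (Fin r → Fin n → F))
    (u : T F r) (i : ℕ) : Prop :=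
  ∃ (α : (Fin n' → F) →ₗ[F] (Fin n' → F)) (β γ : St.V →ₗ[F] (Fin n' → F)) (D : Module.End F St.V)
    (δ ε : (Fin n' → F) →ₗ[F] St.V),
    (∀ a b l m, nextRep St n' Q P W u (a, b, l, m) =
      (α b + β l + γ m, 0, St.rep u l + D m + δ b, St.rep u m + ε b)) ∧
    St.e (max i 1) * D = D ∧ D * St.e (max i 1) = D ∧ (∀ v, β (St.e i v) = β v) ∧
    (∀ v, γ (St.e i v) = γ v) ∧ (∀ b, St.e i (δ b) = δ b) ∧ ∀ b, St.e i (ε b) = ε b

/-- `e_i = 1` for `i ≥ k + 1`.

PROOF. `St.ee i (k + 1)` with `St.e1`: `e i * 1 = e (min i (k+1)) = e (k+1) = 1`. -/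
theorem Stage.e_big (St : Stage F r n k) {i : ℕ} (h : k + 1 ≤ i) : St.e i = 1 := by
  have := St.ee i (k + 1)
  rwa [St.e1, mul_one, Nat.min_eq_right h, St.e1] at this

/-- The projections are idempotent and nested. PROOF. `St.ee`. -/
theorem Stage.e_e (St : Stage F r n k) {i j : ℕ} (h : i ≤ j) (v : St.V) :
    St.e j (St.e i v) = St.e i v := by
  have := LinearMap.congr_fun (St.ee j i) v
  rwa [Module.End.mul_apply, Nat.min_eq_right h] at this

theorem Stage.e_e' (St : Stage F r n k) {i j : ℕ} (h : i ≤ j) (v : St.V) :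
    St.e i (St.e j v) = St.e i v := by
  have := LinearMap.congr_fun (St.ee i j) v
  rwa [Module.End.mul_apply, Nat.min_eq_left h] at this

end Pool.Agent.H94S
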