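import Pool.Agent.Lib.H94S.N3
import Pool.Agent.Lib.H94S.L1b

/-!
# H94S, N3a: choice of Q at a node
-/

set_option autoImplicit false
namespace Pool.Agent.H94S

variable {F : Type} [Field F] {r n k : ℕ}

theorem n3a_sum (St : Stage F r n k) (d : ℕ) :
    (∑ j : Fin (k + 1) × Fin d, (Module.finrank F St.V * St.b (max (j.1 : ℕ) 1) +
      St.b (max (j.1 : ℕ) 1) * Module.finrank F St.V)) ≤
    4 * (d * (Module.finrank F St.V * ∑ i ∈ Finset.range k, St.b (i + 1))) := by
  have h1 : (∑ j : Fin (k + 1) × Fin d, (Module.finrank F St.V * St.b (max (j.1 : ℕ) 1) +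
      St.b (max (j.1 : ℕ) 1) * Module.finrank F St.V)) =
      2 * (d * (Module.finrank F St.V * ∑ i ∈ Finset.range (k + 1), St.b (max i 1))) := by
    rw [Fintype.sum_prod_type, Finset.sum_range, Finset.mul_sum, Finset.mul_sum, Finset.mul_sum]
    refine Finset.sum_congr rfl fun i _ => ?_
    refine (Finset.sum_const (Module.finrank F St.V * St.b (max (i : ℕ) 1) +
      St.b (max (i : ℕ) 1) * Module.finrank F St.V)).trans ?_
    rw [Finset.card_univ, Fintype.card_fin, smul_eq_mul]
    ring
  have h2 : ∑ i ∈ Finset.range (k + 1), St.b (max i 1) ≤ 2 * ∑ i ∈ Finset.range k, St.b (i + 1) := by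
    rw [Finset.sum_range_succ']
    have h3 : ∀ i, St.b (max (i + 1) 1) = St.b (i + 1) := fun i => by
      rw [Nat.max_eq_left (Nat.le_add_left 1 i)]
    simp only [h3]
    rcases Nat.eq_zero_or_pos k with h0 | h0
    · have h4 : St.b (max 0 1) = 0 := by
        unfold Stage.b
        rw [St.e_big (by omega), sub_self, LinearMap.range_zero]
        exact finrank_bot F St.V
      rw [h4]
      omega
    · have h5 : St.b (max 0 1) ≤ ∑ i ∈ Finset.range k, St.b (i + 1) :=
        Finset.single_le_sum (f := fun i => St.b (i + 1)) (fun i _ => Nat.zero_le _)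
          (Finset.mem_range.2 h0)
      omega
  rw [h1]
  calc 2 * (d * (Module.finrank F St.V * ∑ i ∈ Finset.range (k + 1), St.b (max i 1)))
      ≤ 2 * (d * (Module.finrank F St.V * (2 * ∑ i ∈ Finset.range k, St.b (i + 1)))) := by
        gcongr
    _ = 4 * (d * (Module.finrank F St.V * ∑ i ∈ Finset.range k, St.b (i + 1))) := by ring

/-- Choice of `Q`.

PROOF. `exists_Q` with `J = (Fin (k+1) × Fin d) ⊕ (Fin (k+1) × Fin d)`. With `m = max i 1` and `ē = 1 - e m`
(idempotent, by `St.ee`): on the left summand `Y = (St.V →ₗ range ē)`, `f Q = ē.rangeRestrict ∘ₗ D i t Q`, on the right summand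
`Y = (range ē →ₗ St.V)`, `f Q = D i t Q ∘ₗ (range ē).subtype`; both have `finrank = finrank V * St.b m`
(`Module.finrank_linearMap`, `Module.finrank_linearMap_self` ...). The hypothesis of `exists_Q` is `h`: the sum over the first
summand is `∑ i t, finrank V * b (max i 1) = d * finrank V * (b 1 + ∑ i < k, b (i+1))` (`Fin.sum_univ_succ`,
`Finset.sum_range`), and `b 1 ≤ ∑ i < k, b (i+1)` if `0 < k`; if `k = 0` then `b 1 = 0` (`e_big`). `f Q = 0` says
`(1 - e m) * D = 0`, `D * (1 - e m) = 0` (on `v` write `(1 - e m) v ∈ range`). For `i ≥ k + 1` use `e_big`. -/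
theorem choose_Q [Finite F] {d : ℕ} (St : Stage F r n k)
    (D : ℕ → Fin d → ((Fin n → F) →ₗ[F] (Fin n → F)) →ₗ[F] Module.End F St.V)
    (h : 8 * (d * (Module.finrank F St.V * ∑ i ∈ Finset.range k, St.b (i + 1))) < n * n) :
    ∃ Q : (Fin n → F) →ₗ[F] (Fin n → F), n < 4 * Module.finrank F (LinearMap.range Q) ∧
      ∀ i t, St.e (max i 1) * D i t Q = D i t Q ∧ D i t Q * St.e (max i 1) = D i t Q := by
  classical
  obtain ⟨Q, h1, h2⟩ := exists_Q
    (fun j : Fin (k + 1) × Fin d => (St.V →ₗ[F] LinearMap.range (1 - St.e (max (j.1 : ℕ) 1))) ×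
      (LinearMap.range (1 - St.e (max (j.1 : ℕ) 1)) →ₗ[F] St.V))
    (fun j => LinearMap.prod
      ((LinearMap.compRight F (LinearMap.rangeRestrict (1 - St.e (max (j.1 : ℕ) 1)))).comp (D j.1 j.2))
      ((LinearMap.lcomp F St.V (LinearMap.range (1 - St.e (max (j.1 : ℕ) 1))).subtype).comp (D j.1 j.2)))
    (by
      refine lt_of_le_of_lt ?_ h
      have h3 := n3a_sum St d
      have h4 : (∑ j : Fin (k + 1) × Fin d, Module.finrank F
          ((St.V →ₗ[F] LinearMap.range (1 - St.e (max (j.1 : ℕ) 1))) ×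
          (LinearMap.range (1 - St.e (max (j.1 : ℕ) 1)) →ₗ[F] St.V))) =
          ∑ j : Fin (k + 1) × Fin d, (Module.finrank F St.V * St.b (max (j.1 : ℕ) 1) +
          St.b (max (j.1 : ℕ) 1) * Module.finrank F St.V) := by
        refine Finset.sum_congr rfl fun j _ => ?_
        rw [Module.finrank_prod, Module.finrank_linearMap, Module.finrank_linearMap]
        rfl
      rw [h4]
      omega)
  refine ⟨Q, h2, fun i t => ?_⟩
  by_cases hi : k + 1 ≤ i
  · rw [St.e_big (le_trans hi (le_max_left i 1))]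
    exact ⟨one_mul _, mul_one _⟩
  · have h5 := h1 (⟨i, by omega⟩, t)
    have h6 : ∀ v, (1 - St.e (max i 1)) (D i t Q v) = 0 := fun v =>
      congrArg Subtype.val (LinearMap.congr_fun (congrArg Prod.fst h5) v)
    have h7 : ∀ v, D i t Q ((1 - St.e (max i 1)) v) = 0 := fun v =>
      LinearMap.congr_fun (congrArg Prod.snd h5) ⟨_, LinearMap.mem_range_self _ v⟩
    constructor
    · refine LinearMap.ext fun v => ?_
      have h8 := h6 v
      rw [LinearMap.sub_apply, Module.End.one_apply, sub_eq_zero] at h8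
      exact h8.symm
    · refine LinearMap.ext fun v => ?_
      have h8 := h7 v
      rw [LinearMap.sub_apply, Module.End.one_apply, map_sub, sub_eq_zero] at h8
      exact h8.symm

end Pool.Agent.H94S
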