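import Pool.Agent.Lib.H94S.N3
import Pool.Agent.Lib.H94S.L2b

/-!
# H94S, N3b: choice of P and W at a node
-/

set_option autoImplicit false
namespace Pool.Agent.H94S

variable {F : Type} [Field F] {r n k : ℕ}

theorem n3b_b0 (St : Stage F r n k) : St.b 0 = Module.finrank F St.V := by
  unfold Stage.b
  rw [St.e0, sub_zero]
  have h : LinearMap.range (1 : Module.End F St.V) = ⊤ := LinearMap.range_id
  rw [h, finrank_top]

theorem n3b_sum (St : Stage F r n k) (d : ℕ) :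
    ∑ j : Fin (k + 1) × Fin d, (St.b j.1 + St.b j.1) =
      2 * (d * (Module.finrank F St.V + ∑ i ∈ Finset.range k, St.b (i + 1))) := by
  rw [Fintype.sum_prod_type]
  simp only [Finset.sum_const, Finset.card_univ, Fintype.card_fin, smul_eq_mul]
  rw [Fin.sum_univ_eq_sum_range (fun i => d * (St.b i + St.b i)), Finset.sum_range_succ']
  rw [n3b_b0, ← Finset.mul_sum, Finset.sum_add_distrib]
  ring

/-- Choice of `P`, `W`.

PROOF. `exists_PW'` with `E = (Fin r → Fin n → F)`, `G = LinearMap.pi (fun j => Q ∘ₗ proj j)` (`finrank_range_pi`),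
`J = Fin (k+1) × Fin d`, `Y = Z = range (1 - e i) × range (1 - e i)`,
`f = β i t ∘ₗ (subtype.prodMap subtype)`, `g = (rangeRestrict.prodMap rangeRestrict) ∘ₗ δ i t`; `finrank Y = 2 * St.b i`,
`St.b 0 = finrank V` (`St.e0`). The sum is `2 * d * (finrank V + ∑ i < k, b (i+1))`. For `i ≥ k + 1`: `e_big`. -/
theorem choose_PW {d : ℕ} (St : Stage F r n k) (Q : (Fin n → F) →ₗ[F] (Fin n → F)) (n' : ℕ)
    (β : ℕ → Fin d → (St.V × St.V →ₗ[F] (Fin r → Fin n → F)))
    (δ : ℕ → Fin d → ((Fin r → Fin n → F) →ₗ[F] St.V × St.V))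
    (h : n' + 4 * (d * (Module.finrank F St.V + ∑ i ∈ Finset.range k, St.b (i + 1))) ≤
      r * Module.finrank F (LinearMap.range Q)) :
    ∃ (P : (Fin r → Fin n → F) →ₗ[F] (Fin n' → F)) (W : (Fin n' → F) →ₗ[F] (Fin r → Fin n → F)),
      (∀ b, P (fun j => Q (W b j)) = b) ∧
      (∀ i t l m, P (β i t (St.e i l, St.e i m)) = P (β i t (l, m))) ∧
      ∀ i t b, St.e i (δ i t (W b)).1 = (δ i t (W b)).1 ∧ St.e i (δ i t (W b)).2 = (δ i t (W b)).2 := by
  let R : ℕ → Submodule F St.V := fun i => LinearMap.range (1 - St.e i)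
  let f : ∀ j : Fin (k + 1) × Fin d, (R j.1 × R j.1) →ₗ[F] (Fin r → Fin n → F) := fun j =>
    β j.1 j.2 ∘ₗ ((R j.1).subtype.prodMap (R j.1).subtype)
  let g : ∀ j : Fin (k + 1) × Fin d, (Fin r → Fin n → F) →ₗ[F] (R j.1 × R j.1) := fun j =>
    ((LinearMap.rangeRestrict (1 - St.e j.1)).prodMap (LinearMap.rangeRestrict (1 - St.e j.1))) ∘ₗ
      δ j.1 j.2
  have hfin : ∀ j : Fin (k + 1) × Fin d, Module.finrank F (R j.1 × R j.1) = St.b j.1 + St.b j.1 :=
    fun j => Module.finrank_prod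
  have hsum : ∑ j : Fin (k + 1) × Fin d, Module.finrank F (R j.1 × R j.1) =
      2 * (d * (Module.finrank F St.V + ∑ i ∈ Finset.range k, St.b (i + 1))) := by
    rw [← n3b_sum]
    exact Finset.sum_congr rfl fun j _ => hfin j
  obtain ⟨P, W, h1, h2, h3⟩ := exists_PW'
    (LinearMap.pi (fun j : Fin r => Q ∘ₗ LinearMap.proj j) :
        (Fin r → Fin n → F) →ₗ[F] (Fin r → Fin n → F))
    (fun j : Fin (k + 1) × Fin d => (R j.1 × R j.1)) (fun j : Fin (k + 1) × Fin d => (R j.1 × R j.1)) f g n' (by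
      have h4 := finrank_range_pi (r := r) Q
      rw [hsum]
      refine le_trans ?_ (h.trans h4)
      omega)
  refine ⟨P, W, h1, fun i t l m => ?_, fun i t b => ?_⟩
  · rcases Nat.lt_or_ge i (k + 1) with hi | hi
    · have h4 := h2 (⟨i, hi⟩, t) (⟨(1 - St.e i) l, ⟨l, rfl⟩⟩, ⟨(1 - St.e i) m, ⟨m, rfl⟩⟩)
      have h5 : β i t ((1 - St.e i) l, (1 - St.e i) m) = β i t (l, m) - β i t (St.e i l, St.e i m) := by
        rw [← map_sub]
        rfl
      have h6 : P (β i t ((1 - St.e i) l, (1 - St.e i) m)) = 0 := h4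
      rw [h5, map_sub, sub_eq_zero] at h6
      exact h6.symm
    · rw [St.e_big hi]
      rfl
  · rcases Nat.lt_or_ge i (k + 1) with hi | hi
    · have h4 := h3 (⟨i, hi⟩, t) b
      have h5 : (1 - St.e i) (δ i t (W b)).1 = 0 := congrArg (fun z => (z.1 : St.V)) h4
      have h6 : (1 - St.e i) (δ i t (W b)).2 = 0 := congrArg (fun z => (z.2 : St.V)) h4
      constructor
      · exact (sub_eq_zero.1 h5).symm
      · exact (sub_eq_zero.1 h6).symm
    · rw [St.e_big hi]
      exact ⟨rfl, rfl⟩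

end Pool.Agent.H94S
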