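import Pool.Agent.Lib.H94S.N3a
import Pool.Agent.Lib.H94S.N3b

/-!
# H94S, N3c: the node theorem
-/

set_option autoImplicit false
namespace Pool.Agent.H94S

variable {F : Type} [Field F] {r n k : ℕ}

/-- The node theorem.

PROOF. For `u = cond i t` take `D i t` from `structure_lemma` (`choose`). The numerical hypothesis of `choose_Q`: with
`A = finrank V ≤ 3n`, `B = ∑ b`, `200 d B ≤ 8 n`: `200 * (8 d A B) = 8 A (200 d B) ≤ 8 * 3n * 8n = 192 n^2 < 200 n^2`.
Then `β i t`, `δ i t` for this `Q` (`choose`), `choose_PW` with `n' = 200 d n`, `r = 1000 d`: `4 (200 d n + 4 d (A + B)) ≤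
800 d n + 16 d * 4 n = 864 d n ≤ 1000 d n ≤ r * 4 * finrank (range Q)` (`B ≤ n`). Then `α` (`choose`); `aug u = 0`
kills `aug u • a`, `aug u • b`. In `Blk` take `β = P ∘ β i t ∘ inl`, `γ = P ∘ β i t ∘ inr`, `D = D i t Q`, `δ = fst ∘ δ i t ∘ W`,
`ε = snd ∘ δ i t ∘ W`. -/
theorem node [Finite F] {d : ℕ} (hd : 0 < d) {n k : ℕ} (hn : 0 < n) (St : Stage F (1000 * d) n k)
    (hA : Module.finrank F St.V ≤ 3 * n)
    (hB : 200 * d * ∑ i ∈ Finset.range k, St.b (i + 1) ≤ 8 * n)
    (cond : ℕ → Fin d → T F (1000 * d)) (hc : ∀ i t, aug F (1000 * d) (cond i t) = 0) :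
    ∃ (Q : (Fin n → F) →ₗ[F] (Fin n → F))
      (P : (Fin (1000 * d) → Fin n → F) →ₗ[F] (Fin (200 * d * n) → F))
      (W : (Fin (200 * d * n) → F) →ₗ[F] (Fin (1000 * d) → Fin n → F)),
      (∀ b, P (fun j => Q (W b j)) = b) ∧ ∀ i t, Blk St (200 * d * n) Q P W (cond i t) i := by
  classical
  choose D hD using fun (i : ℕ) (t : Fin d) => structure_lemma St (cond i t)
  have hnum : 8 * (d * (Module.finrank F St.V * ∑ i ∈ Finset.range k, St.b (i + 1))) < n * n := by
    generalize Module.finrank F St.V = A at hA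
    generalize ∑ i ∈ Finset.range k, St.b (i + 1) = B at hB
    have h1 : 8 * A * (200 * d * B) ≤ 8 * (3 * n) * (8 * n) :=
      Nat.mul_le_mul (Nat.mul_le_mul_left 8 hA) hB
    have h2 : 0 < n * n := Nat.mul_pos hn hn
    have h3 : 200 * (8 * (d * (A * B))) = 8 * A * (200 * d * B) := by ring
    have h4 : 8 * (3 * n) * (8 * n) = 192 * (n * n) := by ring
    omega
  obtain ⟨Q, hQr, hQ⟩ := choose_Q St D hnum
  choose β δ hβ using fun (i : ℕ) (t : Fin d) => hD i t Q
  have hnum2 : 200 * d * n + 4 * (d * (Module.finrank F St.V +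
      ∑ i ∈ Finset.range k, St.b (i + 1))) ≤
      1000 * d * Module.finrank F (LinearMap.range Q) := by
    generalize Module.finrank F St.V = A at hA
    generalize ∑ i ∈ Finset.range k, St.b (i + 1) = B at hB
    generalize Module.finrank F (LinearMap.range Q) = R at hQr
    have hBn : B ≤ n := by
      have h1 : 200 * B ≤ 200 * d * B := by
        calc 200 * B = 200 * 1 * B := by ring
          _ ≤ 200 * d * B := by gcongr; exact hd
      omega
    have h2 : 4 * (200 * d * n + 4 * (d * (A + B))) ≤ 4 * (200 * d * n + 4 * (d * (3 * n + n))) := by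
      gcongr
    have h3 : 1000 * d * n ≤ 1000 * d * (4 * R) := Nat.mul_le_mul_left _ hQr.le
    have h4 : 4 * (200 * d * n + 4 * (d * (3 * n + n))) = 864 * (d * n) := by ring
    have h5 : 1000 * d * n = 1000 * (d * n) := by ring
    have h6 : 1000 * d * (4 * R) = 4 * (1000 * d * R) := by ring
    omega
  obtain ⟨P, W, hPW, hPβ, hWδ⟩ := choose_PW St Q (200 * d * n) β δ hnum2
  refine ⟨Q, P, W, hPW, fun i t => ?_⟩
  obtain ⟨α, hα⟩ := hβ i t (200 * d * n) P W
  refine ⟨α, P ∘ₗ β i t ∘ₗ LinearMap.inl F St.V St.V, P ∘ₗ β i t ∘ₗ LinearMap.inr F St.V St.V,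
    D i t Q, LinearMap.fst F St.V St.V ∘ₗ δ i t ∘ₗ W, LinearMap.snd F St.V St.V ∘ₗ δ i t ∘ₗ W,
    fun a b l m => ?_, (hQ i t).1, (hQ i t).2, fun v => ?_, fun v => ?_, fun b => ?_, fun b => ?_⟩
  · rw [hα, hc]
    have hsplit : β i t (l, m) = β i t (l, 0) + β i t (0, m) := by
      rw [← map_add]
      simp
    rw [hsplit]
    simp [add_assoc]
  · have := hPβ i t v 0
    simpa using this
  · have := hPβ i t 0 v
    simpa using this
  · exact (hWδ i t b).1
  · exact (hWδ i t b).2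

end Pool.Agent.H94S
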