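import Pool.Agent.Lib.H94S.N3

/-!
# H94S, N3d: dimensions of the next stage
-/

set_option autoImplicit false
namespace Pool.Agent.H94S

variable {F : Type} [Field F] {r n k : ℕ}

/-- Dimension of the next stage. PROOF. `Module.finrank_prod`, `Module.finrank_fin_fun`. -/
theorem next_finrank (St : Stage F r n k) (n' : ℕ) :
    Module.finrank F (Nx F n' St.V) = 2 * n' + 2 * Module.finrank F St.V := by
  rw [Module.finrank_prod, Module.finrank_prod, Module.finrank_prod, Module.finrank_fin_fun]
  ring

/-- PROOF. `range (1 - nextE (i+1))` is contained in the image of the linear map `range (1 - e i) × range (1 - e i) → Nx`,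
`(y, z) ↦ (0, 0, y, z)` (`(1 - nextE (i+1)) (a, b, l, m) = (0, 0, (1 - e i) l, (1 - e i) m)`, `nextE_succ`);
`LinearMap.finrank_range_le`, `Submodule.finrank_mono`, `Module.finrank_prod`. -/
theorem next_b (St : Stage F r n k) (n' i : ℕ) :
    Module.finrank F (LinearMap.range (1 - nextE St n' (i + 1))) ≤ 2 * St.b i := by
  let R := LinearMap.range (1 - St.e i)
  let f : (R × R) →ₗ[F] Nx F n' St.V :=
    LinearMap.prod 0 (LinearMap.prod 0 (LinearMap.prodMap R.subtype R.subtype))
  have h1 : LinearMap.range (1 - nextE St n' (i + 1)) ≤ LinearMap.range f := by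
    rintro _ ⟨⟨a, b, l, m⟩, rfl⟩
    refine ⟨(⟨(1 - St.e i) l, ⟨l, rfl⟩⟩, ⟨(1 - St.e i) m, ⟨m, rfl⟩⟩), ?_⟩
    have h2 : (1 - nextE St n' (i + 1)) (a, b, l, m) =
        (a, b, l, m) - (a, b, St.e i l, St.e i m) := rfl
    rw [h2]
    simp [f]
  calc Module.finrank F (LinearMap.range (1 - nextE St n' (i + 1)))
      ≤ Module.finrank F (LinearMap.range f) := Submodule.finrank_mono h1
    _ ≤ Module.finrank F (R × R) := LinearMap.finrank_range_le f
    _ = 2 * St.b i := by
      rw [Module.finrank_prod, Stage.b]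
      ring

/-- PROOF. `St.e0`, `1 - 0 = 1`, `LinearMap.range_id`, `finrank_top`. -/
theorem b_zero (St : Stage F r n k) : St.b 0 = Module.finrank F St.V := by
  have h : LinearMap.range (1 - St.e 0) = ⊤ := by
    rw [St.e0, sub_zero]
    exact LinearMap.range_id
  rw [Stage.b, h, finrank_top]

end Pool.Agent.H94S
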