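import Pool.Agent.Lib.H94S.N3

/-!
# H94S, N4: the invariant (definition)
-/

set_option autoImplicit false
namespace Pool.Agent.H94S

variable {F : Type} [Field F] {r n k : ℕ}

/-- The invariant of a stage for a tuple `U`: `J` levels down to the next barrier, exponent `N`. -/
structure Inv (St : Stage F r n k) {d : ℕ} (U : Fin d → T F r) (J N : ℕ) : Prop where
  comm : ∀ t v, St.e J (St.rep (U t) v) = St.rep (U t) (St.e J v)
  up : ∀ l : List (Fin d), 2 * (2 ^ J - 1) ≤ l.length → ∀ v, St.e J v = v →
    (l.map fun t => St.rep (U t)).prod v = 0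
  dn : ∀ l : List (Fin d), N ≤ l.length → ∀ v, St.e J v = 0 →
    (l.map fun t => St.rep (U t)).prod v = 0

end Pool.Agent.H94S
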