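import Pool.Agent.Lib.H94S.N4

/-!
# H94S, N4a: the invariant of the base stage
-/

set_option autoImplicit false
namespace Pool.Agent.H94S

variable {F : Type} [Field F] {r n k : ℕ}

theorem n4a_shape (F : Type) [Field F] (r : ℕ) (u : T F r) :
    ∃ c : F, ∀ a b : Fin 1 → F, (baseStage F r).rep u (a, b) =
      (aug F r u • a + c • b, aug F r u • b) := by
  induction u using FreeAlgebra.induction with
  | grade0 c =>
    refine ⟨0, fun a b => ?_⟩
    rw [AlgHom.commutes, AlgHom.commutes, Algebra.algebraMap_eq_smul_one]
    change c • ((a, b) : (Fin 1 → F) × (Fin 1 → F)) = _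
    simp
  | grade1 g =>
    cases g with
    | x =>
      refine ⟨1, fun a b => ?_⟩
      have h1 : (baseStage F r).rep (FreeAlgebra.ι F Gen.x) = (baseStage F r).act Gen.x := by
        simp [Stage.rep]
      rw [h1]
      have h2 : aug F r (FreeAlgebra.ι F Gen.x) = 0 := by simp [aug]
      rw [h2]
      change ((b, 0) : (Fin 1 → F) × (Fin 1 → F)) = _
      simp
    | p j =>
      refine ⟨0, fun a b => ?_⟩
      have h1 : (baseStage F r).rep (FreeAlgebra.ι F (Gen.p j)) = (baseStage F r).act (Gen.p j) := by
        simp [Stage.rep]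
      rw [h1]
      have h2 : aug F r (FreeAlgebra.ι F (Gen.p j)) = 0 := by simp [aug]
      rw [h2]
      change ((0, 0) : (Fin 1 → F) × (Fin 1 → F)) = _
      simp
    | q =>
      refine ⟨0, fun a b => ?_⟩
      have h1 : (baseStage F r).rep (FreeAlgebra.ι F Gen.q) = (baseStage F r).act Gen.q := by
        simp [Stage.rep]
      rw [h1]
      have h2 : aug F r (FreeAlgebra.ι F Gen.q) = 0 := by simp [aug]
      rw [h2]
      change ((0, 0) : (Fin 1 → F) × (Fin 1 → F)) = _
      simp
    | w j =>
      refine ⟨0, fun a b => ?_⟩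
      have h1 : (baseStage F r).rep (FreeAlgebra.ι F (Gen.w j)) = (baseStage F r).act (Gen.w j) := by
        simp [Stage.rep]
      rw [h1]
      have h2 : aug F r (FreeAlgebra.ι F (Gen.w j)) = 0 := by simp [aug]
      rw [h2]
      change ((0, 0) : (Fin 1 → F) × (Fin 1 → F)) = _
      simp
  | mul u v hu hv =>
    obtain ⟨cu, hu⟩ := hu
    obtain ⟨cv, hv⟩ := hv
    refine ⟨aug F r u * cv + aug F r v * cu, fun a b => ?_⟩
    rw [map_mul]
    change (baseStage F r).rep u ((baseStage F r).rep v (a, b)) = _
    rw [hv, hu, map_mul]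
    refine Prod.ext ?_ ?_
    · simp only [smul_add, smul_smul, add_smul]
      rw [mul_comm cu (aug F r v), add_assoc]
    · simp only [smul_smul]
  | add u v hu hv =>
    obtain ⟨cu, hu⟩ := hu
    obtain ⟨cv, hv⟩ := hv
    refine ⟨cu + cv, fun a b => ?_⟩
    rw [map_add]
    change (baseStage F r).rep u (a, b) + (baseStage F r).rep v (a, b) = _
    rw [hu, hv, map_add]
    change (aug F r u • a + cu • b + (aug F r v • a + cv • b), aug F r u • b + aug F r v • b) = _
    refine Prod.ext ?_ ?_
    · simp only [add_smul]
      abel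
    · simp only [add_smul]

/-- PROOF. `J ≥ 1`, so `e J = 1` on the base stage (`e J = if J = 0 then 0 else 1`); `dn` is about `v = 0`. For `u` with
`aug u = 0` there is `c` with `rep u = c • act x` on the base stage, hence `rep u (a, b) = (c • b, 0)` and products of two
such operators vanish: prove by `FreeAlgebra.induction` (names `grade0`, `grade1`) that for EVERY `u` there is `c` with
`rep u (a, b) = (aug u • a + c • b, aug u • b)` (for a product: `c = aug u * c_v + aug v * c_u`). A list of length
`≥ 2 (2^J - 1) ≥ 2` is `s :: t :: l'` (or use `List` splitting at the end: write `l = l' ++ [t, s]`,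
`List.prod_append`), operators of this form kill everything after two steps. -/
theorem inv_base {d : ℕ} (U : Fin d → T F r) (hU : ∀ t, aug F r (U t) = 0) {J N : ℕ} (hJ : 1 ≤ J) :
    Inv (baseStage F r) U J N := by
  have hJ0 : J ≠ 0 := by omega
  have he : (baseStage F r).e J = 1 := by
    change (if J = 0 then (0 : Module.End F ((Fin 1 → F) × (Fin 1 → F))) else 1) = 1
    rw [if_neg hJ0]
  refine ⟨fun t v => ?_, fun l hl v hv => ?_, fun l hl v hv => ?_⟩
  · rw [he]
    rfl
  · have h2 : 2 ≤ l.length := by
      have : 2 ^ 1 ≤ 2 ^ J := Nat.pow_le_pow_right (by norm_num) hJ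
      omega
    have hl0 : l.length = (l.length - 2) + 2 := by omega
    have hsplit : l = l.take (l.length - 2) ++ l.drop (l.length - 2) :=
      (List.take_append_drop _ _).symm
    have hd : (l.drop (l.length - 2)).length = 2 := by
      rw [List.length_drop]
      omega
    obtain ⟨s, t, hst⟩ : ∃ s t, l.drop (l.length - 2) = [s, t] := List.length_eq_two.mp hd
    rw [hsplit, hst, List.map_append, List.prod_append, Module.End.mul_apply]
    have h0 : (List.map (fun t => (baseStage F r).rep (U t)) [s, t]).prod v = 0 := by
      obtain ⟨cs, hs⟩ := n4a_shape F r (U s)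
      obtain ⟨ct, ht⟩ := n4a_shape F r (U t)
      obtain ⟨a, b⟩ := v
      rw [List.map_cons, List.map_cons, List.map_nil, List.prod_cons, List.prod_cons,
        List.prod_nil, mul_one]
      change (baseStage F r).rep (U s) ((baseStage F r).rep (U t) (a, b)) = _
      rw [ht, hs, hU, hU, zero_smul, zero_smul, smul_zero, zero_add, smul_zero]
      rfl
    rw [h0, map_zero]
  · rw [he] at hv
    have : v = 0 := hv
    rw [this, map_zero]

end Pool.Agent.H94S
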