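import Pool.Agent.Lib.H94S.N4

/-!
# H94S, N4b: the step when the new node is not a barrier
-/

set_option autoImplicit false
namespace Pool.Agent.H94S

variable {F : Type} [Field F] {r n k : ℕ}

theorem n4b_list {ι V V' : Type} [AddCommGroup V] [Module F V] [AddCommGroup V'] [Module F V']
    (φ : ι → Module.End F V) (ψ : ι → Module.End F V') (S : V → Prop) (pr : V → V')
    (hS : ∀ t v, S v → S (φ t v)) (hpr : ∀ t v, S v → pr (φ t v) = ψ t (pr v)) (l : List ι) :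
    ∀ v, S v → S ((l.map φ).prod v) ∧ pr ((l.map φ).prod v) = (l.map ψ).prod (pr v) := by
  induction l with
  | nil =>
    intro v hv
    exact ⟨hv, rfl⟩
  | cons t l ih =>
    intro v hv
    obtain ⟨h1, h2⟩ := ih v hv
    rw [List.map_cons, List.prod_cons, List.map_cons, List.prod_cons]
    change S (φ t ((l.map φ).prod v)) ∧ pr (φ t ((l.map φ).prod v)) = ψ t ((l.map ψ).prod (pr v))
    exact ⟨hS t _ h1, by rw [hpr t _ h1, h2]⟩

theorem n4b_split {ι : Type} (l : List ι) (a b : ℕ) (h : a + b ≤ l.length) :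
    ∃ l1 l2, l = l1 ++ l2 ∧ a ≤ l1.length ∧ l2.length = b := by
  refine ⟨l.take (l.length - b), l.drop (l.length - b), (List.take_append_drop _ _).symm, ?_, ?_⟩
  · rw [List.length_take]
    omega
  · rw [List.length_drop]
    omega

theorem n4b_prod {ι V : Type} [AddCommGroup V] [Module F V] (φ : ι → Module.End F V)
    (l1 l2 : List ι) (v : V) :
    ((l1 ++ l2).map φ).prod v = (l1.map φ).prod ((l2.map φ).prod v) := by
  rw [List.map_append, List.prod_append]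
  rfl

/-- The abstract step. -/
theorem n4b_core {d n' i N : ℕ} {V : Type} [AddCommGroup V] [Module F V]
    (φ : Fin d → Module.End F (Nx F n' V)) (ψ : Fin d → Module.End F V) (e : Module.End F V)
    (α : Fin d → (Fin n' → F) →ₗ[F] (Fin n' → F)) (β γ : Fin d → V →ₗ[F] (Fin n' → F))
    (D : Fin d → Module.End F V) (δ ε : Fin d → (Fin n' → F) →ₗ[F] V)
    (hφ : ∀ t a b l m, φ t (a, b, l, m) =
      (α t b + β t l + γ t m, 0, ψ t l + D t m + δ t b, ψ t m + ε t b))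
    (h1 : ∀ t v, e (D t v) = D t v) (h2 : ∀ t v, D t (e v) = D t v)
    (h3 : ∀ t v, β t (e v) = β t v) (h4 : ∀ t v, γ t (e v) = γ t v)
    (h5 : ∀ t b, e (δ t b) = δ t b) (h6 : ∀ t b, e (ε t b) = ε t b)
    (comm : ∀ t v, e (ψ t v) = ψ t (e v))
    (up : ∀ l : List (Fin d), 2 * (2 ^ i - 1) ≤ l.length → ∀ v, e v = v →
      (l.map ψ).prod v = 0)
    (dn : ∀ l : List (Fin d), N ≤ l.length → ∀ v, e v = 0 → (l.map ψ).prod v = 0) :
    (∀ t a b l m, ((φ t (a, b, l, m)).1, (φ t (a, b, l, m)).2.1, e (φ t (a, b, l, m)).2.2.1,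
      e (φ t (a, b, l, m)).2.2.2) = φ t (a, b, e l, e m)) ∧
    (∀ l : List (Fin d), 2 * (2 ^ (i + 1) - 1) ≤ l.length → ∀ v : Nx F n' V,
      e v.2.2.1 = v.2.2.1 → e v.2.2.2 = v.2.2.2 → (l.map φ).prod v = 0) ∧
    (∀ l : List (Fin d), N ≤ l.length → ∀ v : Nx F n' V, v.1 = 0 → v.2.1 = 0 →
      e v.2.2.1 = 0 → e v.2.2.2 = 0 → (l.map φ).prod v = 0) := by
  have f1 : ∀ t (v : Nx F n' V), (φ t v).1 = α t v.2.1 + β t v.2.2.1 + γ t v.2.2.2 := by
    rintro t ⟨a, b, l, m⟩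
    rw [hφ]
  have f2 : ∀ t (v : Nx F n' V), (φ t v).2.1 = 0 := by
    rintro t ⟨a, b, l, m⟩
    rw [hφ]
  have f3 : ∀ t (v : Nx F n' V), (φ t v).2.2.1 = ψ t v.2.2.1 + D t v.2.2.2 + δ t v.2.1 := by
    rintro t ⟨a, b, l, m⟩
    rw [hφ]
  have f4 : ∀ t (v : Nx F n' V), (φ t v).2.2.2 = ψ t v.2.2.2 + ε t v.2.1 := by
    rintro t ⟨a, b, l, m⟩
    rw [hφ]
  refine ⟨?_, ?_, ?_⟩
  · intro t a b l m
    rw [hφ, hφ]
    simp only [map_add, h1, h2, h3, h4, h5, h6, comm]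
  · intro l hl v hv1 hv2
    have hpow : 2 * (2 ^ (i + 1) - 1) = 1 + 2 * (2 ^ i - 1) + 2 * (2 ^ i - 1) + 1 := by
      have h0 : 0 < 2 ^ i := by positivity
      rw [pow_succ]
      omega
    rw [hpow] at hl
    obtain ⟨l', l4, rfl, hl', hl4⟩ := n4b_split l _ _ hl
    obtain ⟨l'', l3, rfl, hl'', hl3⟩ := n4b_split l' _ _ hl'
    obtain ⟨l1, l2, rfl, hl1, hl2⟩ := n4b_split l'' _ _ hl''
    obtain ⟨t, rfl⟩ := List.length_eq_one_iff.mp hl4
    rw [n4b_prod, n4b_prod, n4b_prod]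
    have q4 : ((List.map φ [t]).prod v).2.1 = 0 ∧
        e ((List.map φ [t]).prod v).2.2.1 = ((List.map φ [t]).prod v).2.2.1 ∧
        e ((List.map φ [t]).prod v).2.2.2 = ((List.map φ [t]).prod v).2.2.2 := by
      rw [List.map_cons, List.map_nil, List.prod_cons, List.prod_nil, mul_one]
      refine ⟨f2 t v, ?_, ?_⟩
      · rw [f3, map_add, map_add, comm, hv1, h1, h5]
      · rw [f4, map_add, comm, hv2, h6]
    generalize (List.map φ [t]).prod v = v4 at q4 ⊢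
    obtain ⟨q41, q42, q43⟩ := q4
    obtain ⟨⟨q31, q32, q33⟩, q34⟩ := n4b_list φ ψ
      (fun w : Nx F n' V => w.2.1 = 0 ∧ e w.2.2.1 = w.2.2.1 ∧ e w.2.2.2 = w.2.2.2)
      (fun w => w.2.2.2)
      (by
        rintro s w ⟨w1, w2, w3⟩
        refine ⟨f2 s w, ?_, ?_⟩
        · rw [f3, map_add, map_add, comm, w2, h1, h5]
        · rw [f4, map_add, comm, w3, h6])
      (by
        rintro s w ⟨w1, w2, w3⟩
        change (φ s w).2.2.2 = _
        rw [f4, w1, map_zero, add_zero]) l3 v4 ⟨q41, q42, q43⟩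
    rw [up l3 hl3.ge _ q43] at q34
    generalize (List.map φ l3).prod v4 = v3 at q31 q32 q33 q34 ⊢
    obtain ⟨⟨q21, q22, q23⟩, q24⟩ := n4b_list φ ψ
      (fun w : Nx F n' V => w.2.1 = 0 ∧ e w.2.2.1 = w.2.2.1 ∧ w.2.2.2 = 0)
      (fun w => w.2.2.1)
      (by
        rintro s w ⟨w1, w2, w3⟩
        refine ⟨f2 s w, ?_, ?_⟩
        · rw [f3, map_add, map_add, comm, w2, h1, h5]
        · rw [f4, w3, w1, map_zero, map_zero, add_zero])
      (by
        rintro s w ⟨w1, w2, w3⟩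
        change (φ s w).2.2.1 = _
        rw [f3, w1, w3, map_zero, map_zero, add_zero, add_zero]) l2 v3 ⟨q31, q32, q34⟩
    rw [up l2 hl2.ge _ q32] at q24
    generalize (List.map φ l2).prod v3 = v2 at q21 q22 q23 q24 ⊢
    obtain ⟨s, l1', rfl⟩ : ∃ s l1', l1 = l1' ++ [s] := by
      obtain ⟨l1', l1'', e1, _, e2⟩ := n4b_split l1 0 1 (by omega)
      obtain ⟨s, rfl⟩ := List.length_eq_one_iff.mp e2
      exact ⟨s, l1', e1⟩
    rw [n4b_prod]
    have : (List.map φ [s]).prod v2 = 0 := by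
      rw [List.map_cons, List.map_nil, List.prod_cons, List.prod_nil, mul_one]
      refine Prod.ext ?_ (Prod.ext ?_ (Prod.ext ?_ ?_))
      · rw [f1, q21, q24, q23, map_zero, map_zero, map_zero, add_zero, add_zero]
        rfl
      · rw [f2]
        rfl
      · rw [f3, q21, q24, q23, map_zero, map_zero, map_zero, add_zero, add_zero]
        rfl
      · rw [f4, q21, q23, map_zero, map_zero, add_zero]
        rfl
    rw [this, map_zero]
  · intro l hl v hv1 hv2 hv3 hv4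
    have hS : ∀ s (w : Nx F n' V), (w.1 = 0 ∧ w.2.1 = 0 ∧ e w.2.2.1 = 0 ∧ e w.2.2.2 = 0) →
        ((φ s w).1 = 0 ∧ (φ s w).2.1 = 0 ∧ (φ s w).2.2.1 = ψ s w.2.2.1 ∧
          (φ s w).2.2.2 = ψ s w.2.2.2) := by
      rintro s w ⟨w1, w2, w3, w4⟩
      have b1 : β s w.2.2.1 = 0 := by rw [← h3, w3, map_zero]
      have b2 : γ s w.2.2.2 = 0 := by rw [← h4, w4, map_zero]
      have b3 : D s w.2.2.2 = 0 := by rw [← h2, w4, map_zero]
      refine ⟨?_, f2 s w, ?_, ?_⟩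
      · rw [f1, w2, b1, b2, map_zero, add_zero, add_zero]
      · rw [f3, w2, b3, map_zero, add_zero, add_zero]
      · rw [f4, w2, map_zero, add_zero]
    have hS' : ∀ s (w : Nx F n' V), (w.1 = 0 ∧ w.2.1 = 0 ∧ e w.2.2.1 = 0 ∧ e w.2.2.2 = 0) →
        ((φ s w).1 = 0 ∧ (φ s w).2.1 = 0 ∧ e (φ s w).2.2.1 = 0 ∧ e (φ s w).2.2.2 = 0) := by
      intro s w hw
      obtain ⟨w1, w2, w3, w4⟩ := hS s w hw
      refine ⟨w1, w2, ?_, ?_⟩
      · rw [w3, comm, hw.2.2.1, map_zero]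
      · rw [w4, comm, hw.2.2.2, map_zero]
    obtain ⟨⟨r1, r2, _, _⟩, r3⟩ := n4b_list φ ψ
      (fun w : Nx F n' V => w.1 = 0 ∧ w.2.1 = 0 ∧ e w.2.2.1 = 0 ∧ e w.2.2.2 = 0)
      (fun w => w.2.2.1) hS' (fun s w hw => (hS s w hw).2.2.1) l v ⟨hv1, hv2, hv3, hv4⟩
    obtain ⟨_, r4⟩ := n4b_list φ ψ
      (fun w : Nx F n' V => w.1 = 0 ∧ w.2.1 = 0 ∧ e w.2.2.1 = 0 ∧ e w.2.2.2 = 0)
      (fun w => w.2.2.2) hS' (fun s w hw => (hS s w hw).2.2.2) l v ⟨hv1, hv2, hv3, hv4⟩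
    rw [dn l hl _ hv3] at r3
    rw [dn l hl _ hv4] at r4
    exact Prod.ext r1 (Prod.ext r2 (Prod.ext r3 r4))

/-- The step when the new node is not a barrier of `U`.

PROOF. `max i 1 = i`. Write `φ t = nextRep … (U t)`; `Blk` gives `φ t (a,b,l,m) = (α b + β l + γ m, 0, u l + D m + δ b, u m + ε b)`
with `e_i D = D = D e_i`, `β e_i = β`, `γ e_i = γ`, `e_i δ = δ`, `e_i ε = ε`; the projection of the next stage at `i + 1` is
`(a,b,l,m) ↦ (a,b,e_i l,e_i m)` (`nextE_succ`; `(nextStage …).rep = nextRep …` by `rfl`).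
`comm`: direct, with `I.comm`. 
`up`: let `v = (a,b,l,m)` with `e_i l = l`, `e_i m = m`. Call a vector `(a,b,l,m)` of type 3 if `e_i l = l, e_i m = m`, type 2 if
moreover `b = 0`, type 1 if moreover `m = 0`, type 0 if moreover `l = 0` (so `(a,0,0,0)`). Each `φ t` preserves every type, maps
type 3 to type 2 and kills type 0. A product of `2 (2^i - 1)` of them maps type 2 to type 1 (on type 2 vectors the `m`
component of the product is the product applied to `m`: induction on the list, then `I.up`), and maps type 1 to type 0 (the `l`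
component). A list of length `≥ 2 (2^(i+1) - 1) = 1 + 2 (2^i - 1) + 2 (2^i - 1) + 1` is split as `l1 ++ l2 ++ l3 ++ l4`,
`l4` of length 1 acting first (`List.take`, `List.drop`, `List.prod_append`, `List.map_append`).
`dn`: `v = (0,0,l,m)` with `e_i l = 0`, `e_i m = 0`; then `β l = β (e_i l) = 0`, `γ m = 0`, `D m = D (e_i m) = 0`, so
`φ t v = (0,0,u l,u m)`, again of this form by `I.comm`; by induction on the list the product is `(0,0,prod l, prod m)`;
`I.dn`. -/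
theorem inv_step {d n' i N : ℕ} {St : Stage F r n k} {U : Fin d → T F r} (hi : 1 ≤ i)
    (I : Inv St U i N) {Q : (Fin n → F) →ₗ[F] (Fin n → F)}
    {P : (Fin r → Fin n → F) →ₗ[F] (Fin n' → F)} {W : (Fin n' → F) →ₗ[F] (Fin r → Fin n → F)}
    (h : ∀ b, P (fun j => Q (W b j)) = b) (hb : ∀ t, Blk St n' Q P W (U t) i) :
    Inv (nextStage St n' Q P W h) U (i + 1) N := by
  choose α β γ D δ ε hφ h1 h2 h3 h4 h5 h6 using hb
  rw [Nat.max_eq_left hi] at h1 h2
  obtain ⟨c1, c2, c3⟩ := n4b_core (i := i) (N := N) (fun t => nextRep St n' Q P W (U t))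
    (fun t => St.rep (U t)) (St.e i) α β γ D δ ε hφ
    (fun t v => LinearMap.congr_fun (h1 t) v) (fun t v => LinearMap.congr_fun (h2 t) v)
    h3 h4 h5 h6 I.comm I.up I.dn
  refine ⟨?_, ?_, ?_⟩
  · rintro t ⟨a, b, l, m⟩
    exact c1 t a b l m
  · rintro l hl ⟨a, b, x, y⟩ hv
    have hv' : ((a, b, St.e i x, St.e i y) : Nx F n' St.V) = (a, b, x, y) := hv
    rw [Prod.mk.injEq, Prod.mk.injEq, Prod.mk.injEq] at hv'
    exact c2 l hl (a, b, x, y) hv'.2.2.1 hv'.2.2.2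
  · rintro l hl ⟨a, b, x, y⟩ hv
    have hv' : ((a, b, St.e i x, St.e i y) : Nx F n' St.V) = (0, 0, 0, 0) := hv
    rw [Prod.mk.injEq, Prod.mk.injEq, Prod.mk.injEq] at hv'
    exact c3 l hl (a, b, x, y) hv'.1 hv'.2.1 hv'.2.2.1 hv'.2.2.2

end Pool.Agent.H94S
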