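import Pool.Agent.Lib.H94S.N4

/-!
# H94S, N4c: the step when the new node is a barrier
-/

set_option autoImplicit false
namespace Pool.Agent.H94S

variable {F : Type} [Field F] {r n k : ℕ}

theorem n4c_list {ι V V' : Type} [AddCommGroup V] [Module F V] [AddCommGroup V'] [Module F V']
    (φ : ι → Module.End F V) (ψ : ι → Module.End F V') (S : V → Prop) (pr : V → V')
    (hS : ∀ t v, S v → S (φ t v)) (hpr : ∀ t v, S v → pr (φ t v) = ψ t (pr v)) (l : List ι) :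
    ∀ v, S v → S ((l.map φ).prod v) ∧ pr ((l.map φ).prod v) = (l.map ψ).prod (pr v) := by
  induction l with
  | nil =>
    intro v hv
    exact ⟨hv, rfl⟩
  | cons t l ih =>
    intro v hv
    obtain ⟨h1, h2⟩ := ih v hv
    rw [List.map_cons, List.prod_cons, List.map_cons, List.prod_cons]
    change S (φ t ((l.map φ).prod v)) ∧ pr (φ t ((l.map φ).prod v)) = ψ t ((l.map ψ).prod (pr v))
    exact ⟨hS t _ h1, by rw [hpr t _ h1, h2]⟩

theorem n4c_split {ι : Type} (l : List ι) (a b : ℕ) (h : a + b ≤ l.length) :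
    ∃ l1 l2, l = l1 ++ l2 ∧ a ≤ l1.length ∧ l2.length = b := by
  refine ⟨l.take (l.length - b), l.drop (l.length - b), (List.take_append_drop _ _).symm, ?_, ?_⟩
  · rw [List.length_take]
    omega
  · rw [List.length_drop]
    omega

theorem n4c_prod {ι V : Type} [AddCommGroup V] [Module F V] (φ : ι → Module.End F V)
    (l1 l2 : List ι) (v : V) :
    ((l1 ++ l2).map φ).prod v = (l1.map φ).prod ((l2.map φ).prod v) := by
  rw [List.map_append, List.prod_append]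
  rfl

/-- The abstract step. -/
theorem n4c_core {d n' J N : ℕ} {V : Type} [AddCommGroup V] [Module F V]
    (φ : Fin d → Module.End F (Nx F n' V)) (ψ : Fin d → Module.End F V) (e : Module.End F V)
    (α : Fin d → (Fin n' → F) →ₗ[F] (Fin n' → F)) (D : Fin d → Module.End F V)
    (hφ : ∀ t a b l m, φ t (a, b, l, m) = (α t b, 0, ψ t l + D t m, ψ t m))
    (hN : 4 * (2 ^ J - 1) ≤ N) (ee : ∀ v, e (e v) = e v)
    (h1 : ∀ t v, e (D t v) = D t v) (h2 : ∀ t v, D t (e v) = D t v)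
    (comm : ∀ t v, e (ψ t v) = ψ t (e v))
    (up : ∀ l : List (Fin d), 2 * (2 ^ J - 1) ≤ l.length → ∀ v, e v = v →
      (l.map ψ).prod v = 0)
    (dn : ∀ l : List (Fin d), N ≤ l.length → ∀ v, e v = 0 → (l.map ψ).prod v = 0) :
    (∀ l : List (Fin d), 2 ≤ l.length → ∀ v : Nx F n' V,
      v.2.2.1 = 0 → v.2.2.2 = 0 → (l.map φ).prod v = 0) ∧
    (∀ l : List (Fin d), N ≤ l.length → ∀ v : Nx F n' V, v.1 = 0 → v.2.1 = 0 →
      (l.map φ).prod v = 0) := by
  have f1 : ∀ t (v : Nx F n' V), (φ t v).1 = α t v.2.1 := by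
    rintro t ⟨a, b, l, m⟩
    rw [hφ]
  have f2 : ∀ t (v : Nx F n' V), (φ t v).2.1 = 0 := by
    rintro t ⟨a, b, l, m⟩
    rw [hφ]
  have f3 : ∀ t (v : Nx F n' V), (φ t v).2.2.1 = ψ t v.2.2.1 + D t v.2.2.2 := by
    rintro t ⟨a, b, l, m⟩
    rw [hφ]
  have f4 : ∀ t (v : Nx F n' V), (φ t v).2.2.2 = ψ t v.2.2.2 := by
    rintro t ⟨a, b, l, m⟩
    rw [hφ]
  refine ⟨?_, ?_⟩
  · intro l hl v hv1 hv2
    obtain ⟨l1, l2, rfl, _, hl2⟩ := n4c_split l 0 2 (by omega)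
    obtain ⟨s, t, rfl⟩ := List.length_eq_two.mp hl2
    rw [n4c_prod]
    have : (List.map φ [s, t]).prod v = 0 := by
      rw [List.map_cons, List.map_cons, List.map_nil, List.prod_cons, List.prod_cons,
        List.prod_nil, mul_one]
      change φ s (φ t v) = 0
      refine Prod.ext ?_ (Prod.ext ?_ (Prod.ext ?_ ?_))
      · rw [f1, f2, map_zero]
        rfl
      · rw [f2]
        rfl
      · rw [f3, f3, f4, hv1, hv2]
        simp
      · rw [f4, f4, hv2]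
        simp
    rw [this, map_zero]
  · intro l hl v hv1 hv2
    have hv : v = ((0, 0, e v.2.2.1, e v.2.2.2) : Nx F n' V) +
        ((0, 0, v.2.2.1 - e v.2.2.1, v.2.2.2 - e v.2.2.2) : Nx F n' V) := by
      refine Prod.ext ?_ (Prod.ext ?_ (Prod.ext ?_ ?_))
      · rw [hv1]
        exact (add_zero _).symm
      · rw [hv2]
        exact (add_zero _).symm
      · exact (add_sub_cancel _ _).symm
      · exact (add_sub_cancel _ _).symm
    rw [hv, map_add]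
    have g1 : (l.map φ).prod ((0, 0, e v.2.2.1, e v.2.2.2) : Nx F n' V) = 0 := by
      obtain ⟨l1, l2, rfl, hl1, hl2⟩ := n4c_split l (2 * (2 ^ J - 1)) (2 * (2 ^ J - 1)) (by omega)
      rw [n4c_prod]
      obtain ⟨⟨a1, a2, a3, a4⟩, a5⟩ := n4c_list φ ψ
        (fun w : Nx F n' V => w.1 = 0 ∧ w.2.1 = 0 ∧ e w.2.2.1 = w.2.2.1 ∧ e w.2.2.2 = w.2.2.2)
        (fun w => w.2.2.2)
        (by
          rintro s w ⟨w1, w2, w3, w4⟩
          refine ⟨?_, f2 s w, ?_, ?_⟩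
          · rw [f1, w2, map_zero]
          · rw [f3, map_add, comm, w3, h1]
          · rw [f4, comm, w4])
        (fun s w _ => f4 s w) l2 ((0, 0, e v.2.2.1, e v.2.2.2) : Nx F n' V)
        ⟨rfl, rfl, ee _, ee _⟩
      rw [up l2 hl2.ge _ (ee _)] at a5
      generalize (List.map φ l2).prod ((0, 0, e v.2.2.1, e v.2.2.2) : Nx F n' V) = v2 at a1 a2 a3 a4 a5 ⊢
      obtain ⟨⟨b1, b2, b3, b4⟩, b5⟩ := n4c_list φ ψ
        (fun w : Nx F n' V => w.1 = 0 ∧ w.2.1 = 0 ∧ e w.2.2.1 = w.2.2.1 ∧ w.2.2.2 = 0)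
        (fun w => w.2.2.1)
        (by
          rintro s w ⟨w1, w2, w3, w4⟩
          refine ⟨?_, f2 s w, ?_, ?_⟩
          · rw [f1, w2, map_zero]
          · rw [f3, map_add, comm, w3, h1]
          · rw [f4, w4, map_zero])
        (by
          rintro s w ⟨w1, w2, w3, w4⟩
          change (φ s w).2.2.1 = _
          rw [f3, w4, map_zero, add_zero]) l1 v2 ⟨a1, a2, a3, a5⟩
      rw [up l1 hl1 _ a3] at b5
      exact Prod.ext b1 (Prod.ext b2 (Prod.ext b5 b4))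
    have g2 : (l.map φ).prod
        ((0, 0, v.2.2.1 - e v.2.2.1, v.2.2.2 - e v.2.2.2) : Nx F n' V) = 0 := by
      have k1 : e (v.2.2.1 - e v.2.2.1) = 0 := by rw [map_sub, ee, sub_self]
      have k2 : e (v.2.2.2 - e v.2.2.2) = 0 := by rw [map_sub, ee, sub_self]
      have hS : ∀ s (w : Nx F n' V), (w.1 = 0 ∧ w.2.1 = 0 ∧ e w.2.2.1 = 0 ∧ e w.2.2.2 = 0) →
          ((φ s w).1 = 0 ∧ (φ s w).2.1 = 0 ∧ (φ s w).2.2.1 = ψ s w.2.2.1 ∧
            (φ s w).2.2.2 = ψ s w.2.2.2) := by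
        rintro s w ⟨w1, w2, w3, w4⟩
        have b3 : D s w.2.2.2 = 0 := by rw [← h2, w4, map_zero]
        refine ⟨?_, f2 s w, ?_, f4 s w⟩
        · rw [f1, w2, map_zero]
        · rw [f3, b3, add_zero]
      have hS' : ∀ s (w : Nx F n' V), (w.1 = 0 ∧ w.2.1 = 0 ∧ e w.2.2.1 = 0 ∧ e w.2.2.2 = 0) →
          ((φ s w).1 = 0 ∧ (φ s w).2.1 = 0 ∧ e (φ s w).2.2.1 = 0 ∧ e (φ s w).2.2.2 = 0) := by
        intro s w hw
        obtain ⟨w1, w2, w3, w4⟩ := hS s w hw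
        refine ⟨w1, w2, ?_, ?_⟩
        · rw [w3, comm, hw.2.2.1, map_zero]
        · rw [w4, comm, hw.2.2.2, map_zero]
      obtain ⟨⟨r1, r2, _, _⟩, r3⟩ := n4c_list φ ψ
        (fun w : Nx F n' V => w.1 = 0 ∧ w.2.1 = 0 ∧ e w.2.2.1 = 0 ∧ e w.2.2.2 = 0)
        (fun w => w.2.2.1) hS' (fun s w hw => (hS s w hw).2.2.1) l
        ((0, 0, v.2.2.1 - e v.2.2.1, v.2.2.2 - e v.2.2.2) : Nx F n' V) ⟨rfl, rfl, k1, k2⟩
      obtain ⟨_, r4⟩ := n4c_list φ ψ
        (fun w : Nx F n' V => w.1 = 0 ∧ w.2.1 = 0 ∧ e w.2.2.1 = 0 ∧ e w.2.2.2 = 0)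
        (fun w => w.2.2.2) hS' (fun s w hw => (hS s w hw).2.2.2) l
        ((0, 0, v.2.2.1 - e v.2.2.1, v.2.2.2 - e v.2.2.2) : Nx F n' V) ⟨rfl, rfl, k1, k2⟩
      rw [dn l hl _ k1] at r3
      rw [dn l hl _ k2] at r4
      exact Prod.ext r1 (Prod.ext r2 (Prod.ext r3 r4))
    rw [g1, g2, add_zero]

/-- The step when the new node is a barrier of `U`.

PROOF. `Blk` with `i = 0`: `max 0 1 = 1`, `e 0 = 0` (`St.e0`), so `β = γ = 0`, `δ = ε = 0` and `e_1 D = D = D e_1`: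
`φ t (a,b,l,m) = (α b, 0, u l + D m, u m)`. The projection of the next stage at `0 + 1` is `(a,b,l,m) ↦ (a,b,0,0)`.
`comm`: direct. `up`: `v = (a,b,0,0)`; `φ t v = (α b,0,0,0)`, and `φ` of that is `0`; length `≥ 2 (2^1 - 1) = 2`.
`dn`: `v = (0,0,l,m)`. Write `l = l1 + l2`, `m = m1 + m2`, `l1 = e_J l`, `l2 = l - e_J l` (so `e_J l2 = 0`), same for `m`.
On `(0,0,l2,m2)`: `D m2 = D (e_1 m2) = D (e_1 (e_J m2)) = 0` (`e_e'`, `1 ≤ J`), so the product of the list is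
`(0,0,prod l2, prod m2) = 0` (`I.comm`, `I.dn`, induction on the list). On `(0,0,l1,m1)`: `D m1 = e_1 (D m1)` is fixed by
`e_J` (`e_e`), so every `φ t` preserves the vectors `(0,0,l,m)` with `e_J l = l`, `e_J m = m`; a product of
`2 (2^J - 1)` of them kills the `m` component (`I.up`), the next `2 (2^J - 1)` kill the `l` component; the list has length
`≥ N ≥ 4 (2^J - 1)`. -/
theorem inv_barrier {d n' J N : ℕ} {St : Stage F r n k} {U : Fin d → T F r} (hJ : 1 ≤ J)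
    (hN : 4 * (2 ^ J - 1) ≤ N) (I : Inv St U J N) {Q : (Fin n → F) →ₗ[F] (Fin n → F)}
    {P : (Fin r → Fin n → F) →ₗ[F] (Fin n' → F)} {W : (Fin n' → F) →ₗ[F] (Fin r → Fin n → F)}
    (h : ∀ b, P (fun j => Q (W b j)) = b) (hb : ∀ t, Blk St n' Q P W (U t) 0) :
    Inv (nextStage St n' Q P W h) U 1 N := by
  choose α β γ D δ ε hφ h1 h2 h3 h4 h5 h6 using hb
  rw [Nat.max_eq_right (Nat.zero_le 1)] at h1 h2
  simp only [St.e0, LinearMap.zero_apply, map_zero] at h3 h4 h5 h6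
  have hφ' : ∀ t a b l m, nextRep St n' Q P W (U t) (a, b, l, m) =
      (α t b, 0, St.rep (U t) l + D t m, St.rep (U t) m) := by
    intro t a b l m
    rw [hφ, ← h3, ← h4, ← h5, ← h6]
    simp only [add_zero]
  have d1 : ∀ t v, St.e J (D t v) = D t v := by
    intro t v
    have : St.e 1 (D t v) = D t v := LinearMap.congr_fun (h1 t) v
    rw [← this, St.e_e hJ]
  have d2 : ∀ t v, D t (St.e J v) = D t v := by
    intro t v
    have h2' : ∀ v, D t (St.e 1 v) = D t v := fun v => LinearMap.congr_fun (h2 t) v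
    rw [← h2', St.e_e' hJ, h2']
  obtain ⟨c2, c3⟩ := n4c_core (J := J) (N := N) (fun t => nextRep St n' Q P W (U t))
    (fun t => St.rep (U t)) (St.e J) α D hφ' hN (fun v => St.e_e le_rfl v) d1 d2
    I.comm I.up I.dn
  have hE : ∀ a b l m, (nextStage St n' Q P W h).e 1 (a, b, l, m) =
      ((a, b, 0, 0) : Nx F n' St.V) := by
    intro a b l m
    change ((a, b, St.e 0 l, St.e 0 m) : Nx F n' St.V) = _
    rw [St.e0]
    rfl
  refine ⟨?_, ?_, ?_⟩
  · rintro t ⟨a, b, l, m⟩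
    have k1 : (nextStage St n' Q P W h).rep (U t) (a, b, l, m) =
      (α t b, 0, St.rep (U t) l + D t m, St.rep (U t) m) := hφ' t a b l m
    have k2 : (nextStage St n' Q P W h).rep (U t) (a, b, 0, 0) =
      (α t b, 0, St.rep (U t) 0 + D t 0, St.rep (U t) 0) := hφ' t a b 0 0
    rw [k1, hE, hE, k2, map_zero, map_zero, add_zero]
  · rintro l hl ⟨a, b, x, y⟩ hv
    rw [hE] at hv
    have hv' : ((a, b, 0, 0) : Nx F n' St.V) = (a, b, x, y) := hv
    rw [Prod.mk.injEq, Prod.mk.injEq, Prod.mk.injEq] at hv'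
    exact c2 l (by simpa using hl) (a, b, x, y) hv'.2.2.1.symm hv'.2.2.2.symm
  · rintro l hl ⟨a, b, x, y⟩ hv
    rw [hE] at hv
    have hv' : ((a, b, 0, 0) : Nx F n' St.V) = (0, 0, 0, 0) := hv
    rw [Prod.mk.injEq, Prod.mk.injEq, Prod.mk.injEq] at hv'
    exact c3 l hl (a, b, x, y) hv'.1 hv'.2.1

end Pool.Agent.H94S
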