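import Pool.Agent.Lib.H94S.N3c
import Pool.Agent.Lib.H94S.N3d
import Pool.Agent.Lib.H94S.N4a
import Pool.Agent.Lib.H94S.N4b
import Pool.Agent.Lib.H94S.N4c

/-!
# H94S, N6a: the tower
-/

set_option autoImplicit false
namespace Pool.Agent.H94S

variable {F : Type} [Field F]

/-- PROOF. Induction on `k` for all `h`. `k = 0`: `baseStage`, `finrank = 2` (`Module.finrank_prod`), the sum is empty, `inv_base`
(`h1`). Step: take the stage `St` of height `k` for `h + 1`; `node` with `cond i = tup (sched (h + i))`; the new stage is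
`nextStage St (200 * d * n) Q P W _`, of width `200 * d * n`, height `k + 1`. Dimensions: `next_finrank`:
`2 s n + 2 A ≤ 2 s n + 6 n ≤ 3 s n` (`s = 200 d ≥ 200`). `next_b`, `b_zero`:
`∑_{i<k+1} b' (i+1) ≤ 2 ∑_{i<k+1} b i = 2 (A + ∑_{i<k} b (i+1)) ≤ 2 (3 n + B)`, `200 d B ≤ 8 n`, so `B ≤ n` and
`200 d * 2 (3n + B) ≤ 8 * (200 d n)`. Invariants: for `j`, if `nb j h = 1` then `sched h = j` and `Blk … (tup j t) 0`
holds (`cond 0 = tup (sched h)`), `inv_barrier` with `J = nb j (h+1) ≤ M j`. If `nb j h ≥ 2` let `i = nb j h - 1 = nb j (h+1)`: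
`sched (h + i) = j`, `Blk … (tup j t) i`, `inv_step`. -/
theorem tower [Finite F] {d : ℕ} (hd : 0 < d) (tup : ℕ → Fin d → T F (1000 * d))
    (htup : ∀ j t, aug F (1000 * d) (tup j t) = 0) {sched : ℕ → ℕ} {nb : ℕ → ℕ → ℕ} {M : ℕ → ℕ}
    (h1 : ∀ j h, 1 ≤ nb j h) (h2 : ∀ j h, nb j h ≤ M j)
    (h3 : ∀ j h, 2 ≤ nb j h → nb j (h + 1) + 1 = nb j h) (h4 : ∀ j h, sched (h + nb j h - 1) = j)
    (k h : ℕ) :
    ∃ n, 0 < n ∧ ∃ St : Stage F (1000 * d) n k, Module.finrank F St.V ≤ 3 * n ∧
      200 * d * ∑ i ∈ Finset.range k, St.b (i + 1) ≤ 8 * n ∧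
      ∀ j, Inv St (tup j) (nb j h) (4 * (2 ^ M j - 1)) := by
  induction k generalizing h with
  | zero =>
    refine ⟨1, one_pos, baseStage F _, ?_, ?_, fun j => inv_base _ (htup j) (h1 j h)⟩
    · change Module.finrank F ((Fin 1 → F) × (Fin 1 → F)) ≤ 3 * 1
      simp [Module.finrank_prod]
    · simp
  | succ k ih =>
    obtain ⟨n, hn, St, hA, hB, hI⟩ := ih (h + 1)
    obtain ⟨Q, P, W, hPW, hblk⟩ := node hd hn St hA hB (fun i => tup (sched (h + i)))
      (fun i t => htup _ t)
    have hdn : n ≤ d * n := Nat.le_mul_of_pos_left n hd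
    refine ⟨200 * d * n, by positivity, nextStage St (200 * d * n) Q P W hPW, ?_, ?_, ?_⟩
    · change Module.finrank F (Nx F (200 * d * n) St.V) ≤ 3 * (200 * d * n)
      rw [next_finrank]
      have h5 : 200 * d * n = 200 * (d * n) := by ring
      rw [h5]
      omega
    · have h6 : ∑ i ∈ Finset.range (k + 1), (nextStage St (200 * d * n) Q P W hPW).b (i + 1) ≤
          ∑ i ∈ Finset.range (k + 1), 2 * St.b i :=
        Finset.sum_le_sum fun i _ => next_b St (200 * d * n) i
      have h6' : ∑ i ∈ Finset.range (k + 1), St.b i =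
          ∑ i ∈ Finset.range k, St.b (i + 1) + Module.finrank F St.V := by
        rw [Finset.sum_range_succ', b_zero]
      rw [← Finset.mul_sum, h6'] at h6
      set B := ∑ i ∈ Finset.range k, St.b (i + 1) with hBd
      have h7 : 8 * B ≤ 8 * n := by
        refine le_trans ?_ hB
        exact Nat.mul_le_mul_right B (by omega)
      have h8 : B ≤ n := by omega
      calc 200 * d * ∑ i ∈ Finset.range (k + 1), (nextStage St (200 * d * n) Q P W hPW).b (i + 1)
          ≤ 200 * d * (2 * (B + Module.finrank F St.V)) := Nat.mul_le_mul_left _ h6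
        _ ≤ 200 * d * (2 * (n + 3 * n)) := by gcongr
        _ = 8 * (200 * d * n) := by ring
    · intro j
      have hMM : 4 * (2 ^ nb j (h + 1) - 1) ≤ 4 * (2 ^ M j - 1) := by
        have h9 : 2 ^ nb j (h + 1) ≤ 2 ^ M j := Nat.pow_le_pow_right two_pos (h2 j (h + 1))
        omega
      by_cases hnb : nb j h = 1
      · have h10 := h4 j h
        rw [hnb, Nat.add_sub_cancel] at h10
        rw [hnb]
        refine inv_barrier (h1 j (h + 1)) hMM (hI j) hPW fun t => ?_
        have h11 := hblk 0 t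
        simp only [add_zero, h10] at h11
        exact h11
      · have h12 : 2 ≤ nb j h := by
          have := h1 j h
          omega
        have h13 := h3 j h h12
        have h14 := h4 j h
        rw [← h13, show h + (nb j (h + 1) + 1) - 1 = h + nb j (h + 1) by omega] at h14
        rw [← h13]
        refine inv_step (h1 j (h + 1)) (hI j) hPW fun t => ?_
        have h11 := hblk (nb j (h + 1)) t
        simp only [h14] at h11
        exact h11

end Pool.Agent.H94S
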